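import Mathlib

set_option autoImplicit false

open Real Set MeasureTheory intervalIntegral Polynomial

/-!
Lower bounds for the number of limit cycles of `x' = F(t) x^P + ε f(t) x^Q`, `F = 𝔸'`, `ε → 0`.
Definitions used by all rows. See the page bb703b_lower.md in the store.
-/

namespace Pool.Agent.AbelLB

/-- `f` is a real trigonometric polynomial of degree at most `m`. -/
def TP (m : ℕ) (f : ℝ → ℝ) : Prop :=
  ∃ a b : ℕ → ℝ, ∀ t : ℝ,
    f t = a 0 + ∑ k ∈ Finset.Icc 1 m, (a k * cos (k * t) + b k * sin (k * t))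

/-- all moments `∫ b P(w)` vanish. -/
def Ker (w b : ℝ → ℝ) : Prop :=
  ∀ P : ℝ[X], ∫ t in (0:ℝ)..(2 * π), b t * P.eval (w t) = 0

/-- The Melnikov function `∫ f (E - 𝔸)^γ`. -/
noncomputable def J (γ : ℝ) (𝔸 f : ℝ → ℝ) (E : ℝ) : ℝ :=
  ∫ t in (0:ℝ)..(2 * π), f t * (E - 𝔸 t) ^ γ

/-- the exponent `γ = (P - Q)/(P - 1)`. -/
noncomputable def ga (P Q : ℕ) : ℝ := ((P : ℝ) - Q) / ((P : ℝ) - 1)

/-- the orbit of `x' = 𝔸' x^P` of energy `E`. -/
noncomputable def ob (P : ℕ) (𝔸 : ℝ → ℝ) (E t : ℝ) : ℝ :=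
  (((P : ℝ) - 1) * (E - 𝔸 t)) ^ (-(1 / ((P : ℝ) - 1)))

/-- `w` has exactly the `2k` critical points `z i` modulo `2π`, with distinct critical values. -/
structure Good (k : ℕ) (w : ℝ → ℝ) (z : Fin (2 * k) → ℝ) : Prop where
  zero : ∀ i, deriv w (z i) = 0
  dist : ∀ i j, i ≠ j → ∀ m : ℤ, z i ≠ z j + 2 * π * m
  all : ∀ t, deriv w t = 0 → ∃ i, ∃ m : ℤ, t = z i + 2 * π * m
  val : ∀ i j, i ≠ j → w (z i) ≠ w (z j)

/-- data of a perturbation: `F = 𝔸'`, everything `2π`-periodic. -/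
structure Dat (𝔸 F f : ℝ → ℝ) : Prop where
  hd : ∀ t, HasDerivAt 𝔸 (F t) t
  hF : Continuous F
  hf : Continuous f
  pA : ∀ t, 𝔸 (t + 2 * π) = 𝔸 t
  pF : ∀ t, F (t + 2 * π) = F t
  pf : ∀ t, f (t + 2 * π) = f t

theorem Dat.hA {𝔸 F f : ℝ → ℝ} (D : Dat 𝔸 F f) : Continuous 𝔸 :=
  continuous_iff_continuousAt.2 fun t => (D.hd t).continuousAt

theorem ga_lt {P Q : ℕ} (hP : 2 ≤ P) (hQ : 2 ≤ Q) : ga P Q < 1 := by
  have h1 : (2:ℝ) ≤ P := by exact_mod_cast hP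
  have h2 : (2:ℝ) ≤ Q := by exact_mod_cast hQ
  unfold ga
  rw [div_lt_one (by linarith)]
  linarith

/-- `γ` is not a natural number. -/
theorem ga_ne {P Q : ℕ} (hP : 2 ≤ P) (hQ : 2 ≤ Q) (hPQ : P ≠ Q) (j : ℕ) : ga P Q ≠ j := by
  intro h
  have h1 := ga_lt hP hQ
  have h2 : (j : ℝ) < 1 := by rw [← h]; exact h1
  have h3 : j = 0 := by
    have : j < 1 := by exact_mod_cast h2
    omega
  have h4 : (2:ℝ) ≤ P := by exact_mod_cast hP
  rw [h3, ga, Nat.cast_zero, div_eq_zero_iff] at h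
  rcases h with h | h
  · apply hPQ
    have : (P : ℝ) = Q := by linarith
    exact_mod_cast this
  · linarith

end Pool.Agent.AbelLB
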