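import Pool.Agent.Lib.MP_bb703b_an.B.Df

set_option autoImplicit false

open Real Set MeasureTheory intervalIntegral Polynomial

/-! Row bb-Rm. The remainder. -/

namespace Pool.Agent.AbelLB

/-- The remainder. `S δ t = u ∑_{i<d} (w+δu)^i w^(d-1-i) w' + (w+δu)^d u'`, so that `(w + δ u)^d (w' + δ u') - w^d w' = δ S δ t` (`Commute.geom_sum₂_mul` or `geom_sum₂_mul`:
`((w+δu)^d - w^d) = δ u ∑ ..`), continuous in `(δ, t)`, and `S 0 t = d w^(d-1) w' u + w^d u' = (w^d u)'`. -/
theorem remainder (d : ℕ) {w u w' u' : ℝ → ℝ} (h1 : ∀ t, HasDerivAt w (w' t) t) (h2 : ∀ t, HasDerivAt u (u' t) t) (hw' : Continuous w') (hu' : Continuous u') :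
    ∃ S : ℝ → ℝ → ℝ, Continuous (fun x : ℝ × ℝ => S x.1 x.2) ∧ (∀ δ t, (w t + δ * u t) ^ d * (w' t + δ * u' t) - w t ^ d * w' t = δ * S δ t) ∧
      ∀ t, HasDerivAt (fun t => w t ^ d * u t) (S 0 t) t := by
  have cw : Continuous w := continuous_iff_continuousAt.mpr fun t => (h1 t).continuousAt
  have cu : Continuous u := continuous_iff_continuousAt.mpr fun t => (h2 t).continuousAt
  refine ⟨fun δ t => u t * (∑ i ∈ Finset.range d, (w t + δ * u t) ^ i * w t ^ (d - 1 - i)) * w' t +
    (w t + δ * u t) ^ d * u' t, ?_, ?_, ?_⟩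
  · fun_prop
  · intro δ t
    have h := geom_sum₂_mul (w t + δ * u t) (w t) d
    have e : (w t + δ * u t) - w t = δ * u t := by ring
    rw [e] at h
    have h' : (w t + δ * u t) ^ d = w t ^ d +
        (∑ i ∈ Finset.range d, (w t + δ * u t) ^ i * w t ^ (d - 1 - i)) * (δ * u t) := by
      rw [h]; ring
    simp only
    generalize (∑ i ∈ Finset.range d, (w t + δ * u t) ^ i * w t ^ (d - 1 - i)) = Z at h' ⊢
    rw [h']
    ring
  · intro t
    have h := ((h1 t).pow d).mul (h2 t)
    refine h.congr_deriv ?_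
    have e : ∑ i ∈ Finset.range d, (w t + 0 * u t) ^ i * w t ^ (d - 1 - i) = d * w t ^ (d - 1) := by
      rw [zero_mul, add_zero]
      have : ∀ i ∈ Finset.range d, w t ^ i * w t ^ (d - 1 - i) = w t ^ (d - 1) := by
        intro i hi
        rw [← pow_add]
        congr 1
        have := Finset.mem_range.mp hi
        omega
      rw [Finset.sum_congr rfl this, Finset.sum_const, Finset.card_range, nsmul_eq_mul]
    beta_reduce
    rw [e]
    simp only [zero_mul, add_zero, Pi.pow_apply]
    ring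

end Pool.Agent.AbelLB
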