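import Pool.Agent.Lib.MP_bb703b_an.B.T1

set_option autoImplicit false

open Real Set MeasureTheory intervalIntegral Polynomial

/-! Row bb-T2. Closure properties of trigonometric polynomials. -/

namespace Pool.Agent.AbelLB

/-- Multiply the polynomials of `TP_iff`. -/
theorem TP.mul {m n : ℕ} {f g : ℝ → ℝ} (hf : TP m f) (hg : TP n g) : TP (m + n) (fun t => f t * g t) := by
  obtain ⟨P, hP, h1⟩ := TP_iff.1 hf
  obtain ⟨Q, hQ, h2⟩ := TP_iff.1 hg
  refine TP_iff.2 ⟨P * Q, ?_, fun t => ?_⟩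
  · refine Polynomial.natDegree_mul_le.trans ?_
    omega
  · rw [Polynomial.eval_mul, ← h1 t, ← h2 t]
    have h3 : (((m + n : ℕ) : ℂ) * t * Complex.I) = (m * t * Complex.I) + (n * t * Complex.I) := by
      push_cast
      ring
    rw [h3, Complex.exp_add]
    push_cast
    ring

theorem TP.add {m : ℕ} {f g : ℝ → ℝ} (hf : TP m f) (hg : TP m g) : TP m (fun t => f t + g t) := by
  obtain ⟨a, b, h1⟩ := hf
  obtain ⟨c, d, h2⟩ := hg
  refine ⟨fun k => a k + c k, fun k => b k + d k, fun t => ?_⟩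
  have h3 : ∑ k ∈ Finset.Icc 1 m, ((a k + c k) * cos (k * t) + (b k + d k) * sin (k * t)) =
      ∑ k ∈ Finset.Icc 1 m, (a k * cos (k * t) + b k * sin (k * t)) +
      ∑ k ∈ Finset.Icc 1 m, (c k * cos (k * t) + d k * sin (k * t)) := by
    rw [← Finset.sum_add_distrib]
    refine Finset.sum_congr rfl fun k _ => ?_
    ring
  simp only [h1 t, h2 t, h3]
  ring

theorem TP.smul {m : ℕ} {f : ℝ → ℝ} (c : ℝ) (hf : TP m f) : TP m (fun t => c * f t) := by
  obtain ⟨a, b, h1⟩ := hf
  refine ⟨fun k => c * a k, fun k => c * b k, fun t => ?_⟩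
  have h3 : ∑ k ∈ Finset.Icc 1 m, (c * a k * cos (k * t) + c * b k * sin (k * t)) =
      c * ∑ k ∈ Finset.Icc 1 m, (a k * cos (k * t) + b k * sin (k * t)) := by
    rw [Finset.mul_sum]
    refine Finset.sum_congr rfl fun k _ => ?_
    ring
  simp only [h1 t, h3]
  ring

theorem TP.mono {m n : ℕ} {f : ℝ → ℝ} (h : m ≤ n) (hf : TP m f) : TP n f := by
  obtain ⟨P, hP, h1⟩ := TP_iff.1 hf
  refine TP_iff.2 ⟨P * X ^ (n - m), ?_, fun t => ?_⟩
  · refine Polynomial.natDegree_mul_le.trans ?_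
    rw [Polynomial.natDegree_X_pow]
    omega
  · have h3 : ((n : ℂ) * t * Complex.I) = (m * t * Complex.I) + ((n - m : ℕ) : ℂ) * (t * Complex.I) := by
      rw [Nat.cast_sub h]
      ring
    rw [Polynomial.eval_mul, ← h1 t, Polynomial.eval_pow, Polynomial.eval_X, ← Complex.exp_nat_mul,
      h3, Complex.exp_add]
    ring

theorem TP.const (m : ℕ) (c : ℝ) : TP m (fun _ => c) := by
  refine ⟨fun k => if k = 0 then c else 0, fun _ => 0, fun t => ?_⟩
  rw [Finset.sum_eq_zero]
  · simp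
  · intro k hk
    have : k ≠ 0 := by
      have := (Finset.mem_Icc.1 hk).1
      omega
    simp [this]

theorem TP.pow {k : ℕ} {w : ℝ → ℝ} (hw : TP k w) (d : ℕ) : TP (k * d) (fun t => w t ^ d) := by
  induction d with
  | zero => simpa using TP.const (k * 0) 1
  | succ d ih =>
    have := TP.mul ih hw
    simpa [pow_succ, Nat.mul_succ] using this

theorem TP.cos_sin {m : ℕ} (j : ℕ) (hj : j ≤ m) (a b : ℝ) : TP m (fun t => a * cos (j * t) + b * sin (j * t)) := by
  rcases Nat.eq_zero_or_pos j with h0 | h0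
  · subst h0
    simpa using TP.const m a
  · refine ⟨fun k => if k = j then a else 0, fun k => if k = j then b else 0, fun t => ?_⟩
    rw [Finset.sum_eq_single j]
    · have : (0:ℕ) ≠ j := by omega
      simp [this]
    · intro k _ hk
      simp [hk]
    · intro hk
      exact absurd (Finset.mem_Icc.2 ⟨h0, hj⟩) hk

/-- `C^∞`. -/
theorem TP.contDiff {m : ℕ} {f : ℝ → ℝ} (hf : TP m f) : ContDiff ℝ ⊤ f := by
  obtain ⟨a, b, h1⟩ := hf
  have h2 : f = fun t => a 0 + ∑ k ∈ Finset.Icc 1 m, (a k * cos (k * t) + b k * sin (k * t)) := funext h1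
  rw [h2]
  refine contDiff_const.add (ContDiff.sum fun k _ => ?_)
  exact (contDiff_const.mul (Real.contDiff_cos.comp (contDiff_const.mul contDiff_id))).add
    (contDiff_const.mul (Real.contDiff_sin.comp (contDiff_const.mul contDiff_id)))

theorem TP.cont {m : ℕ} {f : ℝ → ℝ} (hf : TP m f) : Continuous f :=
  hf.contDiff.continuous

theorem TP.hd {m : ℕ} {f : ℝ → ℝ} (hf : TP m f) (t : ℝ) : HasDerivAt f (deriv f t) t :=
  ((hf.contDiff.differentiable (by simp)) t).hasDerivAt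

theorem TP.deriv' {m : ℕ} {f : ℝ → ℝ} (hf : TP m f) : TP m (deriv f) := by
  obtain ⟨a, b, h1⟩ := hf
  have h2 : f = fun t => a 0 + ∑ k ∈ Finset.Icc 1 m, (a k * cos (k * t) + b k * sin (k * t)) := funext h1
  refine ⟨fun k => k * b k, fun k => -(k * a k), fun t => ?_⟩
  have h3 : ∀ k : ℕ, HasDerivAt (fun t : ℝ => (k : ℝ) * t) (k : ℝ) t := fun k => by
    simpa using (hasDerivAt_id t).const_mul (k : ℝ)
  have h4 : HasDerivAt f (0 + ∑ k ∈ Finset.Icc 1 m,
      (a k * (-sin (k * t) * k) + b k * (cos (k * t) * k))) t := by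
    rw [h2]
    refine (hasDerivAt_const t (a 0)).add ?_
    refine HasDerivAt.fun_sum fun k _ => ?_
    exact (((h3 k).cos).const_mul (a k)).add (((h3 k).sin).const_mul (b k))
  rw [h4.deriv]
  congr 1
  · simp
  · refine Finset.sum_congr rfl fun k _ => ?_
    ring

theorem TP.per {m : ℕ} {f : ℝ → ℝ} (hf : TP m f) (t : ℝ) : f (t + 2 * π) = f t := by
  obtain ⟨a, b, h1⟩ := hf
  rw [h1, h1]
  congr 1
  refine Finset.sum_congr rfl fun k _ => ?_
  rw [mul_add, Real.cos_add_nat_mul_two_pi, Real.sin_add_nat_mul_two_pi]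

end Pool.Agent.AbelLB
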