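import Pool.Agent.Lib.MP_bb703b_an.B.Jd
import Pool.Agent.Lib.MP_bb703b_an.B.T2
import Pool.Agent.Lib.MP_bb703b_an.B.Rm

set_option autoImplicit false

open Real Set MeasureTheory intervalIntegral Polynomial

/-! Row bb-D. The second order step. -/

namespace Pool.Agent.AbelLB

private theorem Dl_bound {u : ℝ → ℝ} (hu : Continuous u) (pu : ∀ t, u (t + 2 * π) = u t) :
    ∃ M > 0, ∀ t, |u t| ≤ M := by
  have hp : Function.Periodic u (2 * π) := pu
  obtain ⟨C, hC⟩ := isCompact_Icc.exists_bound_of_continuousOn (s := Icc 0 (2 * π)) hu.continuousOn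
  refine ⟨|C| + 1, by positivity, fun t => ?_⟩
  obtain ⟨y, hy, hty⟩ := hp.exists_mem_Ico₀ Real.two_pi_pos t
  rw [hty]
  have := hC y ⟨hy.1, hy.2.le⟩
  rw [Real.norm_eq_abs] at this
  linarith [le_abs_self C]

private theorem Dl_gap {w : ℝ → ℝ} (hw : Continuous w) (pw : ∀ t, w (t + 2 * π) = w t) {E : ℝ} (hE : ∀ t, w t < E) :
    ∃ g > 0, ∀ t, w t + g ≤ E := by
  have hp : Function.Periodic w (2 * π) := pw
  obtain ⟨g, hg, h⟩ := gap hw hE
  refine ⟨g, hg, fun t => ?_⟩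
  obtain ⟨y, hy, hty⟩ := hp.exists_mem_Ico₀ Real.two_pi_pos t
  rw [hty]
  exact h y ⟨hy.1, hy.2.le⟩

/-- the parametric integral is continuous at `0`. -/
private theorem Dl_lim {γ : ℝ} {w u : ℝ → ℝ} {b : ℝ → ℝ} {S : ℝ → ℝ → ℝ} (cw : Continuous w) (cu : Continuous u) (cb : Continuous b)
    (hS : Continuous (fun x : ℝ × ℝ => S x.1 x.2)) {E g M : ℝ} (hg : 0 < g) (hgw : ∀ t, w t + g ≤ E) (hMu : ∀ t, |u t| ≤ M)
    {s : ℝ} (hs : 0 < s * J γ w (fun t => b t - S 0 t) E) :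
    ∀ᶠ δ in nhds (0:ℝ), (∀ t, w t + δ * u t < E) ∧ 0 < s * J γ (fun t => w t + δ * u t) (fun t => b t - S δ t) E := by
  set h : ℝ → ℝ → ℝ := fun δ t => (b t - S δ t) * (max (E - (w t + δ * u t)) (g / 2)) ^ γ with hh
  have ch : Continuous (Function.uncurry h) := by
    have c1 : Continuous (fun x : ℝ × ℝ => max (E - (w x.2 + x.1 * u x.2)) (g / 2)) := by fun_prop
    have c2 : Continuous (fun x : ℝ × ℝ => (max (E - (w x.2 + x.1 * u x.2)) (g / 2)) ^ γ) := by
      refine c1.rpow_const fun x => Or.inl ?_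
      have : g / 2 ≤ max (E - (w x.2 + x.1 * u x.2)) (g / 2) := le_max_right _ _
      have h2 : 0 < g / 2 := by linarith
      exact (lt_of_lt_of_le h2 this).ne'
    have c3 : Continuous (fun x : ℝ × ℝ => b x.2 - S x.1 x.2) := (cb.comp continuous_snd).sub hS
    exact c3.mul c2
  have cI : Continuous (fun δ => ∫ t in (0:ℝ)..(2 * π), h δ t) :=
    intervalIntegral.continuous_parametric_intervalIntegral_of_continuous' ch 0 (2 * π)
  -- the base is at least g / 2 for small δ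
  have hsmall : ∀ᶠ δ in nhds (0:ℝ), |δ| * M < g / 2 := by
    have c0 : Filter.Tendsto (fun δ : ℝ => |δ| * M) (nhds 0) (nhds (|(0:ℝ)| * M)) :=
      ((continuous_abs.mul continuous_const).tendsto 0)
    rw [abs_zero, zero_mul] at c0
    exact c0.eventually (gt_mem_nhds (by linarith))
  have hbase : ∀ δ : ℝ, |δ| * M < g / 2 → ∀ t, g / 2 < E - (w t + δ * u t) := by
    intro δ hδ t
    have h1 := hgw t
    have h2 : |δ * u t| ≤ |δ| * M := by
      rw [abs_mul]; exact mul_le_mul_of_nonneg_left (hMu t) (abs_nonneg _)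
    have h3 := le_abs_self (δ * u t)
    linarith
  have hJ : ∀ δ : ℝ, |δ| * M < g / 2 → J γ (fun t => w t + δ * u t) (fun t => b t - S δ t) E = ∫ t in (0:ℝ)..(2 * π), h δ t := by
    intro δ hδ
    unfold J
    refine intervalIntegral.integral_congr fun t _ => ?_
    simp only [hh]
    rw [max_eq_left (hbase δ hδ t).le]
  have h0 : |(0:ℝ)| * M < g / 2 := by rw [abs_zero, zero_mul]; linarith
  have e0 : J γ w (fun t => b t - S 0 t) E = ∫ t in (0:ℝ)..(2 * π), h 0 t := by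
    rw [← hJ 0 h0]
    simp only [zero_mul, add_zero]
  rw [e0] at hs
  have hev : ∀ᶠ δ in nhds (0:ℝ), 0 < s * ∫ t in (0:ℝ)..(2 * π), h δ t :=
    ((continuous_const.mul cI).tendsto 0).eventually (lt_mem_nhds hs)
  filter_upwards [hsmall, hev] with δ h1 h2
  refine ⟨fun t => ?_, ?_⟩
  · have := hbase δ h1 t
    linarith
  · rw [hJ δ h1]; exact h2

/-- Second order step. With `𝔸 = w + δ u`, `f = w^d w' + δ b₁`, `δ > 0` small: by `J_exact` (`∫ 𝔸^d 𝔸' (E-𝔸)^γ = 0`) and `remainder`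
`J γ 𝔸 f E = δ ∫ (b₁ - S δ t) (E - w - δ u)^γ`, and the integral tends to `J γ w (b₁ - (w^d u)') E`, `δ → 0`, for each of the finitely many `E i` (continuity of a parametric integral,
`intervalIntegral.continuousAt_of_dominated_interval` or uniform continuity; `E i - w t - δ u t ≥ g/2` on a period by `gap`). `deg f ≤ n` because `k (d+1) ≤ n`. -/
theorem delta_step {k m n d D : ℕ} (hkm : k ≤ m) (hn : k * (d + 1) ≤ n) {γ : ℝ} {w u b₁ : ℝ → ℝ} (hw : TP k w) (hu : TP m u) (hb : TP n b₁)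
    {E : Fin D → ℝ} (hE : ∀ i t, w t < E i)
    (hs : ∀ i : Fin D, 0 < (-1 : ℝ) ^ (i : ℕ) * J γ w (fun t => b₁ t - deriv (fun t => w t ^ d * u t) t) (E i)) :
    ∃ 𝔸 f : ℝ → ℝ, TP m 𝔸 ∧ TP n f ∧ (∀ i t, 𝔸 t < E i) ∧ ∀ i : Fin D, 0 < (-1 : ℝ) ^ (i : ℕ) * J γ 𝔸 f (E i) := by
  have cw := hw.cont
  have cu := hu.cont
  have cb := hb.cont
  have cw' := hw.deriv'.cont
  have cu' := hu.deriv'.cont
  obtain ⟨S, hSc, hS, hS0⟩ := remainder d (fun t => hw.hd t) (fun t => hu.hd t) cw' cu'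
  have hS0' : ∀ t, deriv (fun t => w t ^ d * u t) t = S 0 t := fun t => (hS0 t).deriv
  obtain ⟨M, _, hMu⟩ := Dl_bound cu hu.per
  have ev : ∀ i : Fin D, ∀ᶠ δ in nhds (0:ℝ), (∀ t, w t + δ * u t < E i) ∧
      0 < (-1 : ℝ) ^ (i : ℕ) * J γ (fun t => w t + δ * u t) (fun t => b₁ t - S δ t) (E i) := by
    intro i
    obtain ⟨g, hg, hgw⟩ := Dl_gap cw hw.per (hE i)
    refine Dl_lim cw cu cb hSc hg hgw hMu ?_
    have := hs i
    simp only [hS0'] at this
    exact this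
  have ev2 : ∀ᶠ δ in nhdsWithin (0:ℝ) (Ioi 0), (∀ i : Fin D, (∀ t, w t + δ * u t < E i) ∧
      0 < (-1 : ℝ) ^ (i : ℕ) * J γ (fun t => w t + δ * u t) (fun t => b₁ t - S δ t) (E i)) ∧ δ ∈ Ioi (0:ℝ) :=
    ((Filter.eventually_all.2 ev).filter_mono nhdsWithin_le_nhds).and self_mem_nhdsWithin
  obtain ⟨δ, hδ, hδ0⟩ := ev2.exists
  have hδ0 : 0 < δ := hδ0
  refine ⟨fun t => w t + δ * u t, fun t => w t ^ d * deriv w t + δ * b₁ t, ?_, ?_, fun i t => (hδ i).1 t, fun i => ?_⟩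
  · exact (hw.mono hkm).add (hu.smul δ)
  · refine TP.add (TP.mono ?_ ((hw.pow d).mul hw.deriv')) (hb.smul δ)
    calc k * d + k = k * (d + 1) := by ring
      _ ≤ n := hn
  · obtain ⟨hlt, hpos⟩ := hδ i
    set 𝔸 : ℝ → ℝ := fun t => w t + δ * u t with h𝔸
    have cA : Continuous 𝔸 := cw.add (continuous_const.mul cu)
    have cF : Continuous (fun t => deriv w t + δ * deriv u t) := cw'.add (continuous_const.mul cu')
    have hdA : ∀ t, HasDerivAt 𝔸 (deriv w t + δ * deriv u t) t := fun t => (hw.hd t).add ((hu.hd t).const_mul δ)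
    have pA : 𝔸 (2 * π) = 𝔸 0 := by
      have h1 := hw.per 0
      have h2 := hu.per 0
      rw [zero_add] at h1 h2
      simp only [h𝔸, h1, h2]
    have hex := J_exact (γ := γ) hdA cF pA hlt d
    have cS : Continuous (fun t => b₁ t - S δ t) := cb.sub (hSc.comp (Continuous.prodMk_right δ))
    have cX : Continuous (fun t => 𝔸 t ^ d * (deriv w t + δ * deriv u t)) := (cA.pow d).mul cF
    have hf : (fun t => w t ^ d * deriv w t + δ * b₁ t) =
        fun t => 𝔸 t ^ d * (deriv w t + δ * deriv u t) + δ * (b₁ t - S δ t) := by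
      funext t
      have := hS δ t
      simp only [h𝔸]
      linarith
    have cY : Continuous (fun t => δ * (b₁ t - S δ t)) := continuous_const.mul cS
    rw [hf, J_add cA cX cY hlt, hex, J_smul, zero_add]
    have : (-1 : ℝ) ^ (i : ℕ) * (δ * J γ 𝔸 (fun t => b₁ t - S δ t) (E i)) =
        δ * ((-1 : ℝ) ^ (i : ℕ) * J γ 𝔸 (fun t => b₁ t - S δ t) (E i)) := by ring
    rw [this]
    exact mul_pos hδ0 hpos

end Pool.Agent.AbelLB
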