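import Pool.Agent.Lib.MP_bb703b_an.B.Jd
import Pool.Agent.Lib.MP_bb703b_an.Exist2

set_option autoImplicit false

open Real Set MeasureTheory intervalIntegral Polynomial Pool.Agent.AbelLT

/-! Row bb-En. The energy of a solution. -/

namespace Pool.Agent.AbelLB

/-- The energy `h = x^(-(P-1))/(P-1) + 𝔸` of a positive solution: `h' = -x^(-P) x' + F = -ε f x^Q/x^P = -ε f ((P-1)(h-𝔸))^γ`. -/
theorem energy {P Q : ℕ} (hP : 2 ≤ P) {𝔸 F f : ℝ → ℝ} (D : Dat 𝔸 F f) {ε : ℝ} {x : ℝ → ℝ} (hx : PosPer P Q F (fun t => ε * f t) x) :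
    ∃ h : ℝ → ℝ, (∀ t, 𝔸 t < h t) ∧ (∀ t, x t = ob P 𝔸 (h t) t) ∧ (∀ t, ((P : ℝ) - 1) * (h t - 𝔸 t) = (x t ^ (P - 1))⁻¹) ∧
      (∀ t, HasDerivAt h (-(ε * (f t * (((P : ℝ) - 1) * (h t - 𝔸 t)) ^ ga P Q))) t) ∧
      (∀ t, HasDerivAt h (-(ε * (f t * (x t ^ Q / x t ^ P)))) t) ∧ ∀ t, h (t + 2 * π) = h t := by
  have hP1 : (0:ℝ) < (P:ℝ) - 1 := by
    have : (2:ℝ) ≤ P := by exact_mod_cast hP
    linarith
  have hcast : ((P - 1 : ℕ) : ℝ) = (P:ℝ) - 1 := by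
    push_cast [Nat.cast_sub (by omega : 1 ≤ P)]
    ring
  have hpos := hx.pos
  set h : ℝ → ℝ := fun t => (x t ^ (P - 1))⁻¹ / ((P:ℝ) - 1) + 𝔸 t with hh
  have e1 : ∀ t, ((P : ℝ) - 1) * (h t - 𝔸 t) = (x t ^ (P - 1))⁻¹ := by
    intro t
    simp only [hh]
    field_simp
    ring
  have hxp : ∀ t, 0 < x t ^ (P - 1) := fun t => pow_pos (hpos t) _
  have d1 : ∀ t, HasDerivAt h (-(ε * (f t * (x t ^ Q / x t ^ P)))) t := by
    intro t
    have hs := hx.sol.1 t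
    have h1 := ((hs.pow (P - 1)).inv (hxp t).ne').div_const ((P:ℝ) - 1)
    have h2 := h1.add (D.hd t)
    refine h2.congr_deriv ?_
    have hne := (hpos t).ne'
    obtain ⟨m, rfl⟩ : ∃ m, P = m + 2 := ⟨P - 2, by omega⟩
    have e0 : m + 2 - 1 = m + 1 := by omega
    have e00 : m + 1 - 1 = m := by omega
    simp only [e0, e00, Pi.pow_apply]
    have hc : ((m + 2 : ℕ) : ℝ) - 1 = (m:ℝ) + 1 := by push_cast; ring
    have hm : (m:ℝ) + 1 ≠ 0 := by positivity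
    rw [hc]
    push_cast
    field_simp
    ring
  have hg : ∀ t, (((P : ℝ) - 1) * (h t - 𝔸 t)) ^ ga P Q = x t ^ Q / x t ^ P := by
    intro t
    rw [e1 t, ← Real.rpow_natCast (x t) (P - 1), hcast, ← Real.rpow_neg (hpos t).le, ← Real.rpow_mul (hpos t).le,
      ← Real.rpow_natCast (x t) Q, ← Real.rpow_natCast (x t) P, ← Real.rpow_sub (hpos t)]
    congr 1
    unfold ga
    field_simp
    ring
  refine ⟨h, ?_, ?_, e1, ?_, d1, ?_⟩
  · intro t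
    have : 0 < (x t ^ (P - 1))⁻¹ / ((P:ℝ) - 1) := div_pos (inv_pos.2 (hxp t)) hP1
    simp only [hh]
    linarith
  · intro t
    unfold ob
    rw [e1 t, ← Real.rpow_natCast (x t) (P - 1), hcast, ← Real.rpow_neg (hpos t).le, ← Real.rpow_mul (hpos t).le]
    have : -((P:ℝ) - 1) * -(1 / ((P:ℝ) - 1)) = 1 := by field_simp
    rw [this, Real.rpow_one]
  · intro t
    rw [hg t]
    exact d1 t
  · intro t
    simp only [hh]
    rw [D.pA t, hx.sol.2 t]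

end Pool.Agent.AbelLB
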