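import Pool.Agent.Lib.MP_bb703b_an.B.Ng

set_option autoImplicit false

open Real Set MeasureTheory intervalIntegral Polynomial Pool.Agent.AbelLT

/-! The zero solution and the positive limit cycles, for all exponents. -/

namespace Pool.Agent.AbelLB

theorem zero_lim_all {P Q : ℕ} (hP : 2 ≤ P) (hQ : 2 ≤ Q) {𝔸 F f : ℝ → ℝ} (D : Dat 𝔸 F f) (hint : (∫ t in (0:ℝ)..(2 * π), f t) ≠ 0) {ε : ℝ} (hε : ε ≠ 0) :
    (0:ℝ) ∈ limCyc P Q F (fun t => ε * f t) := by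
  have hP0 : P ≠ 0 := by omega
  have hQ0 : Q ≠ 0 := by omega
  have hε' : (-1 : ℝ) ^ (Q - 1) * ε ≠ 0 := mul_ne_zero (pow_ne_zero _ (by norm_num)) hε
  have D' : Dat (fun t => (-1 : ℝ) ^ (P - 1) * 𝔸 t) (fun t => (-1 : ℝ) ^ (P - 1) * F t) f :=
    ⟨fun t => (D.hd t).const_mul _, continuous_const.mul D.hF, D.hf, fun t => by rw [D.pA], fun t => by rw [D.pF], D.pf⟩
  obtain ⟨η1, hη1, h1⟩ := no_small hP hQ D hint hε
  obtain ⟨η2, hη2, h2⟩ := no_small hP hQ D' hint hε'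
  have hcB : Continuous (fun t => ε * f t) := continuous_const.mul D.hf
  refine ⟨⟨fun _ => 0, zero_sol hP0 hQ0 _ _, rfl⟩, min η1 η2, lt_min hη1 hη2, ?_⟩
  intro c hc hlt
  rw [sub_zero] at hlt
  have hlt1 : |c| < η1 := lt_of_lt_of_le hlt (min_le_left _ _)
  have hlt2 : |c| < η2 := lt_of_lt_of_le hlt (min_le_right _ _)
  rw [perInit_eq hP0 hQ0 D.hF hcB] at hc
  rcases hc with (⟨x, hx, rfl⟩ | hc) | ⟨d, ⟨x, hx, rfl⟩, rfl⟩
  · have h3 := h1 x hx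
    have h4 := le_abs_self (x 0)
    linarith
  · exact hc
  · exfalso
    have e2 : (fun t => (-1 : ℝ) ^ (Q - 1) * (ε * f t)) = fun t => (-1 : ℝ) ^ (Q - 1) * ε * f t := by
      funext t
      ring
    rw [e2] at hx
    have h3 := h2 x hx
    have h4 := neg_le_abs (-x 0)
    rw [neg_neg] at h4
    linarith

/-- Positive limit cycles near the zeros of `J`, and the zero solution. -/
theorem count_one {P Q : ℕ} (hP : 2 ≤ P) (hQ : 2 ≤ Q) (hPQ : P ≠ Q) {𝔸 F f : ℝ → ℝ} (D : Dat 𝔸 F f) (hint : (∫ t in (0:ℝ)..(2 * π), f t) ≠ 0)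
    {Z : ℕ} {e : Fin Z → ℝ} (he : StrictMono e) (hE : ∀ i t, 𝔸 t < e i) (h0 : ∀ i, J (ga P Q) 𝔸 f (e i) = 0)
    (h1 : ∀ i, J (ga P Q - 1) 𝔸 f (e i) ≠ 0) :
    ∃ ε : ℝ, 0 < ε ∧ ((Z + 1 : ℕ) : ℕ∞) ≤ (limCyc P Q F (fun t => ε * f t)).encard := by
  have hpos : ∀ i, 0 < ob P 𝔸 (e i) 0 := fun i => ob_pos hP (hE i 0)
  have hne : ∀ i j, i ≠ j → 0 < |ob P 𝔸 (e i) 0 - ob P 𝔸 (e j) 0| := by
    intro i j hij
    rw [abs_pos, sub_ne_zero]
    rcases lt_or_gt_of_ne hij with h | h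
    · exact (ob_anti hP (hE i 0) (he h)).ne'
    · exact (ob_anti hP (hE j 0) (he h)).ne
  obtain ⟨ρ, hρ, hρ1, hρ2⟩ : ∃ ρ : ℝ, 0 < ρ ∧ (∀ i, ρ < ob P 𝔸 (e i) 0) ∧
      ∀ i j, i ≠ j → ρ < |ob P 𝔸 (e i) 0 - ob P 𝔸 (e j) 0| / 2 := by
    have e1 : ∀ᶠ ρ : ℝ in nhdsWithin 0 (Ioi 0), 0 < ρ := self_mem_nhdsWithin
    have e2 : ∀ᶠ ρ : ℝ in nhdsWithin 0 (Ioi 0), ∀ i, ρ < ob P 𝔸 (e i) 0 :=
      Filter.eventually_all.2 fun i => mem_nhdsWithin_of_mem_nhds (Iio_mem_nhds (hpos i))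
    have e3 : ∀ᶠ ρ : ℝ in nhdsWithin 0 (Ioi 0), ∀ i j, i ≠ j →
        ρ < |ob P 𝔸 (e i) 0 - ob P 𝔸 (e j) 0| / 2 := by
      refine Filter.eventually_all.2 fun i => Filter.eventually_all.2 fun j => ?_
      by_cases hij : i = j
      · exact Filter.Eventually.of_forall fun ρ h => absurd hij h
      · have h2 : 0 < |ob P 𝔸 (e i) 0 - ob P 𝔸 (e j) 0| / 2 := half_pos (hne i j hij)
        filter_upwards [mem_nhdsWithin_of_mem_nhds (Iio_mem_nhds h2)] with ρ h _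
        exact h
    obtain ⟨ρ, ⟨hρ, h2⟩, h3⟩ := ((e1.and e2).and e3).exists
    exact ⟨ρ, hρ, h2, h3⟩
  obtain ⟨ε, hε, hp⟩ : ∃ ε : ℝ, 0 < ε ∧
      (∀ i, ∃ c ∈ limCyc P Q F (fun t => ε * f t), |c - ob P 𝔸 (e i) 0| < ρ) := by
    have e1 : ∀ᶠ ε : ℝ in nhdsWithin 0 (Ioi 0), 0 < ε := self_mem_nhdsWithin
    have e2 : ∀ᶠ ε : ℝ in nhdsWithin 0 (Ioi 0), ∀ i,
        ∃ c ∈ limCyc P Q F (fun t => ε * f t), |c - ob P 𝔸 (e i) 0| < ρ := by
      refine Filter.eventually_all.2 fun i => ?_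
      obtain ⟨ε₀, hε₀, h⟩ := lim_near hP hQ hPQ D (hE i) (h0 i) (h1 i) hρ
      filter_upwards [e1, mem_nhdsWithin_of_mem_nhds (Iio_mem_nhds hε₀)] with ε h2 h3
      exact h ε h2 h3
    obtain ⟨ε, hε, h2⟩ := (e1.and e2).exists
    exact ⟨ε, hε, h2⟩
  refine ⟨ε, hε, ?_⟩
  choose c hc hcd using hp
  have hcpos : ∀ i, 0 < c i := fun i => by
    have h2 := (abs_lt.1 (hcd i)).1
    linarith [hρ1 i]
  have hinj : ∀ i j, c i = c j → i = j := by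
    intro i j hij
    by_contra hcon
    have h2 := hρ2 i j hcon
    have h3 : |ob P 𝔸 (e i) 0 - ob P 𝔸 (e j) 0| ≤
        |c i - ob P 𝔸 (e i) 0| + |c j - ob P 𝔸 (e j) 0| := by
      have h4 : ob P 𝔸 (e i) 0 - ob P 𝔸 (e j) 0 =
          -(c i - ob P 𝔸 (e i) 0) + (c j - ob P 𝔸 (e j) 0) := by
        rw [hij]
        ring
      rw [h4]
      calc _ ≤ _ := abs_add_le _ _
        _ = _ := by rw [abs_neg]
    linarith [hcd i, hcd j]
  have hz : (0 : ℝ) ∈ limCyc P Q F (fun t => ε * f t) := zero_lim_all hP hQ D hint hε.ne'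
  let g : Fin Z ⊕ Unit → ℝ := Sum.elim c fun _ => 0
  have hg : Function.Injective g := by
    rintro (i | i) (j | j) hij
    · have h2 : c i = c j := hij
      rw [hinj i j h2]
    · have h2 : c i = 0 := hij
      linarith [hcpos i]
    · have h2 : 0 = c j := hij
      linarith [hcpos j]
    · rfl
  have hsub : range g ⊆ limCyc P Q F (fun t => ε * f t) := by
    rintro _ ⟨i | i, rfl⟩
    · exact hc i
    · exact hz
  refine le_trans ?_ (encard_le_encard hsub)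
  rw [← image_univ, hg.encard_image, encard_univ]
  simp only [ENat.card_eq_coe_fintype_card, Fintype.card_sum, Fintype.card_fin, Fintype.card_unit]
  exact le_rfl

end Pool.Agent.AbelLB
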