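import Pool.Agent.Lib.MP_bb703b_an.B.Df

set_option autoImplicit false

open Real Set MeasureTheory intervalIntegral Polynomial

/-! Row bb-R1. Interpolation in a finite-dimensional space of functions. -/

namespace Pool.Agent.AbelLB

/-- Induction on `D`: if the evaluation `W → ℝ^D` at `x_1, ..., x_D` is onto and `finrank W ≥ D + 1` there is `f ≠ 0` in `W` which vanishes at the `x_i`; take `x_{D+1}` with
`f (x_{D+1}) ≠ 0`, and correct an interpolating function by a multiple of `f`. -/
theorem exists_points {X : Type*} (W : Submodule ℝ (X → ℝ)) [FiniteDimensional ℝ W] (D : ℕ) (hD : D ≤ Module.finrank ℝ W) :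
    ∃ x : Fin D → X, ∀ y : Fin D → ℝ, ∃ f ∈ W, ∀ i, f (x i) = y i := by
  induction D with
  | zero => exact ⟨fun i => i.elim0, fun y => ⟨0, W.zero_mem, fun i => i.elim0⟩⟩
  | succ D ih =>
    obtain ⟨x, hx⟩ := ih (by omega)
    let ev : W →ₗ[ℝ] (Fin D → ℝ) :=
      { toFun := fun f i => (f : X → ℝ) (x i)
        map_add' := fun f g => by
          funext i
          simp
        map_smul' := fun c f => by
          funext i
          simp }
    have hker : LinearMap.ker ev ≠ ⊥ := by
      apply LinearMap.ker_ne_bot_of_finrank_lt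
      rw [Module.finrank_fin_fun]
      omega
    obtain ⟨f, hf, hf0⟩ := Submodule.exists_mem_ne_zero_of_ne_bot hker
    have hfx : ∀ i, (f : X → ℝ) (x i) = 0 := by
      intro i
      have h1 : ev f = 0 := hf
      exact congrFun h1 i
    have hne : (f : X → ℝ) ≠ 0 := by
      intro h0
      exact hf0 (Subtype.ext h0)
    obtain ⟨z, hz⟩ := Function.ne_iff.1 hne
    have hz' : (f : X → ℝ) z ≠ 0 := hz
    refine ⟨Fin.snoc (α := fun _ => X) x z, fun y => ?_⟩
    obtain ⟨g, hg, hgx⟩ := hx (fun i => y i.castSucc)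
    refine ⟨g + ((y (Fin.last D) - g z) / (f : X → ℝ) z) • (f : X → ℝ), W.add_mem hg (W.smul_mem _ f.2), ?_⟩
    intro i
    refine Fin.lastCases ?_ (fun j => ?_) i
    · rw [Fin.snoc_last]
      simp only [Pi.add_apply, Pi.smul_apply, smul_eq_mul]
      field_simp
      ring
    · rw [Fin.snoc_castSucc]
      simp only [Pi.add_apply, Pi.smul_apply, smul_eq_mul]
      rw [hfx j, mul_zero, add_zero]
      exact hgx j

/-- The same for functions on `ℝ` and points `> M`, in increasing order. `V` is a finite-dimensional space, `Φ : V → (ℝ → ℝ)` linear, and the elements with `Φ v = 0` on `(M, ∞)` lie in a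
subspace of dimension `≤ r` spanned by ..: `finrank (range of the restriction to (M,∞)) ≥ finrank V - r` (rank-nullity). The points `x i` are distinct (take `y = Pi.single i 1`);
order them (`Tuple.sort`). -/
theorem exists_points_lt {V : Type*} [AddCommGroup V] [Module ℝ V] [FiniteDimensional ℝ V] (Φ : V →ₗ[ℝ] (ℝ → ℝ)) (M : ℝ) (K : Submodule ℝ V) {r D : ℕ}
    (hK : ∀ v, (∀ E, M < E → Φ v E = 0) → v ∈ K) (hr : Module.finrank ℝ K ≤ r) (hD : D + r ≤ Module.finrank ℝ V) :
    ∃ x : Fin D → ℝ, StrictMono x ∧ (∀ i, M < x i) ∧ ∀ y : Fin D → ℝ, ∃ v, ∀ i, Φ v (x i) = y i := by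
  let ρ : V →ₗ[ℝ] (Set.Ioi M → ℝ) :=
    { toFun := fun v E => Φ v (E : ℝ)
      map_add' := fun u v => by
        funext E
        simp
      map_smul' := fun c v => by
        funext E
        simp }
  have hkerle : LinearMap.ker ρ ≤ K := by
    intro v hv
    apply hK
    intro E hE
    have h1 : ρ v = 0 := hv
    exact congrFun h1 ⟨E, hE⟩
  have hk1 : Module.finrank ℝ (LinearMap.ker ρ) ≤ r := (Submodule.finrank_mono hkerle).trans hr
  have hrn := LinearMap.finrank_range_add_finrank_ker ρ
  obtain ⟨x, hx⟩ := exists_points (LinearMap.range ρ) D (by omega)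
  have hinj : Function.Injective (fun i => (x i : ℝ)) := by
    intro i j hij
    by_contra hne
    obtain ⟨f, _, hf⟩ := hx (Pi.single i 1)
    have h1 := hf i
    have h2 := hf j
    have h3 : x i = x j := Subtype.ext hij
    rw [h3, h2, Pi.single_eq_same, Pi.single_eq_of_ne (Ne.symm hne)] at h1
    norm_num at h1
  set σ := Tuple.sort (fun i => (x i : ℝ)) with hσ
  refine ⟨fun i => (x (σ i) : ℝ), ?_, fun i => (x (σ i)).2, ?_⟩
  · have hmono : Monotone ((fun i => (x i : ℝ)) ∘ σ) := Tuple.monotone_sort _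
    exact hmono.strictMono_of_injective (hinj.comp σ.injective)
  · intro y
    obtain ⟨f, ⟨v, hv⟩, hf⟩ := hx (fun i => y (σ.symm i))
    refine ⟨v, fun i => ?_⟩
    have h1 := hf (σ i)
    rw [Equiv.symm_apply_apply, ← hv] at h1
    exact h1

end Pool.Agent.AbelLB
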