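import Pool.Agent.Lib.MP_bb703b_an.B.T2

set_option autoImplicit false

open Real Set MeasureTheory intervalIntegral Polynomial

/-! Row bb-R2. The space of trigonometric polynomials as a parameter space. -/

namespace Pool.Agent.AbelLB

/-- the trigonometric polynomial with coefficients `c 0, c (2k-1), c (2k)`. -/
noncomputable def tpf (N : ℕ) : (Fin (2 * N + 1) → ℝ) →ₗ[ℝ] (ℝ → ℝ) where
  toFun c := fun t => ∑ i : Fin (2 * N + 1), c i * (if (i : ℕ) % 2 = 0 then cos (((i : ℕ) / 2 : ℕ) * t) else sin ((((i : ℕ) + 1) / 2 : ℕ) * t))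
  map_add' c c' := by
    funext t
    simp only [Pi.add_apply, add_mul, Finset.sum_add_distrib]
  map_smul' a c := by
    funext t
    simp only [Pi.smul_apply, smul_eq_mul, RingHom.id_apply, Finset.mul_sum, mul_assoc]

private theorem R2_sum {ι : Type*} (m : ℕ) (s : Finset ι) (g : ι → ℝ → ℝ) (h : ∀ i ∈ s, TP m (g i)) :
    TP m (fun t => ∑ i ∈ s, g i t) := by
  classical
  induction s using Finset.induction_on with
  | empty =>
    simp only [Finset.sum_empty]
    exact TP.const m 0
  | insert a s ha ih =>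
    have h1 : (fun t => ∑ i ∈ insert a s, g i t) = fun t => g a t + ∑ i ∈ s, g i t := by
      funext t
      rw [Finset.sum_insert ha]
    rw [h1]
    exact (h a (Finset.mem_insert_self a s)).add (ih fun i hi => h i (Finset.mem_insert_of_mem hi))

theorem tpf_TP (N : ℕ) (c : Fin (2 * N + 1) → ℝ) : TP N (tpf N c) := by
  change TP N (fun t => ∑ i : Fin (2 * N + 1), c i * (if (i : ℕ) % 2 = 0 then cos (((i : ℕ) / 2 : ℕ) * t) else sin ((((i : ℕ) + 1) / 2 : ℕ) * t)))
  refine R2_sum N _ _ fun i _ => TP.smul (c i) ?_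
  have hi := i.2
  by_cases h : (i : ℕ) % 2 = 0
  · simp only [h, if_true]
    have h1 := TP.cos_sin (m := N) ((i : ℕ) / 2) (by omega) 1 0
    have h2 : (fun t : ℝ => 1 * cos (((i : ℕ) / 2 : ℕ) * t) + 0 * sin (((i : ℕ) / 2 : ℕ) * t)) =
        fun t => cos (((i : ℕ) / 2 : ℕ) * t) := by
      funext t
      ring
    rw [h2] at h1
    exact h1
  · simp only [h, if_false]
    have h1 := TP.cos_sin (m := N) (((i : ℕ) + 1) / 2) (by omega) 0 1
    have h2 : (fun t : ℝ => 0 * cos ((((i : ℕ) + 1) / 2 : ℕ) * t) + 1 * sin ((((i : ℕ) + 1) / 2 : ℕ) * t)) =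
        fun t => sin ((((i : ℕ) + 1) / 2 : ℕ) * t) := by
      funext t
      ring
    rw [h2] at h1
    exact h1

private noncomputable def R2_q (N i : ℕ) : ℂ[X] :=
  if i % 2 = 0 then C (1 / 2) * (X ^ (N + i / 2) + X ^ (N - i / 2))
  else C (-Complex.I / 2) * (X ^ (N + (i + 1) / 2) - X ^ (N - (i + 1) / 2))

private theorem R2_exp (N j : ℕ) (hj : j ≤ N) (t : ℝ) :
    Complex.exp (t * Complex.I) ^ (N + j) = Complex.exp (N * t * Complex.I) * Complex.exp (j * t * Complex.I) ∧
    Complex.exp (t * Complex.I) ^ (N - j) = Complex.exp (N * t * Complex.I) * Complex.exp (-(j * t * Complex.I)) := by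
  constructor
  · rw [← Complex.exp_nat_mul, ← Complex.exp_add]
    congr 1
    push_cast
    ring
  · rw [← Complex.exp_nat_mul, ← Complex.exp_add, Nat.cast_sub hj]
    congr 1
    ring

private theorem R2_eval (N i : ℕ) (hi : i < 2 * N + 1) (t : ℝ) :
    (((if i % 2 = 0 then cos ((i / 2 : ℕ) * t) else sin (((i + 1) / 2 : ℕ) * t)) : ℝ) : ℂ) *
      Complex.exp (N * t * Complex.I) = (R2_q N i).eval (Complex.exp (t * Complex.I)) := by
  unfold R2_q
  by_cases h : i % 2 = 0
  · rw [if_pos h, if_pos h]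
    obtain ⟨h1, h2⟩ := R2_exp N (i / 2) (by omega) t
    simp only [eval_mul, eval_C, eval_add, eval_pow, eval_X]
    rw [h1, h2, Complex.ofReal_cos, Complex.cos]
    push_cast
    rw [show -(((i / 2 : ℕ) : ℂ) * (t : ℂ)) * Complex.I = -(((i / 2 : ℕ) : ℂ) * (t : ℂ) * Complex.I) by ring]
    ring
  · rw [if_neg h, if_neg h]
    obtain ⟨h1, h2⟩ := R2_exp N ((i + 1) / 2) (by omega) t
    simp only [eval_mul, eval_C, eval_sub, eval_pow, eval_X]
    rw [h1, h2, Complex.ofReal_sin, Complex.sin]
    push_cast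
    rw [show -((((i + 1) / 2 : ℕ) : ℂ) * (t : ℂ)) * Complex.I = -((((i + 1) / 2 : ℕ) : ℂ) * (t : ℂ) * Complex.I) by ring]
    ring

private theorem R2_inf : (range fun t : ℝ => Complex.exp (t * Complex.I)).Infinite := by
  have h1 : InjOn (fun t : ℝ => Complex.exp (t * Complex.I)) (Ico 0 1) := by
    intro s hs t ht hst
    simp only at hst
    rw [Complex.exp_eq_exp_iff_exists_int] at hst
    obtain ⟨n, hn⟩ := hst
    have h2 : (s : ℂ) = t + n * (2 * π) := by
      have h3 : ((s : ℂ) - (t + n * (2 * π))) * Complex.I = 0 := by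
        linear_combination hn
      rcases mul_eq_zero.1 h3 with h4 | h4
      · linear_combination h4
      · exact absurd h4 Complex.I_ne_zero
    have h3 : s = t + n * (2 * π) := by exact_mod_cast h2
    have h4 : n = 0 := by
      have h5 : |(n : ℝ) * (2 * π)| < 1 := by
        rw [abs_lt]
        constructor <;> linarith [hs.1, hs.2, ht.1, ht.2]
      rw [abs_mul, abs_of_pos two_pi_pos] at h5
      have h6 : |(n : ℝ)| < 1 := by
        by_contra hc
        rw [not_lt] at hc
        have := Real.pi_gt_three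
        nlinarith
      have h7 : |n| < 1 := by exact_mod_cast h6
      exact Int.abs_lt_one_iff.1 h7
    rw [h3, h4]
    simp
  exact ((Ico_infinite one_pos).image h1).mono (image_subset_range _ _)

theorem tpf_inj (N : ℕ) (c : Fin (2 * N + 1) → ℝ) (h : ∀ t, tpf N c t = 0) : c = 0 := by
  set P : ℂ[X] := ∑ i : Fin (2 * N + 1), C (c i : ℂ) * R2_q N i with hP
  have hP0 : P = 0 := by
    refine Polynomial.eq_zero_of_infinite_isRoot P (R2_inf.mono ?_)
    rintro _ ⟨t, rfl⟩
    change P.eval (Complex.exp (t * Complex.I)) = 0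
    rw [hP, eval_finsetSum]
    have h1 : ∀ i : Fin (2 * N + 1), eval (Complex.exp (t * Complex.I)) (C (c i : ℂ) * R2_q N i) =
        ((c i * (if (i : ℕ) % 2 = 0 then cos (((i : ℕ) / 2 : ℕ) * t) else sin ((((i : ℕ) + 1) / 2 : ℕ) * t)) : ℝ) : ℂ) *
          Complex.exp (N * t * Complex.I) := by
      intro i
      rw [eval_mul, eval_C, ← R2_eval N i i.2 t]
      push_cast
      ring
    rw [Finset.sum_congr rfl fun i _ => h1 i, ← Finset.sum_mul, ← Complex.ofReal_sum]
    have h2 : (∑ i : Fin (2 * N + 1), c i * (if (i : ℕ) % 2 = 0 then cos (((i : ℕ) / 2 : ℕ) * t) else sin ((((i : ℕ) + 1) / 2 : ℕ) * t))) = 0 := h t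
    rw [h2]
    simp
  funext i
  have hi := i.2
  -- the coefficient of P
  have hc : ∀ n : ℕ, ∑ k : Fin (2 * N + 1), (c k : ℂ) * (R2_q N k).coeff n = 0 := by
    intro n
    have h1 : P.coeff n = 0 := by rw [hP0, coeff_zero]
    rw [hP, finsetSum_coeff] at h1
    simpa only [coeff_C_mul] using h1
  change c i = 0
  by_cases hpar : (i : ℕ) % 2 = 0
  · -- real part of the coefficient of X^(N + i/2)
    have h1 := congrArg Complex.re (hc (N + (i : ℕ) / 2))
    rw [Complex.re_sum] at h1
    rw [Finset.sum_eq_single i] at h1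
    · simp only [R2_q, hpar, if_true, coeff_C_mul, coeff_add, coeff_X_pow, if_true] at h1
      rw [Complex.re_ofReal_mul] at h1
      rcases mul_eq_zero.1 h1 with h2 | h2
      · exact h2
      · exfalso
        split_ifs at h2 <;> norm_num at h2
    · intro k _ hk
      rw [Complex.re_ofReal_mul]
      have hk2 := k.2
      have hne : (k : ℕ) ≠ i := fun e => hk (Fin.ext e)
      by_cases hkp : (k : ℕ) % 2 = 0
      · simp only [R2_q, hkp, if_true, coeff_C_mul, coeff_add, coeff_X_pow]
        rw [if_neg (by omega), if_neg (by omega)]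
        simp
      · simp only [R2_q, hkp, if_false, coeff_C_mul, coeff_sub, coeff_X_pow]
        split_ifs <;> simp
    · intro hh
      exact absurd (Finset.mem_univ _) hh
  · have h1 := congrArg Complex.im (hc (N + ((i : ℕ) + 1) / 2))
    rw [Complex.im_sum] at h1
    rw [Finset.sum_eq_single i] at h1
    · simp only [R2_q, hpar, if_false, coeff_C_mul, coeff_sub, coeff_X_pow, if_true] at h1
      rw [Complex.im_ofReal_mul, if_neg (by omega)] at h1
      rcases mul_eq_zero.1 h1 with h2 | h2
      · exact h2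
      · exfalso
        norm_num at h2
    · intro k _ hk
      rw [Complex.im_ofReal_mul]
      have hk2 := k.2
      have hne : (k : ℕ) ≠ i := fun e => hk (Fin.ext e)
      by_cases hkp : (k : ℕ) % 2 = 0
      · simp only [R2_q, hkp, if_true, coeff_C_mul, coeff_add, coeff_X_pow]
        split_ifs <;> norm_num
      · simp only [R2_q, hkp, if_false, coeff_C_mul, coeff_sub, coeff_X_pow]
        rw [if_neg (by omega), if_neg (by omega)]
        simp
    · intro hh
      exact absurd (Finset.mem_univ _) hh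

end Pool.Agent.AbelLB
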