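import Pool.Agent.Lib.MP_bb703b_an.B.K3
import Pool.Agent.Lib.MP_bb703b_an.B.R1
import Pool.Agent.Lib.MP_bb703b_an.B.R2

set_option autoImplicit false

open Real Set MeasureTheory intervalIntegral Polynomial

/-! Row bb-R3. Sign changes for `J γ w b`, `deg b ≤ N`. -/

namespace Pool.Agent.AbelLB

private theorem R3_bound {k : ℕ} {w : ℝ → ℝ} (hw : TP k w) : ∃ M : ℝ, ∀ t, w t ≤ M := by
  obtain ⟨a, b, h⟩ := hw
  refine ⟨a 0 + ∑ j ∈ Finset.Icc 1 k, (|a j| + |b j|), fun t => ?_⟩
  rw [h t]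
  refine add_le_add le_rfl (Finset.sum_le_sum fun j _ => add_le_add ?_ ?_)
  · calc a j * cos (j * t) ≤ |a j * cos (j * t)| := le_abs_self _
      _ = |a j| * |cos (j * t)| := abs_mul _ _
      _ ≤ |a j| * 1 := mul_le_mul_of_nonneg_left (abs_cos_le_one _) (abs_nonneg _)
      _ = |a j| := mul_one _
  · calc b j * sin (j * t) ≤ |b j * sin (j * t)| := le_abs_self _
      _ = |b j| * |sin (j * t)| := abs_mul _ _
      _ ≤ |b j| * 1 := mul_le_mul_of_nonneg_left (abs_sin_le_one _) (abs_nonneg _)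
      _ = |b j| := mul_one _

/-- `V = Fin (2N+1) → ℝ`, `Φ c = J γ w (tpf N c)` for `E > M` (as a linear map `V → (ℝ → ℝ)` put `Φ c E = if M < E then J .. else 0`, with `M = max w` (attained by periodicity),
linear by `J_add`, `J_smul`). If `Φ c = 0` on `(M,∞)` then `tpf N c` is in the kernel (`ker_of_J`), so (`ker_form`) `tpf N c = g(w) w'` with `g = 0` or `k (deg g + 1) ≤ N`, so
`g ∈ Polynomial.degreeLT ℝ (N / k)`, a space of dimension `N / k`; by `tpf_inj` the set `K` of all these `c` is a subspace of dimension `≤ N / k` (it embeds in the space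
of the functions `g(w) w'`, the image of `degreeLT`). `exists_points_lt` with `r = N / k`, `D = 2N + 1 - N/k`; `y i = (-1)^i`. -/
theorem signs {k : ℕ} (hk : 1 ≤ k) {w : ℝ → ℝ} (hw : TP k w) (hw0 : ∃ t, deriv w t ≠ 0) {z : Fin (2 * k) → ℝ} (hz : Good k w z) (N : ℕ)
    {γ : ℝ} (hγ : ∀ j : ℕ, γ ≠ j) :
    ∃ (E : Fin (2 * N + 1 - N / k) → ℝ) (b : ℝ → ℝ), StrictMono E ∧ TP N b ∧ (∀ i t, w t < E i) ∧
      ∀ i : Fin (2 * N + 1 - N / k), 0 < (-1 : ℝ) ^ (i : ℕ) * J γ w b (E i) := by
  obtain ⟨M, hM⟩ := R3_bound hw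
  have hMt : ∀ E, M < E → ∀ t, w t < E := fun E hE t => lt_of_le_of_lt (hM t) hE
  let Φ : (Fin (2 * N + 1) → ℝ) →ₗ[ℝ] (ℝ → ℝ) :=
    { toFun := fun c E => if M < E then J γ w (tpf N c) E else 0
      map_add' := by
        intro c c'
        funext E
        simp only [Pi.add_apply]
        by_cases hE : M < E
        · rw [if_pos hE, if_pos hE, if_pos hE, ← J_add hw.cont (tpf_TP N c).cont (tpf_TP N c').cont (hMt E hE), map_add]
          rfl
        · rw [if_neg hE, if_neg hE, if_neg hE, add_zero]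
      map_smul' := by
        intro a c
        funext E
        simp only [Pi.smul_apply, RingHom.id_apply, smul_eq_mul]
        by_cases hE : M < E
        · rw [if_pos hE, if_pos hE, ← J_smul, map_smul]
          rfl
        · rw [if_neg hE, if_neg hE, mul_zero] }
  have hΦ : ∀ c E, M < E → Φ c E = J γ w (tpf N c) E := fun c E hE => if_pos hE
  let Ψ : ℝ[X] →ₗ[ℝ] (ℝ → ℝ) :=
    { toFun := fun g t => g.eval (w t) * deriv w t
      map_add' := by
        intro g g'
        funext t
        simp only [Pi.add_apply, eval_add, add_mul]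
      map_smul' := by
        intro a g
        funext t
        simp only [Pi.smul_apply, RingHom.id_apply, smul_eq_mul, eval_smul, mul_assoc] }
  let K : Submodule ℝ (Fin (2 * N + 1) → ℝ) := ((degreeLT ℝ (N / k)).map Ψ).comap (tpf N)
  have : Module.Finite ℝ (degreeLT ℝ (N / k)) := Module.Finite.equiv (degreeLTEquiv ℝ (N / k)).symm
  have hfin : Module.finrank ℝ (degreeLT ℝ (N / k)) = N / k :=
    (degreeLTEquiv ℝ (N / k)).finrank_eq.trans (Module.finrank_fin_fun ℝ)
  have hr : Module.finrank ℝ K ≤ N / k := by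
    have h1 : Module.finrank ℝ K ≤ Module.finrank ℝ ((degreeLT ℝ (N / k)).map Ψ) := by
      refine LinearMap.finrank_le_finrank_of_injective (f := (tpf N).restrict (p := K) (q := (degreeLT ℝ (N / k)).map Ψ) (fun x hx => hx)) ?_
      intro x y hxy
      have h2 : tpf N (x : Fin (2 * N + 1) → ℝ) = tpf N (y : Fin (2 * N + 1) → ℝ) := congrArg Subtype.val hxy
      have h3 : tpf N ((x : Fin (2 * N + 1) → ℝ) - y) = 0 := by rw [map_sub, h2, sub_self]
      have h4 := tpf_inj N ((x : Fin (2 * N + 1) → ℝ) - y) (fun t => congrFun h3 t)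
      exact Subtype.ext (sub_eq_zero.1 h4)
    exact h1.trans ((Submodule.finrank_map_le Ψ _).trans hfin.le)
  have hK : ∀ v, (∀ E, M < E → Φ v E = 0) → v ∈ K := by
    intro v hv
    have hker : Ker w (tpf N v) := ker_of_J hγ hw.cont (tpf_TP N v).cont hM (fun E hE => by rw [← hΦ v E hE]; exact hv E hE)
    obtain ⟨g, hg, hgt⟩ := ker_form hk hw hw0 hz N (tpf_TP N v) hker
    refine Submodule.mem_comap.2 (Submodule.mem_map.2 ⟨g, ?_, ?_⟩)
    · rcases hg with hg | hg
      · rw [hg]
        exact Submodule.zero_mem _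
      · rw [mem_degreeLT]
        refine lt_of_le_of_lt degree_le_natDegree ?_
        have h5 : g.natDegree + 1 ≤ N / k := by
          rw [Nat.le_div_iff_mul_le (by omega), mul_comm]
          exact hg
        exact_mod_cast (by omega : g.natDegree < N / k)
    · funext t
      exact (hgt t).symm
  have hdiv : N / k ≤ N := Nat.div_le_self N k
  obtain ⟨x, hx1, hx2, hx3⟩ := exists_points_lt Φ M K (r := N / k) (D := 2 * N + 1 - N / k) hK hr (by rw [Module.finrank_fin_fun]; omega)
  obtain ⟨v, hv⟩ := hx3 (fun i => (-1 : ℝ) ^ (i : ℕ))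
  refine ⟨x, tpf N v, hx1, tpf_TP N v, fun i t => hMt _ (hx2 i) t, fun i => ?_⟩
  have h6 := hv i
  rw [hΦ v _ (hx2 i)] at h6
  rw [h6, ← mul_pow]
  norm_num

end Pool.Agent.AbelLB
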