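import Pool.Agent.Lib.MP_bb703b_an.B.Jd

set_option autoImplicit false

open Real Set MeasureTheory intervalIntegral Polynomial

/-! Row bb-S. Simple zeros. -/

namespace Pool.Agent.AbelLB

/-- One-dimensional Sard: `MeasureTheory.addHaar_image_eq_zero_of_det_fderiv_eq_zero` for `volume` on `ℝ` (`f' x = 0` on `s`, the determinant of the zero map of `ℝ` is `0`). -/
theorem sard_one {g g' : ℝ → ℝ} {s : Set ℝ} (hg : ∀ x ∈ s, HasDerivAt g (g' x) x) (h0 : ∀ x ∈ s, g' x = 0) : volume (g '' s) = 0 := by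
  refine MeasureTheory.addHaar_image_eq_zero_of_det_fderivWithin_eq_zero volume
    (f' := fun _ => (0 : ℝ →L[ℝ] ℝ)) (fun x hx => ?_) (fun x hx => ?_)
  · have h := hg x hx
    rw [h0 x hx] at h
    have h2 := h.hasFDerivAt.hasFDerivWithinAt (s := s)
    have e : ContinuousLinearMap.toSpanSingleton ℝ (0 : ℝ) = (0 : ℝ →L[ℝ] ℝ) := by
      ext
      simp
    rw [← e]
    exact h2
  · simp [ContinuousLinearMap.det]

private theorem Sa_J_add_const {γ : ℝ} {𝔸 f : ℝ → ℝ} (hA : Continuous 𝔸) (hf : Continuous f) (c : ℝ) {E : ℝ}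
    (hE : ∀ t, 𝔸 t < E) :
    J γ 𝔸 (fun t => f t + c) E = J γ 𝔸 f E + c * J γ 𝔸 (fun _ => 1) E := by
  have h1 := J_add (γ := γ) hA hf (continuous_const (y := c)) hE
  have h2 := J_smul (γ := γ) (𝔸 := 𝔸) (f := fun _ => 1) c E
  rw [h1, ← h2]
  simp

/-- Row S. Let `I E = J γ 𝔸 1 E > 0` and `g = J γ 𝔸 f / I` on `U = {E | 𝔸 < E}` (this is all `E` above the maximum of `𝔸`). The critical values of `g` are a null set (`sard_one`), so there is an arbitrarily small `c > 0`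
such that `-c` is not a critical value, and `∫ (f + c) ≠ 0` (one value excluded), and the signs at the `E i` persist (`J γ 𝔸 (f + c) = J γ 𝔸 f + c I`). If `J γ 𝔸 (f + c) x = 0` then
`g x = -c`, `g' x ≠ 0`, and `(d/dx) J γ 𝔸 (f + c) x = (d/dx) (I (g + c)) = g' I ≠ 0`; by `hasDerivAt_J` the left side is `γ J (γ-1) 𝔸 (f + c) x`. -/
theorem sard_step {γ : ℝ} {𝔸 f : ℝ → ℝ} (hA : Continuous 𝔸) (hf : Continuous f) {D : ℕ} {E : Fin D → ℝ} (hE : ∀ i t, 𝔸 t < E i)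
    (hs : ∀ i : Fin D, 0 < (-1 : ℝ) ^ (i : ℕ) * J γ 𝔸 f (E i)) :
    ∃ c : ℝ, (∫ t in (0:ℝ)..(2 * π), (f t + c)) ≠ 0 ∧ (∀ i : Fin D, 0 < (-1 : ℝ) ^ (i : ℕ) * J γ 𝔸 (fun t => f t + c) (E i)) ∧
      ∀ x, (∀ t, 𝔸 t < x) → J γ 𝔸 (fun t => f t + c) x = 0 → J (γ - 1) 𝔸 (fun t => f t + c) x ≠ 0 := by
  set I : ℝ → ℝ := fun x => J γ 𝔸 (fun _ => 1) x with hI
  set I1 : ℝ → ℝ := fun x => J (γ - 1) 𝔸 (fun _ => 1) x with hI1
  set g : ℝ → ℝ := fun x => -(J γ 𝔸 f x / I x) with hgdef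
  set g' : ℝ → ℝ := fun x => -((γ * J (γ - 1) 𝔸 f x * I x - J γ 𝔸 f x * (γ * I1 x)) / I x ^ 2) with hg'
  set U : Set ℝ := {x | (∀ t, 𝔸 t < x) ∧ g' x = 0} with hU
  have hpos : ∀ x, (∀ t, 𝔸 t < x) → 0 < I x := fun x hx => J_one_pos hA hx
  have hder : ∀ x ∈ U, HasDerivAt g (g' x) x := by
    intro x hx
    have h1 := hasDerivAt_J (γ := γ) hA hf hx.1
    have h2 := hasDerivAt_J (γ := γ) (f := fun _ => 1) hA continuous_const hx.1
    exact (h1.div h2 (hpos x hx.1).ne').neg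
  have hnull : volume (g '' U) = 0 := sard_one hder fun x hx => hx.2
  have hev : ∀ᶠ c : ℝ in nhds 0, ∀ i : Fin D, 0 < (-1 : ℝ) ^ (i : ℕ) * (J γ 𝔸 f (E i) + c * I (E i)) := by
    rw [Filter.eventually_all]
    intro i
    have hc : ContinuousAt (fun c : ℝ => (-1 : ℝ) ^ (i : ℕ) * (J γ 𝔸 f (E i) + c * I (E i))) 0 := by
      fun_prop
    refine hc.eventually_const_lt ?_
    simpa using hs i
  obtain ⟨δ, hδ, hball⟩ := Metric.eventually_nhds_iff.1 hev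
  have hnull2 : volume (g '' U ∪ {-((∫ t in (0:ℝ)..(2 * π), f t) / (2 * π))}) = 0 := by
    refine measure_union_null hnull ?_
    simp
  have hne : (Ioo (0 : ℝ) δ \ (g '' U ∪ {-((∫ t in (0:ℝ)..(2 * π), f t) / (2 * π))})).Nonempty := by
    refine nonempty_of_measure_ne_zero (μ := volume) ?_
    rw [measure_sdiff_null hnull2, Real.volume_Ioo]
    simp [hδ]
  obtain ⟨c, ⟨hc0, hcδ⟩, hcn⟩ := hne
  have hc1 : c ∉ g '' U := fun h => hcn (Or.inl h)
  have hc2 : c ≠ -((∫ t in (0:ℝ)..(2 * π), f t) / (2 * π)) := fun h => hcn (Or.inr h)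
  have hc3 : ∀ i : Fin D, 0 < (-1 : ℝ) ^ (i : ℕ) * (J γ 𝔸 f (E i) + c * I (E i)) := by
    refine hball ?_
    rw [Real.dist_eq, sub_zero, abs_of_pos hc0]
    exact hcδ
  refine ⟨c, ?_, ?_, ?_⟩
  · intro h
    rw [intervalIntegral.integral_add (hf.intervalIntegrable _ _) (continuous_const.intervalIntegrable _ _),
      intervalIntegral.integral_const, smul_eq_mul, sub_zero] at h
    apply hc2
    have hp : (0 : ℝ) < 2 * π := by positivity
    field_simp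
    linarith
  · intro i
    rw [Sa_J_add_const hA hf c (hE i)]
    exact hc3 i
  · intro x hx h0 h1
    rw [Sa_J_add_const hA hf c hx] at h0 h1
    have hIx := hpos x hx
    have e0 : J γ 𝔸 f x = -(c * I x) := by linarith
    have e1 : J (γ - 1) 𝔸 f x = -(c * I1 x) := by
      show J (γ - 1) 𝔸 f x = -(c * J (γ - 1) 𝔸 (fun _ => 1) x)
      linarith
    apply hc1
    refine ⟨x, ⟨hx, ?_⟩, ?_⟩
    · show -((γ * J (γ - 1) 𝔸 f x * I x - J γ 𝔸 f x * (γ * I1 x)) / I x ^ 2) = 0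
      rw [e0, e1]
      ring
    · show -(J γ 𝔸 f x / I x) = c
      rw [e0]
      field_simp

end Pool.Agent.AbelLB
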