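import Pool.Agent.Lib.MP_bb703b_an.B.Jd

set_option autoImplicit false

open Real Set MeasureTheory intervalIntegral Polynomial

/-! Row bb-Se. Zeros. -/

namespace Pool.Agent.AbelLB

private theorem Se_zero {γ : ℝ} {𝔸 f : ℝ → ℝ} (hA : Continuous 𝔸) (hf : Continuous f) {a b : ℝ}
    (hab : a < b) (ha : ∀ t, 𝔸 t < a) (n : ℕ) (h1 : 0 < (-1 : ℝ) ^ n * J γ 𝔸 f a)
    (h2 : 0 < (-1 : ℝ) ^ (n + 1) * J γ 𝔸 f b) : ∃ x ∈ Ioo a b, J γ 𝔸 f x = 0 := by
  have hc : ContinuousOn (fun x => (-1 : ℝ) ^ n * J γ 𝔸 f x) (Icc a b) := by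
    intro x hx
    have hx' : ∀ t, 𝔸 t < x := fun t => lt_of_lt_of_le (ha t) hx.1
    exact ((hasDerivAt_J hA hf hx').continuousAt.continuousWithinAt).const_mul _ |>.congr
      (fun y _ => rfl) rfl
  have h3 : (-1 : ℝ) ^ n * J γ 𝔸 f b < 0 := by
    have h4 : (-1 : ℝ) ^ (n + 1) * J γ 𝔸 f b = -((-1 : ℝ) ^ n * J γ 𝔸 f b) := by ring
    rw [h4] at h2
    linarith
  obtain ⟨x, hx, h0⟩ := intermediate_value_Ioo' hab.le hc ⟨h3, h1⟩
  refine ⟨x, hx, ?_⟩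
  rcases mul_eq_zero.1 h0 with h5 | h5
  · exact absurd h5 (pow_ne_zero n (by norm_num))
  · exact h5

/-- Zeros between the `E i` (intermediate value theorem on `[E i, E (i+1)]`; `hasDerivAt_J` gives continuity). -/
theorem zeros {γ : ℝ} {𝔸 f : ℝ → ℝ} (hA : Continuous 𝔸) (hf : Continuous f) {Z : ℕ} {E : Fin (Z + 1) → ℝ} (hmono : StrictMono E) (hE : ∀ i t, 𝔸 t < E i)
    (hs : ∀ i : Fin (Z + 1), 0 < (-1 : ℝ) ^ (i : ℕ) * J γ 𝔸 f (E i)) :
    ∃ e : Fin Z → ℝ, StrictMono e ∧ (∀ i t, 𝔸 t < e i) ∧ ∀ i, J γ 𝔸 f (e i) = 0 := by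
  have hex : ∀ i : Fin Z, ∃ x ∈ Ioo (E i.castSucc) (E i.succ), J γ 𝔸 f x = 0 := by
    intro i
    refine Se_zero hA hf (hmono i.castSucc_lt_succ) (hE i.castSucc) (i : ℕ) ?_ ?_
    · have := hs i.castSucc
      rwa [Fin.val_castSucc] at this
    · have := hs i.succ
      rwa [Fin.val_succ] at this
  choose e he h0 using hex
  refine ⟨e, ?_, ?_, h0⟩
  · intro i j hij
    have h1 : i.succ ≤ j.castSucc := by
      rw [Fin.le_def, Fin.val_succ, Fin.val_castSucc]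
      exact hij
    have h2 := hmono.monotone h1
    exact ((he i).2.trans_le h2).trans (he j).1
  · intro i t
    exact (hE i.castSucc t).trans (he i).1

end Pool.Agent.AbelLB
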