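import Pool.Agent.Lib.MP_bb703b_an.B.T4

set_option autoImplicit false

open Real Set MeasureTheory intervalIntegral Polynomial

/-! Row bb-T5. Repeated elimination. -/

namespace Pool.Agent.AbelLB

private theorem T5_tpw {k : ℕ} {w r : ℝ → ℝ} (hr : TP (k - 1) r) (hw : ∀ t, w t = cos (k * t) + r t) :
    TP k w := by
  have h1 : TP k (fun t => 1 * cos (k * t) + 0 * sin (k * t)) := TP.cos_sin k le_rfl 1 0
  have h2 : TP k r := TP.mono (Nat.sub_le k 1) hr
  have h3 := TP.add h1 h2
  have h4 : (fun t => (1 * cos (k * t) + 0 * sin (k * t)) + r t) = w := by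
    funext t
    rw [hw t]
    ring
  rw [h4] at h3
  exact h3

private theorem T5_main {k : ℕ} (hk : 1 ≤ k) {w r : ℝ → ℝ} (hr : TP (k - 1) r)
    (hw : ∀ t, w t = cos (k * t) + r t) (d m n : ℕ) (hn : k * (d + 1) ≤ n) (M : ℕ) :
    ∀ b : ℝ → ℝ, M ≤ m + k * d → TP (max n M) b →
    ∃ b₁ u : ℝ → ℝ, TP n b₁ ∧ TP m u ∧ ∀ t, b t = b₁ t - deriv (fun t => w t ^ d * u t) t := by
  have hwk : TP k w := T5_tpw hr hw
  induction M with
  | zero =>
    intro b _ hb
    refine ⟨b, fun _ => 0, ?_, TP.const m 0, ?_⟩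
    · rw [Nat.max_zero] at hb
      exact hb
    · intro t
      simp
  | succ M ih =>
    intro b hM hb
    rcases Nat.lt_or_ge n (M + 1) with h | h
    · have hkd : k * d < M + 1 := by
        have : k * (d + 1) = k * d + k := by ring
        omega
      rw [max_eq_right h.le] at hb
      obtain ⟨u₀, hu₀, hb'⟩ := elim hk hr hw d (M + 1) hkd hb
      have hu₀' : TP m u₀ := TP.mono (by omega) hu₀
      have hb'' : TP (max n M) (fun t => b t + deriv (fun t => w t ^ d * u₀ t) t) :=
        TP.mono (le_trans (by omega) (le_max_right n M)) hb'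
      obtain ⟨b₁, u₁, hb₁, hu₁, e⟩ := ih _ (by omega) hb''
      refine ⟨b₁, fun t => u₁ t + u₀ t, hb₁, TP.add hu₁ hu₀', ?_⟩
      intro t
      have hp : TP (k * d) (fun t => w t ^ d) := TP.pow hwk d
      have d1 := TP.hd (TP.mul hp hu₁) t
      have d0 := TP.hd (TP.mul hp hu₀') t
      have ds := d1.add d0
      have e1 : deriv (fun t => w t ^ d * (u₁ t + u₀ t)) t
          = deriv (fun t => w t ^ d * u₁ t) t + deriv (fun t => w t ^ d * u₀ t) t := by
        rw [← ds.deriv]
        congr 1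
        funext x
        simp only [Pi.add_apply]
        ring
      have e2 := e t
      rw [e1]
      linarith
    · have h2 : max n (M + 1) = n := max_eq_left h
      rw [h2] at hb
      refine ⟨b, fun _ => 0, hb, TP.const m 0, ?_⟩
      intro t
      simp

/-- All functions of degree `≤ max n (m + kd)` are of the form `b₁ - (w^d u)'`, `deg b₁ ≤ n`, `deg u ≤ m`: induction on the degree `M` of `b` with `elim` while `M > n`
(then `M > n ≥ k (d + 1) > k d`, `M - k d ≤ m`). -/
theorem attain {k : ℕ} (hk : 1 ≤ k) {w r : ℝ → ℝ} (hr : TP (k - 1) r) (hw : ∀ t, w t = cos (k * t) + r t) (d m n : ℕ)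
    (hn : k * (d + 1) ≤ n) {b : ℝ → ℝ} (hb : TP (max n (m + k * d)) b) :
    ∃ b₁ u : ℝ → ℝ, TP n b₁ ∧ TP m u ∧ ∀ t, b t = b₁ t - deriv (fun t => w t ^ d * u t) t :=
  T5_main hk hr hw d m n hn (m + k * d) b le_rfl hb

end Pool.Agent.AbelLB
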