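import Pool.Agent.Lib.MP_bb703b_an.B.Df

set_option autoImplicit false

open Real Set MeasureTheory intervalIntegral Polynomial

/-! Row bb-W0. Critical points of `cos (kt) + l cos (t + φ)`. -/

namespace Pool.Agent.AbelLB

/-- The numbers `cos (π j/k + π/(4k))`, `j < 2k`, are distinct (`Real.cos_eq_cos_iff`: `π i/k + φ = ± (π j/k + φ) + 2π m`, `φ = π/(4k)`; with the sign `+`: `i - j = 2km`, so `i = j`;
with `-`: `4(i+j) + 2 = 8 k m`, impossible modulo 4). -/
theorem cos_dist {k : ℕ} (hk : 1 ≤ k) (i j : Fin (2 * k)) (h : i ≠ j) :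
    cos (π * (i : ℕ) / k + π / (4 * k)) ≠ cos (π * (j : ℕ) / k + π / (4 * k)) := by
  intro hc
  have hk0 : (0:ℝ) < k := by exact_mod_cast hk
  have hpi := Real.pi_pos
  obtain ⟨m, hm | hm⟩ := Real.cos_eq_cos_iff.1 hc
  · have h2 : ((j : ℕ) : ℝ) = 2 * m * k + (i : ℕ) := by
      have h2 : π * ((j : ℕ) : ℝ) / k = 2 * m * π + π * ((i : ℕ) : ℝ) / k := by linarith
      field_simp at h2
      linarith
    have h3 : ((j : ℕ) : ℤ) = 2 * m * k + ((i : ℕ) : ℤ) := by exact_mod_cast h2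
    have hi := i.2
    have hj := j.2
    have hm0 : m = 0 := by
      by_contra hne
      have : m ≤ -1 ∨ 1 ≤ m := by omega
      rcases this with h4 | h4
      · have : 2 * m * k ≤ 2 * (-1) * (k : ℤ) := by
          have hk' : (0:ℤ) ≤ k := by positivity
          nlinarith
        omega
      · have : 2 * 1 * (k : ℤ) ≤ 2 * m * k := by
          have hk' : (0:ℤ) ≤ k := by positivity
          nlinarith
        omega
    rw [hm0] at h3
    apply h
    apply Fin.ext
    simp at h3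
    omega
  · have h2 : (4 * (j : ℕ) + 1 : ℝ) = (8 * m * k - 4 * (i : ℕ) - 1) := by
      field_simp at hm
      linarith
    have h3 : (4 * ((j : ℕ) : ℤ) + 1) = (8 * (m * k) - 4 * ((i : ℕ) : ℤ) - 1) := by
      have h4 : (4 * (j : ℕ) + 1 : ℝ) = (8 * (m * k) - 4 * (i : ℕ) - 1) := by linarith
      exact_mod_cast h4
    generalize m * (k : ℤ) = q at h3
    omega

private theorem W0_deriv (k : ℕ) (l φ t : ℝ) :
    deriv (fun t => cos (k * t) + l * cos (t + φ)) t = -(k * sin (k * t)) - l * sin (t + φ) := by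
  have h1 : HasDerivAt (fun t : ℝ => cos (k * t)) (-sin (k * t) * (k * 1)) t :=
    (Real.hasDerivAt_cos (k * t)).comp t ((hasDerivAt_id t).const_mul (k : ℝ))
  have h2 : HasDerivAt (fun t : ℝ => cos (t + φ)) (-sin (t + φ) * 1) t :=
    HasDerivAt.comp t (h := fun t : ℝ => t + φ) (Real.hasDerivAt_cos (t + φ)) ((hasDerivAt_id' t).add_const φ)
  have h3 := h1.add (h2.const_mul l)
  have h4 := h3.deriv
  have h5 : deriv (fun t => cos (k * t) + l * cos (t + φ)) t = -sin (k * t) * (k * 1) + l * (-sin (t + φ) * 1) := h4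
  rw [h5]
  ring

private theorem W0_one {k : ℕ} (hk : 1 ≤ k) {l φ : ℝ} (hl : 0 < l) (hl2 : l ≤ 1 / 2) (j : ℕ) :
    ∃ z : ℝ, deriv (fun t => cos (k * t) + l * cos (t + φ)) z = 0 ∧
      |z - π * j / k| < π / (2 * k) ∧
      |cos (k * z) + l * cos (z + φ) - ((-1) ^ j + l * cos (π * j / k + φ))| ≤ 4 * l ^ 2 := by
  have hk0 : (0:ℝ) < k := by exact_mod_cast hk
  have hk1 : (1:ℝ) ≤ k := by exact_mod_cast hk
  have hpi := Real.pi_pos
  have hsq : ((-1:ℝ) ^ j) * ((-1) ^ j) = 1 := by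
    rw [← mul_pow]; simp
  have habs : |((-1:ℝ) ^ j)| = 1 := by
    rw [abs_pow]; simp
  set a : ℝ := π * j / k - π / (2 * k) with ha
  set b : ℝ := π * j / k + π / (2 * k) with hb
  have hab : a ≤ b := by
    have : 0 < π / (2 * k) := by positivity
    linarith
  have hka : (k:ℝ) * a = -(π / 2) + j * π := by
    rw [ha]; field_simp; ring
  have hkb : (k:ℝ) * b = π / 2 + j * π := by
    rw [hb]; field_simp; ring
  set h : ℝ → ℝ := fun t => (-1) ^ j * (-(k * sin (k * t)) - l * sin (t + φ)) with hh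
  have hcont : Continuous h := by
    rw [hh]; fun_prop
  have hsb : ∀ x : ℝ, |(-1:ℝ) ^ j * (l * sin x)| ≤ 1 / 2 := by
    intro x
    rw [abs_mul, habs, one_mul, abs_mul, abs_of_pos hl]
    calc l * |sin x| ≤ l * 1 := mul_le_mul_of_nonneg_left (Real.abs_sin_le_one x) hl.le
      _ ≤ 1 / 2 := by linarith
  have hfa : 0 < h a := by
    have e : h a = k - (-1) ^ j * (l * sin (a + φ)) := by
      rw [hh]
      simp only
      rw [hka, Real.sin_add_nat_mul_pi, Real.sin_neg, Real.sin_pi_div_two]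
      linear_combination (k:ℝ) * hsq
    rw [e]
    have := (abs_le.1 (hsb (a + φ))).2
    linarith
  have hfb : h b < 0 := by
    have e : h b = -k - (-1) ^ j * (l * sin (b + φ)) := by
      rw [hh]
      simp only
      rw [hkb, Real.sin_add_nat_mul_pi, Real.sin_pi_div_two]
      linear_combination -(k:ℝ) * hsq
    rw [e]
    have := (abs_le.1 (hsb (b + φ))).1
    linarith
  obtain ⟨z, hz, hz0⟩ := intermediate_value_Ioo' hab hcont.continuousOn (show (0:ℝ) ∈ Ioo (h b) (h a) from ⟨hfb, hfa⟩)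
  have hz1 : -(k * sin (k * z)) - l * sin (z + φ) = 0 := by
    have h1 : (-1:ℝ) ^ j * (-(k * sin (k * z)) - l * sin (z + φ)) = 0 := hz0
    rcases mul_eq_zero.1 h1 with h2 | h2
    · exact absurd h2 (pow_ne_zero _ (by norm_num))
    · exact h2
  set e : ℝ := z - π * j / k with he
  have hze : z = π * j / k + e := by rw [he]; ring
  have hkz : (k:ℝ) * z = k * e + j * π := by
    rw [hze]; field_simp
    ring
  have he1 : |e| < π / (2 * k) := by
    rw [abs_lt]
    constructor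
    · have := hz.1; rw [ha] at this; linarith
    · have := hz.2; rw [hb] at this; linarith
  have hke : |(k:ℝ) * e| ≤ π / 2 := by
    rw [abs_mul, abs_of_pos hk0]
    calc (k:ℝ) * |e| ≤ k * (π / (2 * k)) := mul_le_mul_of_nonneg_left he1.le hk0.le
      _ = π / 2 := by field_simp
  have hs : |sin (k * e)| ≤ l := by
    have h1 : sin (k * z) = (-1) ^ j * sin (k * e) := by
      rw [hkz, Real.sin_add_nat_mul_pi]
    have h2 : (k:ℝ) * |sin (k * e)| = l * |sin (z + φ)| := by
      have h3 : |(k:ℝ) * sin (k * z)| = |l * sin (z + φ)| := by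
        have : (k:ℝ) * sin (k * z) = -(l * sin (z + φ)) := by linarith
        rw [this, abs_neg]
      rw [abs_mul, abs_mul, abs_of_pos hk0, abs_of_pos hl, h1, abs_mul, habs, one_mul] at h3
      exact h3
    have h4 : l * |sin (z + φ)| ≤ l * 1 := mul_le_mul_of_nonneg_left (Real.abs_sin_le_one _) hl.le
    have h5 : |sin (k * e)| ≤ k * |sin (k * e)| := le_mul_of_one_le_left (abs_nonneg _) hk1
    linarith
  have hke2 : |(k:ℝ) * e| ≤ 2 * l := by
    have h1 := Real.mul_abs_le_abs_sin hke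
    have h2 : 2 / π * |(k:ℝ) * e| ≤ l := h1.trans hs
    rw [div_mul_eq_mul_div, div_le_iff₀ hpi] at h2
    have h3 : l * π ≤ l * 4 := mul_le_mul_of_nonneg_left (by linarith [Real.pi_le_four]) hl.le
    linarith
  have he2 : |e| ≤ 2 * l := by
    rw [abs_mul, abs_of_pos hk0] at hke2
    have : |e| ≤ k * |e| := le_mul_of_one_le_left (abs_nonneg _) hk1
    linarith
  refine ⟨z, ?_, he1, ?_⟩
  · rw [W0_deriv]; exact hz1
  · have h1 : cos (k * z) = (-1) ^ j * cos (k * e) := by
      rw [hkz, Real.cos_add_nat_mul_pi]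
    have h2 : cos (k * z) + l * cos (z + φ) - ((-1) ^ j + l * cos (π * j / k + φ)) =
        (-1) ^ j * (cos (k * e) - 1) + l * (cos (z + φ) - cos (π * j / k + φ)) := by
      rw [h1]; ring
    rw [h2]
    have h3 : |(-1:ℝ) ^ j * (cos (k * e) - 1)| ≤ (k * e) ^ 2 / 2 := by
      rw [abs_mul, habs, one_mul, abs_le]
      constructor
      · linarith [Real.one_sub_sq_div_two_le_cos (x := k * e)]
      · have := Real.cos_le_one (k * e)
        have : 0 ≤ (k * e) ^ 2 / 2 := by positivity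
        linarith
    have h4 : (k * e) ^ 2 ≤ (2 * l) ^ 2 := by
      rw [← sq_abs (k * e)]
      exact pow_le_pow_left₀ (abs_nonneg _) hke2 2
    have h5 : |l * (cos (z + φ) - cos (π * j / k + φ))| ≤ l * (2 * l) := by
      rw [abs_mul, abs_of_pos hl]
      apply mul_le_mul_of_nonneg_left _ hl.le
      have h6 := Real.abs_cos_sub_cos_le (z + φ) (π * j / k + φ)
      have h7 : z + φ - (π * j / k + φ) = e := by rw [he]; ring
      rw [h7] at h6
      linarith
    calc _ ≤ |(-1:ℝ) ^ j * (cos (k * e) - 1)| + |l * (cos (z + φ) - cos (π * j / k + φ))| := abs_add_le _ _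
      _ ≤ 4 * l ^ 2 := by nlinarith

/-- Critical points of `cos (kt) + l cos (t + φ)`, `0 < l ≤ 1/2`: one in each interval `(π j/k - π/(2k), π j/k + π/(2k))` (the derivative `-k sin(kt) - l sin(t+φ)` has at the ends
`s_j = π j/k + π/(2k)`, where `sin (k s_j) = (-1)^j`, the sign of `-(-1)^j`: intermediate value theorem). With `e = z j - π j/k`: `|sin (k e)| = (l/k)|sin(..)| ≤ l/k`, so
`|k e| ≤ (π/2)(l/k) ≤ 2 l` (`Real.mul_abs_le_abs_sin` or `Real.mul_le_sin`), `|e| ≤ 2 l`, `|cos (k e) - 1| ≤ (ke)²/2 ≤ 2 l²`,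
`w (z j) = (-1)^j cos (k e) + l cos (π j/k + φ + e)`. -/
theorem crit_points {k : ℕ} (hk : 1 ≤ k) {l φ : ℝ} (hl : 0 < l) (hl2 : l ≤ 1 / 2) :
    ∃ z : Fin (2 * k) → ℝ, (∀ j, deriv (fun t => cos (k * t) + l * cos (t + φ)) (z j) = 0) ∧
      (∀ j, |z j - π * (j : ℕ) / k| < π / (2 * k)) ∧
      ∀ j, |cos (k * z j) + l * cos (z j + φ) - ((-1) ^ (j : ℕ) + l * cos (π * (j : ℕ) / k + φ))| ≤ 4 * l ^ 2 := by
  choose z h1 h2 h3 using fun j : Fin (2 * k) => W0_one hk (φ := φ) hl hl2 (j : ℕ)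
  exact ⟨z, h1, h2, h3⟩

end Pool.Agent.AbelLB
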