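import Pool.Agent.Lib.MP_bb703b_an.B.T3
import Pool.Agent.Lib.MP_bb703b_an.B.W0

set_option autoImplicit false

open Real Set MeasureTheory intervalIntegral Polynomial

/-! Row bb-W1. The function `w`. -/

namespace Pool.Agent.AbelLB

private theorem W1_one : ∃ (w r : ℝ → ℝ) (z : Fin (2 * 1) → ℝ), TP 1 w ∧ TP (1 - 1) r ∧
    (∀ t, w t = cos ((1 : ℕ) * t) + r t) ∧ (∃ t, deriv w t ≠ 0) ∧ Good 1 w z := by
  have hw : TP 1 (fun t => cos t) := by
    have h := TP.cos_sin (m := 1) 1 le_rfl 1 0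
    have he : (fun t : ℝ => 1 * cos ((1 : ℕ) * t) + 0 * sin ((1 : ℕ) * t)) = fun t => cos t := by
      funext t
      simp
    rwa [he] at h
  have hd : ∀ t : ℝ, deriv (fun t => cos t) t = - sin t := by
    intro t
    exact (Real.hasDerivAt_cos t).deriv
  refine ⟨fun t => cos t, fun _ => 0, fun i => π * (i : ℕ), hw, TP.const _ 0, ?_, ?_, ?_⟩
  · intro t
    simp
  · refine ⟨π / 2, ?_⟩
    rw [hd, Real.sin_pi_div_two]
    norm_num
  · refine ⟨?_, ?_, ?_, ?_⟩
    · intro i
      rw [hd, mul_comm, Real.sin_nat_mul_pi, neg_zero]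
    · intro i j hij m h
      have h1 : ((i : ℕ) : ℝ) = ((j : ℕ) : ℝ) + 2 * (m : ℝ) := by
        have h2 : π * ((i : ℕ) : ℝ) = π * (((j : ℕ) : ℝ) + 2 * (m : ℝ)) := by
          rw [h]; ring
        exact mul_left_cancel₀ Real.pi_ne_zero h2
      have h3 : ((i : ℕ) : ℤ) = ((j : ℕ) : ℤ) + 2 * m := by exact_mod_cast h1
      have h4 := i.2
      have h5 := j.2
      apply hij
      apply Fin.ext
      omega
    · intro t ht
      rw [hd, neg_eq_zero, Real.sin_eq_zero_iff] at ht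
      obtain ⟨n, hn⟩ := ht
      rcases Int.even_or_odd' n with ⟨m, hm | hm⟩
      · refine ⟨⟨0, by norm_num⟩, m, ?_⟩
        rw [← hn, hm]
        push_cast
        ring
      · refine ⟨⟨1, by norm_num⟩, m, ?_⟩
        rw [← hn, hm]
        push_cast
        ring
    · intro i j hij h
      have h4 := i.2
      have h5 := j.2
      have h6 : (i : ℕ) ≠ (j : ℕ) := fun h => hij (Fin.ext h)
      change cos (π * ((i : ℕ) : ℝ)) = cos (π * ((j : ℕ) : ℝ)) at h
      have h7 : ((i : ℕ) = 0 ∧ (j : ℕ) = 1) ∨ ((i : ℕ) = 1 ∧ (j : ℕ) = 0) := by omega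
      rcases h7 with ⟨a, b⟩ | ⟨a, b⟩
      · rw [a, b] at h
        norm_num at h
      · rw [a, b] at h
        norm_num at h

private theorem W1_delta {k : ℕ} (hk : 1 ≤ k) : ∃ δ : ℝ, 0 < δ ∧ ∀ i j : Fin (2 * k), i ≠ j →
    δ ≤ |cos (π * (i : ℕ) / k + π / (4 * k)) - cos (π * (j : ℕ) / k + π / (4 * k))| := by
  classical
  set s : Finset (Fin (2 * k) × Fin (2 * k)) := Finset.univ.offDiag with hs
  have hne : s.Nonempty := by
    refine ⟨(⟨0, by omega⟩, ⟨1, by omega⟩), ?_⟩
    rw [hs, Finset.mem_offDiag]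
    refine ⟨Finset.mem_univ _, Finset.mem_univ _, ?_⟩
    intro h
    have := congrArg Fin.val h
    simp at this
  obtain ⟨p, hp, hmin⟩ := Finset.exists_min_image s (fun q : Fin (2 * k) × Fin (2 * k) =>
    |cos (π * (q.1 : ℕ) / k + π / (4 * k)) - cos (π * (q.2 : ℕ) / k + π / (4 * k))|) hne
  refine ⟨_, ?_, fun i j hij => hmin (i, j) ?_⟩
  · rw [hs, Finset.mem_offDiag] at hp
    exact abs_pos.2 (sub_ne_zero.2 (cos_dist hk _ _ hp.2.2))
  · rw [hs, Finset.mem_offDiag]
    exact ⟨Finset.mem_univ _, Finset.mem_univ _, hij⟩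

private theorem W1_dist {k : ℕ} (hk : 1 ≤ k) {z : Fin (2 * k) → ℝ}
    (hz : ∀ j, |z j - π * (j : ℕ) / k| < π / (2 * k)) (i j : Fin (2 * k)) (hij : i ≠ j) (m : ℤ) :
    z i ≠ z j + 2 * π * m := by
  intro h
  have hk0 : (0 : ℝ) < k := by exact_mod_cast hk
  have hpi := Real.pi_pos
  have h1 := abs_lt.1 (hz i)
  have h2 := abs_lt.1 (hz j)
  have h3 : |π * (i : ℕ) / k - π * (j : ℕ) / k - 2 * π * m| < π / k := by
    have h4 : π / k = π / (2 * k) + π / (2 * k) := by field_simp; norm_num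
    rw [abs_lt, h4]
    constructor <;> linarith [h1.1, h1.2, h2.1, h2.2]
  have h5 : π * (i : ℕ) / k - π * (j : ℕ) / k - 2 * π * m =
      (π / k) * (((i : ℕ) : ℝ) - ((j : ℕ) : ℝ) - 2 * k * m) := by
    field_simp
  rw [h5, abs_mul, abs_of_pos (by positivity : 0 < π / k)] at h3
  have h6 : |((i : ℕ) : ℝ) - ((j : ℕ) : ℝ) - 2 * k * m| < 1 := by
    by_contra h7
    push Not at h7
    have h8 : π / k * 1 ≤ π / k * |((i : ℕ) : ℝ) - ((j : ℕ) : ℝ) - 2 * k * m| :=
      mul_le_mul_of_nonneg_left h7 (by positivity)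
    linarith
  have h7 : |((i : ℕ) : ℤ) - ((j : ℕ) : ℤ) - 2 * k * m| < 1 := by
    exact_mod_cast h6
  have h8 : ((i : ℕ) : ℤ) - ((j : ℕ) : ℤ) - 2 * k * m = 0 := by
    rwa [Int.abs_lt_one_iff] at h7
  have hi := i.2
  have hj := j.2
  have h9 : |((i : ℕ) : ℤ) - ((j : ℕ) : ℤ)| < 2 * k := by
    rw [abs_lt]
    constructor <;> omega
  have h10 : m = 0 := by
    by_contra hm
    have h11 : 1 ≤ |m| := Int.one_le_abs hm
    have h12 : ((i : ℕ) : ℤ) - ((j : ℕ) : ℤ) = 2 * k * m := by linarith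
    rw [h12, abs_mul, abs_of_nonneg (by positivity : (0 : ℤ) ≤ 2 * k)] at h9
    nlinarith
  rw [h10] at h8
  apply hij
  apply Fin.ext
  have h13 : ((i : ℕ) : ℤ) = ((j : ℕ) : ℤ) := by linarith
  exact_mod_cast h13

/-- Row W1, main. For `k = 1` take `w = cos t`, `r = 0`, `z = ![0, π]`. For `k ≥ 2`: `w = cos (kt) + l cos (t + φ)`, `φ = π/(4k)`, `r = l cos (t + φ)` (degree `1 ≤ k - 1`), `l` small:
`8 l² < l |cos(π i/k + φ) - cos(π j/k + φ)|` for all `i ≠ j` (finitely many positive numbers, `cos_dist`) and `8 l² + 2 l < 2`. Distinct critical values: if `i`, `j` have the same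
parity, by the first inequality; otherwise by the second one. Distinct points: `|z j - π j/k| < π/(2k)`. All critical points: `TP_zeros` for `deriv w`. -/
theorem exists_w {k : ℕ} (hk : 1 ≤ k) : ∃ (w r : ℝ → ℝ) (z : Fin (2 * k) → ℝ), TP k w ∧ TP (k - 1) r ∧
    (∀ t, w t = cos (k * t) + r t) ∧ (∃ t, deriv w t ≠ 0) ∧ Good k w z := by
  rcases Nat.eq_or_lt_of_le hk with h1 | h1
  · subst h1
    exact W1_one
  · obtain ⟨δ, hδ, hδc⟩ := W1_delta hk
    obtain ⟨l, hl⟩ : ∃ l : ℝ, l = min (1 / 4) (δ / 16) := ⟨_, rfl⟩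
    have hl0 : 0 < l := by rw [hl]; exact lt_min (by norm_num) (by positivity)
    have hl4 : l ≤ 1 / 4 := by rw [hl]; exact min_le_left _ _
    have hlδ : l ≤ δ / 16 := by rw [hl]; exact min_le_right _ _
    obtain ⟨φ, hφ⟩ : ∃ φ : ℝ, φ = π / (4 * k) := ⟨_, rfl⟩
    obtain ⟨z, hz0, hz1, hz2⟩ := crit_points hk (φ := φ) hl0 (by linarith : l ≤ 1 / 2)
    rw [← hφ] at hδc
    have hr : TP (k - 1) (fun t => l * cos (t + φ)) := by
      have h := TP.cos_sin (m := k - 1) 1 (by omega) (l * cos φ) (-(l * sin φ))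
      have he : (fun t : ℝ => l * cos φ * cos ((1 : ℕ) * t) + -(l * sin φ) * sin ((1 : ℕ) * t)) =
          fun t => l * cos (t + φ) := by
        funext t
        rw [Real.cos_add]
        push_cast
        rw [one_mul]
        ring
      rwa [he] at h
    have hw : TP k (fun t => cos (k * t) + l * cos (t + φ)) := by
      have h := TP.cos_sin (m := k) k le_rfl 1 0
      have he : (fun t : ℝ => 1 * cos (k * t) + 0 * sin (k * t)) = fun t => cos (k * t) := by
        funext t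
        ring
      rw [he] at h
      exact h.add (hr.mono (by omega))
    have hdist := W1_dist hk hz1
    -- the critical values
    have hval : ∀ i j : Fin (2 * k), i ≠ j → cos (k * z i) + l * cos (z i + φ) ≠
        cos (k * z j) + l * cos (z j + φ) := by
      intro i j hij h
      have a1 := abs_le.1 (hz2 i)
      have a2 := abs_le.1 (hz2 j)
      have a3 := hδc i j hij
      obtain ⟨ci, hci⟩ : ∃ c : ℝ, c = cos (π * (i : ℕ) / k + φ) := ⟨_, rfl⟩
      obtain ⟨cj, hcj⟩ : ∃ c : ℝ, c = cos (π * (j : ℕ) / k + φ) := ⟨_, rfl⟩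
      rw [← hci] at a1 a3
      rw [← hcj] at a2 a3
      have b1 : ci ≤ 1 := by rw [hci]; exact Real.cos_le_one _
      have b2 : -1 ≤ ci := by rw [hci]; exact Real.neg_one_le_cos _
      have b3 : cj ≤ 1 := by rw [hcj]; exact Real.cos_le_one _
      have b4 : -1 ≤ cj := by rw [hcj]; exact Real.neg_one_le_cos _
      have hl2 : 8 * l ^ 2 ≤ l * δ / 2 := by nlinarith
      have hl3 : 8 * l ^ 2 ≤ 1 / 2 := by nlinarith
      have hd8 : |((-1 : ℝ) ^ (i : ℕ) + l * ci) - ((-1) ^ (j : ℕ) + l * cj)| ≤ 8 * l ^ 2 := by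
        rw [abs_le]
        constructor <;> linarith [a1.1, a1.2, a2.1, a2.2]
      rcases neg_one_pow_eq_or ℝ (i : ℕ) with e1 | e1 <;>
        rcases neg_one_pow_eq_or ℝ (j : ℕ) with e2 | e2
      · rw [e1, e2] at hd8
        have h5 : (1 : ℝ) + l * ci - (1 + l * cj) = l * (ci - cj) := by ring
        rw [h5, abs_mul, abs_of_pos hl0] at hd8
        have h6 : l * δ ≤ l * |ci - cj| := mul_le_mul_of_nonneg_left a3 hl0.le
        have h7 : 0 < l * δ := by positivity
        linarith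
      · rw [e1, e2] at hd8
        have h5 := (abs_le.1 hd8).2
        have h6 : l * cj ≤ l * 1 := mul_le_mul_of_nonneg_left b3 hl0.le
        have h7 : l * (-1) ≤ l * ci := mul_le_mul_of_nonneg_left b2 hl0.le
        linarith
      · rw [e1, e2] at hd8
        have h5 := (abs_le.1 hd8).1
        have h6 : l * (-1) ≤ l * cj := mul_le_mul_of_nonneg_left b4 hl0.le
        have h7 : l * ci ≤ l * 1 := mul_le_mul_of_nonneg_left b1 hl0.le
        linarith
      · rw [e1, e2] at hd8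
        have h5 : (-1 : ℝ) + l * ci - (-1 + l * cj) = l * (ci - cj) := by ring
        rw [h5, abs_mul, abs_of_pos hl0] at hd8
        have h6 : l * δ ≤ l * |ci - cj| := mul_le_mul_of_nonneg_left a3 hl0.le
        have h7 : 0 < l * δ := by positivity
        linarith
    have hne : ∃ t, deriv (fun t => cos (k * t) + l * cos (t + φ)) t ≠ 0 := by
      by_contra hcon
      push Not at hcon
      have hdiff : Differentiable ℝ (fun t : ℝ => cos (k * t) + l * cos (t + φ)) := by
        fun_prop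
      have h5 := is_const_of_deriv_eq_zero hdiff hcon (z ⟨0, by omega⟩) (z ⟨1, by omega⟩)
      refine hval ⟨0, by omega⟩ ⟨1, by omega⟩ ?_ h5
      intro h
      have := congrArg Fin.val h
      simp at this
    refine ⟨fun t => cos (k * t) + l * cos (t + φ), fun t => l * cos (t + φ), z, hw, hr,
      fun _ => rfl, hne, ?_⟩
    exact ⟨hz0, hdist, fun t ht => TP_zeros hw.deriv' hne hz0 hdist ht, hval⟩

end Pool.Agent.AbelLB
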