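import Pool.Agent.Lib.MP_bb703b_an.B.Ev
import Pool.Agent.Lib.MP_bb703b_an.B.Sa
import Pool.Agent.Lib.MP_bb703b_an.B.Se
import Pool.Agent.Lib.MP_bb703b_an.B.Dl
import Pool.Agent.Lib.MP_bb703b_an.B.R3
import Pool.Agent.Lib.MP_bb703b_an.B.T5
import Pool.Agent.Lib.MP_bb703b_an.B.W1

set_option autoImplicit false

open Real Set MeasureTheory intervalIntegral Polynomial Pool.Agent.AbelLT

/-! Row bb-F. The theorem. -/

namespace Pool.Agent.AbelLB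

/-- Assembly. `exists_w`; `N = max n (m + k d)`, `d = n/k - 1` (`k (d+1) ≤ n`, `k (n/k) - k = k d`); `signs` for `N`; `attain`; `delta_step`; `sard_step`; `zeros` (`Z = 2N - N/k`, the
number of the `E i` is `Z + 1` because `N/k ≤ N`). -/
theorem core {P Q m n k : ℕ} (hP : 2 ≤ P) (hQ : 2 ≤ Q) (hPQ : P ≠ Q) (hk : 1 ≤ k) (hkm : k ≤ m) (hkn : k ≤ n) {N : ℕ}
    (hN : N = max n (m - k + k * (n / k))) :
    ∃ (𝔸 f : ℝ → ℝ) (e : Fin (2 * N - N / k) → ℝ), TP m 𝔸 ∧ TP n f ∧ Dat 𝔸 (deriv 𝔸) f ∧ (∫ t in (0:ℝ)..(2 * π), f t) ≠ 0 ∧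
      StrictMono e ∧ (∀ i t, 𝔸 t < e i) ∧ (∀ i, J (ga P Q) 𝔸 f (e i) = 0) ∧ ∀ i, J (ga P Q - 1) 𝔸 f (e i) ≠ 0 := by
  obtain ⟨w, r, z, hw, hr, hwr, hw0, hz⟩ := exists_w hk
  have hγ : ∀ j : ℕ, ga P Q ≠ j := ga_ne hP hQ hPQ
  have hnk : 1 ≤ n / k := (Nat.one_le_div_iff (by omega)).2 hkn
  obtain ⟨d, hd⟩ : ∃ d, n / k = d + 1 := ⟨n / k - 1, by omega⟩
  have hn : k * (d + 1) ≤ n := by
    rw [← hd]
    exact Nat.mul_div_le n k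
  have hN' : N = max n (m + k * d) := by
    rw [hN, hd, Nat.mul_succ]
    congr 1
    omega
  obtain ⟨E, b, hE, hb, hwE, hs⟩ := signs hk hw hw0 hz N hγ
  rw [hN'] at hb
  obtain ⟨b₁, u, hb1, hu, hbu⟩ := attain hk hr hwr d m n hn hb
  have hbe : b = fun t => b₁ t - deriv (fun t => w t ^ d * u t) t := funext hbu
  rw [hbe] at hs
  obtain ⟨𝔸, f, hA, hf, hAE, hs2⟩ := delta_step hkm hn hw hu hb1 hwE hs
  obtain ⟨c, hc0, hs3, hsimple⟩ := sard_step hA.cont hf.cont hAE hs2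
  have hdiv : N / k ≤ N := Nat.div_le_self N k
  have hZ : 2 * N + 1 - N / k = (2 * N - N / k) + 1 := by omega
  have hfc : TP n (fun t => f t + c) := hf.add (TP.const n c)
  obtain ⟨e, he, heA, he0⟩ := zeros (E := fun i : Fin ((2 * N - N / k) + 1) => E (Fin.cast hZ.symm i)) hA.cont hfc.cont
    (fun i j hij => hE (by simpa using hij)) (fun i t => hAE _ t) (fun i => by
      have := hs3 (Fin.cast hZ.symm i)
      simpa using this)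
  exact ⟨𝔸, fun t => f t + c, e, hA, hfc, ⟨hA.hd, hA.deriv'.cont, hfc.cont, hA.per, hA.deriv'.per, hfc.per⟩, hc0, he, heA, he0,
    fun i => hsimple _ (heA i) (he0 i)⟩

theorem lower {P Q m n k : ℕ} (hP : 2 ≤ P) (hQ : 2 ≤ Q) (hPQ : P ≠ Q) (hodd : Odd P) (hk : 1 ≤ k) (hkm : k ≤ m) (hkn : k ≤ n) {N : ℕ}
    (hN : N = max n (m - k + k * (n / k))) :
    ∃ F f : ℝ → ℝ, TP m F ∧ TP n f ∧ ((4 * N - 2 * (N / k) + 1 : ℕ) : ℕ∞) ≤ (limCyc P Q F f).encard := by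
  obtain ⟨𝔸, f, e, hA, hf, D, hc0, he, heA, he0, he1⟩ := core hP hQ hPQ hk hkm hkn hN
  obtain ⟨ε, -, hcount⟩ := count hP hQ hPQ hodd D hc0 he heA he0 he1
  refine ⟨deriv 𝔸, fun t => ε * f t, hA.deriv', hf.smul ε, ?_⟩
  have hdiv : N / k ≤ N := Nat.div_le_self N k
  have h4 : 4 * N - 2 * (N / k) + 1 = 2 * (2 * N - N / k) + 1 := by omega
  rw [h4]
  exact hcount

theorem lower_one {P Q m n k : ℕ} (hP : 2 ≤ P) (hQ : 2 ≤ Q) (hPQ : P ≠ Q) (hk : 1 ≤ k) (hkm : k ≤ m) (hkn : k ≤ n) {N : ℕ}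
    (hN : N = max n (m - k + k * (n / k))) :
    ∃ F f : ℝ → ℝ, TP m F ∧ TP n f ∧ ((2 * N - N / k + 1 : ℕ) : ℕ∞) ≤ (limCyc P Q F f).encard := by
  obtain ⟨𝔸, f, e, hA, hf, D, hc0, he, heA, he0, he1⟩ := core hP hQ hPQ hk hkm hkn hN
  obtain ⟨ε, -, hcount⟩ := count_one hP hQ hPQ D hc0 he heA he0 he1
  exact ⟨deriv 𝔸, fun t => ε * f t, hA.deriv', hf.smul ε, hcount⟩

end Pool.Agent.AbelLB
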