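import Pool.Agent.Lib.MP_bb703b_an.B.Df

set_option autoImplicit false

open Real Set MeasureTheory intervalIntegral Polynomial

/-! Row bb-J. The function `J`. -/

namespace Pool.Agent.AbelLB

/-- on a period `𝔸` stays below `E` with a gap, also near `E`. -/
theorem gap {𝔸 : ℝ → ℝ} (hA : Continuous 𝔸) {E : ℝ} (hE : ∀ t, 𝔸 t < E) :
    ∃ g > 0, ∀ t ∈ Icc 0 (2 * π), 𝔸 t + g ≤ E := by
  have hne : (Icc (0:ℝ) (2 * π)).Nonempty := ⟨0, ⟨le_refl _, by positivity⟩⟩
  obtain ⟨t0, ht0, hmax⟩ := isCompact_Icc.exists_isMaxOn hne hA.continuousOn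
  refine ⟨E - 𝔸 t0, sub_pos.2 (hE t0), fun t ht => ?_⟩
  have h1 : 𝔸 t ≤ 𝔸 t0 := hmax ht
  linarith

private theorem Jd_cont {γ : ℝ} {𝔸 : ℝ → ℝ} (hA : Continuous 𝔸) {E : ℝ} (hE : ∀ t, 𝔸 t < E) :
    Continuous (fun t => (E - 𝔸 t) ^ γ) :=
  (continuous_const.sub hA).rpow_const (fun t => Or.inl (ne_of_gt (sub_pos.2 (hE t))))

private theorem Jd_bound {c lo hi y : ℝ} (hlo : 0 < lo) (h1 : lo ≤ y) (h2 : y ≤ hi) :
    y ^ c ≤ lo ^ c + hi ^ c := by
  have hy : 0 < y := lt_of_lt_of_le hlo h1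
  have hhi : 0 < hi := lt_of_lt_of_le hy h2
  rcases le_total 0 c with hc | hc
  · have := Real.rpow_le_rpow hy.le h2 hc
    have h3 := (Real.rpow_pos_of_pos hlo c).le
    linarith
  · have := Real.rpow_le_rpow_of_nonpos hlo h1 hc
    have h3 := (Real.rpow_pos_of_pos hhi c).le
    linarith

/-- Differentiation under the integral (`intervalIntegral.hasDerivAt_integral_of_dominated_loc_of_deriv_le`). -/
theorem hasDerivAt_J {γ : ℝ} {𝔸 f : ℝ → ℝ} (hA : Continuous 𝔸) (hf : Continuous f) {E : ℝ} (hE : ∀ t, 𝔸 t < E) :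
    HasDerivAt (J γ 𝔸 f) (γ * J (γ - 1) 𝔸 f E) E := by
  obtain ⟨g, hg, hgap⟩ := gap hA hE
  obtain ⟨M0, hM0⟩ := isCompact_Icc.exists_bound_of_continuousOn (hA.continuousOn (s := Icc 0 (2 * π)))
  have hpi : (0:ℝ) ≤ 2 * π := by positivity
  have hIoc : ∀ t ∈ uIoc (0:ℝ) (2 * π), t ∈ Icc 0 (2 * π) := by
    intro t ht
    rw [uIoc_of_le hpi] at ht
    exact ⟨ht.1.le, ht.2⟩
  set lo : ℝ := g / 2 with hlo
  set hi : ℝ := E + g / 2 + M0 with hhi
  have hlo0 : 0 < lo := by positivity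
  have hrange : ∀ t ∈ Icc 0 (2 * π), ∀ x ∈ Metric.ball E (g / 2), lo ≤ x - 𝔸 t ∧ x - 𝔸 t ≤ hi := by
    intro t ht x hx
    rw [Metric.mem_ball, Real.dist_eq] at hx
    have h1 := abs_lt.1 hx
    have h2 := hgap t ht
    have h3 := hM0 t ht
    rw [Real.norm_eq_abs] at h3
    have h4 := (abs_le.1 h3)
    constructor
    · rw [hlo]; linarith [h1.1]
    · rw [hhi]; linarith [h1.2, h4.1]
  have key := hasDerivAt_integral_of_dominated_loc_of_deriv_le (μ := volume) (a := (0:ℝ)) (b := 2 * π)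
    (F := fun x t => f t * (x - 𝔸 t) ^ γ) (F' := fun x t => f t * (γ * (x - 𝔸 t) ^ (γ - 1)))
    (x₀ := E) (s := Metric.ball E (g / 2))
    (bound := fun t => |f t| * (|γ| * (lo ^ (γ - 1) + hi ^ (γ - 1))))
    (Metric.ball_mem_nhds E (by positivity))
    (Filter.Eventually.of_forall fun x =>
      (hf.measurable.mul ((measurable_const.sub hA.measurable).pow_const γ)).aestronglyMeasurable)
    ((hf.mul (Jd_cont hA hE)).intervalIntegrable _ _)
    (hf.measurable.mul (measurable_const.mul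
      ((measurable_const.sub hA.measurable).pow_const (γ - 1)))).aestronglyMeasurable
    (Filter.Eventually.of_forall fun t ht x hx => by
      obtain ⟨h1, h2⟩ := hrange t (hIoc t ht) x hx
      have h3 : 0 < x - 𝔸 t := lt_of_lt_of_le hlo0 h1
      have h4 : 0 ≤ (x - 𝔸 t) ^ (γ - 1) := (Real.rpow_pos_of_pos h3 _).le
      rw [norm_mul, norm_mul, Real.norm_eq_abs, Real.norm_eq_abs, Real.norm_eq_abs, abs_of_nonneg h4]
      exact mul_le_mul_of_nonneg_left (mul_le_mul_of_nonneg_left (Jd_bound hlo0 h1 h2)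
        (abs_nonneg _)) (abs_nonneg _))
    ((hf.abs.mul continuous_const).intervalIntegrable _ _)
    (Filter.Eventually.of_forall fun t ht x hx => by
      obtain ⟨h1, h2⟩ := hrange t (hIoc t ht) x hx
      have h3 : x - 𝔸 t ≠ 0 := ne_of_gt (lt_of_lt_of_le hlo0 h1)
      have h4 : HasDerivAt (fun x => x - 𝔸 t) 1 x := (hasDerivAt_id x).sub_const _
      have h5 := (h4.rpow_const (p := γ) (Or.inl h3)).const_mul (f t)
      refine h5.congr_deriv ?_
      ring)
  have h2 := key.2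
  have h3 : γ * J (γ - 1) 𝔸 f E = ∫ t in (0:ℝ)..(2 * π), f t * (γ * (E - 𝔸 t) ^ (γ - 1)) := by
    unfold J
    rw [← intervalIntegral.integral_const_mul]
    congr 1
    ext t
    ring
  rw [h3]
  exact h2

theorem J_add {γ : ℝ} {𝔸 f g : ℝ → ℝ} (hA : Continuous 𝔸) (hf : Continuous f) (hg : Continuous g) {E : ℝ} (hE : ∀ t, 𝔸 t < E) :
    J γ 𝔸 (fun t => f t + g t) E = J γ 𝔸 f E + J γ 𝔸 g E := by
  have h1 : IntervalIntegrable (fun t => f t * (E - 𝔸 t) ^ γ) volume 0 (2 * π) :=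
    (hf.mul (Jd_cont hA hE)).intervalIntegrable _ _
  have h2 : IntervalIntegrable (fun t => g t * (E - 𝔸 t) ^ γ) volume 0 (2 * π) :=
    (hg.mul (Jd_cont hA hE)).intervalIntegrable _ _
  unfold J
  rw [← intervalIntegral.integral_add h1 h2]
  congr 1
  ext t
  ring

theorem J_smul {γ : ℝ} {𝔸 f : ℝ → ℝ} (c : ℝ) (E : ℝ) :
    J γ 𝔸 (fun t => c * f t) E = c * J γ 𝔸 f E := by
  unfold J
  rw [← intervalIntegral.integral_const_mul]
  congr 1
  ext t
  ring

theorem J_one_pos {γ : ℝ} {𝔸 : ℝ → ℝ} (hA : Continuous 𝔸) {E : ℝ} (hE : ∀ t, 𝔸 t < E) :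
    0 < J γ 𝔸 (fun _ => 1) E := by
  unfold J
  apply intervalIntegral.intervalIntegral_pos_of_pos_on
  · exact (continuous_const.mul (Jd_cont hA hE)).intervalIntegrable _ _
  · intro t _
    rw [one_mul]
    exact Real.rpow_pos_of_pos (sub_pos.2 (hE t)) _
  · positivity

/-- `∫ (G(𝔸) 𝔸') (E - 𝔸)^γ = 0`: the integrand is the derivative of a function of `𝔸` (take a primitive of `G(s) (E - s)^γ`, or induction on the degree `d`). -/
theorem J_exact {γ : ℝ} {𝔸 F : ℝ → ℝ} (hd : ∀ t, HasDerivAt 𝔸 (F t) t) (hF : Continuous F) (pA : 𝔸 (2 * π) = 𝔸 0)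
    {E : ℝ} (hE : ∀ t, 𝔸 t < E) (d : ℕ) : J γ 𝔸 (fun t => 𝔸 t ^ d * F t) E = 0 := by
  have hA : Continuous 𝔸 := continuous_iff_continuousAt.2 fun t => (hd t).continuousAt
  have h := intervalIntegral.integral_comp_mul_deriv'' (a := 0) (b := 2 * π) (f := 𝔸) (f' := F)
    (g := fun u => u ^ d * (E - u) ^ γ) hA.continuousOn
    (fun x _ => (hd x).hasDerivWithinAt) hF.continuousOn (by
      intro u hu
      obtain ⟨t, _, rfl⟩ := hu
      apply ContinuousAt.continuousWithinAt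
      apply ContinuousAt.mul (continuousAt_id.pow d)
      exact (continuousAt_const.sub continuousAt_id).rpow_const
        (Or.inl (ne_of_gt (sub_pos.2 (hE t)))))
  rw [pA, intervalIntegral.integral_same] at h
  unfold J
  rw [← h]
  congr 1
  ext t
  simp only [Function.comp]
  ring

end Pool.Agent.AbelLB
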