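import Pool.Agent.Lib.MP_bb703b_an.B.Df

set_option autoImplicit false

open Real Set MeasureTheory intervalIntegral Polynomial

/-! Row bb-K0. Tent functions. -/

namespace Pool.Agent.AbelLB

/-- The tent function `F(a) = max 0 (1 - |a - a₀|/η)` and its primitive `Φ(a) = ∫_{a₀}^a F`: `0 ≤ F ≤ 1`, `F = 0` for `|a - a₀| ≥ η`, `F ≥ 1/2` for `|a - a₀| ≤ η/2`, `|Φ| ≤ η`. -/
theorem tent {a₀ η : ℝ} (hη : 0 < η) : ∃ F Φ : ℝ → ℝ, Continuous F ∧ (∀ a, HasDerivAt Φ (F a) a) ∧ (∀ a, 0 ≤ F a) ∧ (∀ a, F a ≤ 1) ∧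
    (∀ a, η ≤ |a - a₀| → F a = 0) ∧ (∀ a, |a - a₀| ≤ η / 2 → 1 / 2 ≤ F a) ∧ ∀ a, |Φ a| ≤ η := by
  obtain ⟨F, hF⟩ : ∃ F : ℝ → ℝ, F = fun a => max 0 (1 - |a - a₀| / η) := ⟨_, rfl⟩
  have hFa : ∀ a, F a = max 0 (1 - |a - a₀| / η) := fun a => by rw [hF]
  have hc : Continuous F := by
    rw [hF]
    fun_prop
  have h0 : ∀ a, 0 ≤ F a := fun a => by rw [hFa]; exact le_max_left _ _
  have h1 : ∀ a, F a ≤ 1 := fun a => by
    rw [hFa]
    refine max_le zero_le_one ?_
    have : 0 ≤ |a - a₀| / η := by positivity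
    linarith
  have hz : ∀ a, η ≤ |a - a₀| → F a = 0 := fun a ha => by
    rw [hFa]
    refine max_eq_left ?_
    have : 1 ≤ |a - a₀| / η := by rwa [le_div_iff₀ hη, one_mul]
    linarith
  have hsmall : ∀ a, |a - a₀| ≤ η → |∫ x in a₀..a, F x| ≤ η := fun a ha => by
    have h := intervalIntegral.norm_integral_le_of_norm_le_const (f := F) (a := a₀) (b := a)
      (C := 1) (fun x _ => by rw [Real.norm_of_nonneg (h0 x)]; exact h1 x)
    rw [Real.norm_eq_abs, one_mul] at h
    exact h.trans ha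
  refine ⟨F, fun a => ∫ x in a₀..a, F x, hc, fun a => ?_, h0, h1, hz, fun a ha => ?_, fun a => ?_⟩
  · exact intervalIntegral.integral_hasDerivAt_right (hc.intervalIntegrable _ _)
      (hc.stronglyMeasurableAtFilter _ _) hc.continuousAt
  · rw [hFa]
    refine le_trans ?_ (le_max_right _ _)
    have : |a - a₀| / η ≤ 1 / 2 := by
      rw [div_le_iff₀ hη]
      linarith
    linarith
  · rcases le_total |a - a₀| η with ha | ha
    · exact hsmall a ha
    · show |∫ x in a₀..a, F x| ≤ η
      rcases le_total a₀ a with hle | hle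
      · rw [abs_of_nonneg (sub_nonneg.2 hle)] at ha
        have e1 : ∫ x in (a₀ + η)..a, F x = 0 := by
          rw [intervalIntegral.integral_congr (g := fun _ => (0 : ℝ))]
          · simp
          · intro x hx
            rw [uIcc_of_le (by linarith)] at hx
            refine hz x ?_
            rw [abs_of_nonneg (by linarith [hx.1])]
            linarith [hx.1]
        rw [← intervalIntegral.integral_add_adjacent_intervals (hc.intervalIntegrable a₀ (a₀ + η))
          (hc.intervalIntegrable (a₀ + η) a), e1, add_zero]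
        exact hsmall _ (by rw [add_sub_cancel_left, abs_of_pos hη])
      · rw [abs_of_nonpos (sub_nonpos.2 hle)] at ha
        have e1 : ∫ x in (a₀ - η)..a, F x = 0 := by
          rw [intervalIntegral.integral_congr (g := fun _ => (0 : ℝ))]
          · simp
          · intro x hx
            rw [uIcc_of_ge (by linarith)] at hx
            refine hz x ?_
            rw [abs_of_nonpos (by linarith [hx.2])]
            linarith [hx.2]
        rw [← intervalIntegral.integral_add_adjacent_intervals (hc.intervalIntegrable a₀ (a₀ - η))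
          (hc.intervalIntegrable (a₀ - η) a), e1, add_zero]
        exact hsmall _ (by rw [sub_sub_cancel_left, abs_neg, abs_of_pos hη])

/-- Away from the critical point: on an interval `[α, β]` where `w'² + (w - a₀)² ≥ d > 0` the tent functions have integral `O(η)`:
`F(w) ≤ (1/d) F(w) (w'² + (w-a₀)²) ≤ (1/d) (F(w) w' w' + η²)` and `∫ F(w) w' w' = [Φ(w) w'] - ∫ Φ(w) w''` (integration by parts). `C` does not depend on `η`. -/
theorem outer {w w' w'' : ℝ → ℝ} (h1 : ∀ t, HasDerivAt w (w' t) t) (h2 : ∀ t, HasDerivAt w' (w'' t) t) (h3 : Continuous w'')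
    {α β a₀ d : ℝ} (hαβ : α ≤ β) (hd : 0 < d) (h : ∀ t ∈ Icc α β, d ≤ w' t ^ 2 + (w t - a₀) ^ 2) :
    ∃ C : ℝ, 0 ≤ C ∧ ∀ (η : ℝ) (F Φ : ℝ → ℝ), 0 < η → η ≤ 1 → Continuous F → (∀ a, HasDerivAt Φ (F a) a) → (∀ a, 0 ≤ F a) → (∀ a, F a ≤ 1) →
      (∀ a, η ≤ |a - a₀| → F a = 0) → (∀ a, |Φ a| ≤ η) → ∫ t in α..β, F (w t) ≤ C * η := by
  have cw : Continuous w := continuous_iff_continuousAt.2 fun t => (h1 t).continuousAt
  have cw' : Continuous w' := continuous_iff_continuousAt.2 fun t => (h2 t).continuousAt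
  refine ⟨(|w' α| + |w' β| + (∫ t in α..β, |w'' t|) + (β - α)) / d, ?_, ?_⟩
  · have : 0 ≤ ∫ t in α..β, |w'' t| :=
      intervalIntegral.integral_nonneg hαβ fun t _ => abs_nonneg _
    have h4 : 0 ≤ β - α := sub_nonneg.2 hαβ
    positivity
  intro η F Φ hη hη1 cF hΦ hF0 hF1 hFz hΦb
  have cΦ : Continuous Φ := continuous_iff_continuousAt.2 fun t => (hΦ t).continuousAt
  have i1 : IntervalIntegrable (fun t => F (w t)) volume α β := (cF.comp cw).intervalIntegrable _ _
  have i2 : IntervalIntegrable (fun t => w' t * (F (w t) * w' t)) volume α β :=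
    (cw'.mul ((cF.comp cw).mul cw')).intervalIntegrable _ _
  -- pointwise
  have hp : ∀ t ∈ Icc α β, d * F (w t) ≤ w' t * (F (w t) * w' t) + η ^ 2 := by
    intro t ht
    have g1 : d * F (w t) ≤ (w' t ^ 2 + (w t - a₀) ^ 2) * F (w t) :=
      mul_le_mul_of_nonneg_right (h t ht) (hF0 _)
    have g2 : (w t - a₀) ^ 2 * F (w t) ≤ η ^ 2 := by
      rcases le_total η |w t - a₀| with g | g
      · rw [hFz _ g, mul_zero]
        positivity
      · have g3 : (w t - a₀) ^ 2 ≤ η ^ 2 := by
          rw [← sq_abs (w t - a₀)]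
          exact pow_le_pow_left₀ (abs_nonneg _) g 2
        calc (w t - a₀) ^ 2 * F (w t) ≤ (w t - a₀) ^ 2 * 1 :=
              mul_le_mul_of_nonneg_left (hF1 _) (sq_nonneg _)
          _ ≤ η ^ 2 := by rw [mul_one]; exact g3
    nlinarith
  have e1 : ∫ t in α..β, w' t * (F (w t) * w' t) =
      w' β * Φ (w β) - w' α * Φ (w α) - ∫ t in α..β, w'' t * Φ (w t) := by
    refine intervalIntegral.integral_mul_deriv_eq_deriv_mul (u := w') (v := fun t => Φ (w t))
      (u' := w'') (v' := fun t => F (w t) * w' t) (fun t _ => h2 t) (fun t _ => ?_)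
      (h3.intervalIntegrable _ _) (((cF.comp cw).mul cw').intervalIntegrable _ _)
    exact (hΦ (w t)).comp t (h1 t)
  have b1 : w' β * Φ (w β) ≤ |w' β| * η :=
    (le_abs_self _).trans (by rw [abs_mul]; exact mul_le_mul_of_nonneg_left (hΦb _) (abs_nonneg _))
  have b2 : -(w' α * Φ (w α)) ≤ |w' α| * η :=
    (neg_le_abs _).trans (by rw [abs_mul]; exact mul_le_mul_of_nonneg_left (hΦb _) (abs_nonneg _))
  have b3 : -(∫ t in α..β, w'' t * Φ (w t)) ≤ (∫ t in α..β, |w'' t|) * η := by
    rw [← intervalIntegral.integral_neg, ← intervalIntegral.integral_mul_const]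
    refine intervalIntegral.integral_mono_on hαβ ((h3.mul (cΦ.comp cw)).neg.intervalIntegrable _ _)
      ((h3.abs.mul continuous_const).intervalIntegrable _ _) fun t _ => ?_
    refine (neg_le_abs _).trans ?_
    rw [abs_mul]
    exact mul_le_mul_of_nonneg_left (hΦb _) (abs_nonneg _)
  have b4 : d * ∫ t in α..β, F (w t) ≤
      (∫ t in α..β, w' t * (F (w t) * w' t)) + (β - α) * η ^ 2 := by
    rw [← intervalIntegral.integral_const_mul]
    have e2 : (∫ t in α..β, w' t * (F (w t) * w' t)) + (β - α) * η ^ 2 =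
        ∫ t in α..β, (w' t * (F (w t) * w' t) + η ^ 2) := by
      rw [intervalIntegral.integral_add i2 intervalIntegrable_const,
        intervalIntegral.integral_const, smul_eq_mul]
    rw [e2]
    exact intervalIntegral.integral_mono_on hαβ (i1.const_mul d)
      (i2.add intervalIntegrable_const) hp
  have b5 : (β - α) * η ^ 2 ≤ (β - α) * η := by
    refine mul_le_mul_of_nonneg_left ?_ (sub_nonneg.2 hαβ)
    nlinarith
  have b6 : d * ∫ t in α..β, F (w t) ≤
      (|w' α| + |w' β| + (∫ t in α..β, |w'' t|) + (β - α)) * η := by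
    rw [e1] at b4
    nlinarith
  have b7 : (|w' α| + |w' β| + (∫ t in α..β, |w'' t|) + (β - α)) / d * η =
      ((|w' α| + |w' β| + (∫ t in α..β, |w'' t|) + (β - α)) * η) / d := by ring
  rw [b7, le_div_iff₀ hd, mul_comm]
  exact b6

end Pool.Agent.AbelLB
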