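import Pool.Agent.Lib.MP_bb703b_an.B.Jd

set_option autoImplicit false

open Real Set MeasureTheory intervalIntegral Polynomial

/-! Row bb-K1. From `J = 0` to vanishing moments, and to continuous functions of `w`. -/

namespace Pool.Agent.AbelLB

private theorem K1_approx {g v F : ℝ → ℝ} (hg : Continuous g) (hv : Continuous v) {α β : ℝ}
    (hval : ∀ t ∈ Icc (0:ℝ) (2 * π), v t ∈ Icc α β) (hF : ContinuousOn F (Icc α β))
    (h : ∀ R : ℝ[X], ∫ t in (0:ℝ)..(2 * π), g t * R.eval (v t) = 0) :
    ∫ t in (0:ℝ)..(2 * π), g t * F (v t) = 0 := by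
  have hpi : (0:ℝ) ≤ 2 * π := by positivity
  set C : ℝ := ∫ t in (0:ℝ)..(2 * π), |g t| with hC
  have hC0 : 0 ≤ C := intervalIntegral.integral_nonneg hpi fun t _ => abs_nonneg _
  have key : ∀ ε : ℝ, 0 < ε → |∫ t in (0:ℝ)..(2 * π), g t * F (v t)| ≤ C * ε := by
    intro ε hε
    obtain ⟨R, hR⟩ := exists_polynomial_near_of_continuousOn α β F hF ε hε
    have hcF : ContinuousOn (fun t => g t * F (v t)) (Icc (0:ℝ) (2 * π)) :=
      hg.continuousOn.mul (hF.comp hv.continuousOn fun t ht => hval t ht)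
    have hiF : IntervalIntegrable (fun t => g t * F (v t)) volume 0 (2 * π) := by
      apply ContinuousOn.intervalIntegrable
      rw [uIcc_of_le hpi]
      exact hcF
    have hcR : Continuous (fun t => g t * R.eval (v t)) := hg.mul (R.continuous.comp hv)
    have hiR : IntervalIntegrable (fun t => g t * R.eval (v t)) volume 0 (2 * π) :=
      hcR.intervalIntegrable _ _
    have h1 : ∫ t in (0:ℝ)..(2 * π), g t * F (v t)
        = ∫ t in (0:ℝ)..(2 * π), (g t * F (v t) - g t * R.eval (v t)) := by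
      rw [intervalIntegral.integral_sub hiF hiR, h R, sub_zero]
    rw [h1, ← Real.norm_eq_abs]
    calc ‖∫ t in (0:ℝ)..(2 * π), (g t * F (v t) - g t * R.eval (v t))‖
        ≤ ∫ t in (0:ℝ)..(2 * π), |g t| * ε := by
          apply intervalIntegral.norm_integral_le_of_norm_le hpi
          · refine Filter.Eventually.of_forall fun t ht => ?_
            have h2 := hR (v t) (hval t ⟨ht.1.le, ht.2⟩)
            rw [← mul_sub, norm_mul, Real.norm_eq_abs, Real.norm_eq_abs]
            apply mul_le_mul_of_nonneg_left _ (abs_nonneg _)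
            rw [abs_sub_comm]
            exact h2.le
          · exact (hg.abs.mul continuous_const).intervalIntegrable _ _
      _ = C * ε := by rw [intervalIntegral.integral_mul_const]
  by_contra hne
  have hpos : 0 < |∫ t in (0:ℝ)..(2 * π), g t * F (v t)| := abs_pos.2 hne
  set I := |∫ t in (0:ℝ)..(2 * π), g t * F (v t)| with hI
  have h3 := key (I / (2 * (C + 1))) (by positivity)
  have h4 : C * (I / (2 * (C + 1))) < I := by
    rw [mul_div_assoc', div_lt_iff₀ (by positivity)]
    nlinarith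
  linarith

/-- `γ ∉ ℕ`. By induction on `j` (`hasDerivAt_J`; a function which is zero on `(M, ∞)` has derivative zero there; `γ - j ≠ 0`): `J (γ - j) w b E = 0` for all `E > M`. Fix `E = M + 1` and
put `u t = (E - w t)⁻¹`, with values in a compact interval `[u₀, u₁] ⊂ (0, ∞)`: `∫ b (E-w)^γ u^j = 0` for all `j`, so `∫ b (E-w)^γ R(u) = 0` for all polynomials `R`. For a polynomial
`P` the function `Φ(x) = P(E - 1/x) x^γ` is continuous on `[u₀,u₁]`, so it is a uniform limit of polynomials (`exists_polynomial_near_of_continuousOn`), and `Φ(u) (E-w)^γ = P(w)`. -/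
theorem ker_of_J {γ : ℝ} (hγ : ∀ j : ℕ, γ ≠ j) {w b : ℝ → ℝ} (hw : Continuous w) (hb : Continuous b) {M : ℝ}
    (hM : ∀ t, w t ≤ M) (h : ∀ E, M < E → J γ w b E = 0) : Ker w b := by
  have hJ : ∀ j : ℕ, ∀ E, M < E → J (γ - j) w b E = 0 := by
    intro j
    induction j with
    | zero => intro E hE; simpa using h E hE
    | succ j ih =>
      intro E hE
      have hd := hasDerivAt_J (γ := γ - j) hw hb (E := E) fun t => lt_of_le_of_lt (hM t) hE
      have h0 : HasDerivAt (J (γ - j) w b) 0 E := by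
        apply (hasDerivAt_const E (0:ℝ)).congr_of_eventuallyEq
        filter_upwards [Ioi_mem_nhds hE] with x hx
        exact ih x hx
      have h1 := hd.unique h0
      have h2 : γ - j ≠ 0 := sub_ne_zero.2 (hγ j)
      have h3 := (mul_eq_zero.1 h1).resolve_left h2
      have h4 : γ - ((j + 1 : ℕ) : ℝ) = γ - j - 1 := by push_cast; ring
      rw [h4]
      exact h3
  set E : ℝ := M + 1 with hE
  have hgap : ∀ t, 1 ≤ E - w t := fun t => by have := hM t; linarith
  have hpos : ∀ t, 0 < E - w t := fun t => lt_of_lt_of_le one_pos (hgap t)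
  have hpi : (0:ℝ) ≤ 2 * π := by positivity
  obtain ⟨m, hm⟩ : ∃ m, ∀ t ∈ Icc (0:ℝ) (2 * π), m ≤ w t := by
    obtain ⟨m, hm⟩ := (isCompact_Icc.image_of_continuousOn (hw.continuousOn (s := Icc (0:ℝ) (2 * π)))).bddBelow
    exact ⟨m, fun t ht => hm ⟨t, ht, rfl⟩⟩
  have hEm : 0 < E - m := by
    have h1 := hm 0 ⟨le_refl _, hpi⟩
    have h2 := hpos 0
    linarith
  have hu : Continuous fun t => (E - w t)⁻¹ :=
    (continuous_const.sub hw).inv₀ fun t => (hpos t).ne'
  have hg : Continuous fun t => b t * (E - w t) ^ γ :=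
    hb.mul ((continuous_const.sub hw).rpow_const fun t => Or.inl (hpos t).ne')
  have hval : ∀ t ∈ Icc (0:ℝ) (2 * π), (E - w t)⁻¹ ∈ Icc (E - m)⁻¹ 1 := by
    intro t ht
    constructor
    · apply inv_anti₀ (hpos t)
      have := hm t ht
      linarith
    · exact inv_le_one_of_one_le₀ (hgap t)
  have hR : ∀ R : ℝ[X], ∫ t in (0:ℝ)..(2 * π), (b t * (E - w t) ^ γ) * R.eval ((E - w t)⁻¹) = 0 := by
    intro R
    induction R using Polynomial.induction_on' with
    | add p q hp hq =>
      have hcp : Continuous fun t => (b t * (E - w t) ^ γ) * p.eval ((E - w t)⁻¹) :=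
        hg.mul (p.continuous.comp hu)
      have hcq : Continuous fun t => (b t * (E - w t) ^ γ) * q.eval ((E - w t)⁻¹) :=
        hg.mul (q.continuous.comp hu)
      have h1 : ∀ t, (b t * (E - w t) ^ γ) * (p + q).eval ((E - w t)⁻¹)
          = (b t * (E - w t) ^ γ) * p.eval ((E - w t)⁻¹)
            + (b t * (E - w t) ^ γ) * q.eval ((E - w t)⁻¹) := by
        intro t
        rw [Polynomial.eval_add, mul_add]
      simp_rw [h1]
      rw [intervalIntegral.integral_add (hcp.intervalIntegrable _ _) (hcq.intervalIntegrable _ _),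
        hp, hq, add_zero]
    | monomial j a =>
      have h1 : ∀ t, (b t * (E - w t) ^ γ) * (Polynomial.monomial j a).eval ((E - w t)⁻¹)
          = a * (b t * (E - w t) ^ (γ - j)) := by
        intro t
        rw [Polynomial.eval_monomial, Real.rpow_sub (hpos t), Real.rpow_natCast, inv_pow]
        ring
      simp_rw [h1]
      rw [intervalIntegral.integral_const_mul]
      have h2 := hJ j E (by rw [hE]; linarith)
      unfold J at h2
      rw [h2, mul_zero]
  intro P
  have hF : ContinuousOn (fun x : ℝ => P.eval (E - x⁻¹) * x ^ γ) (Icc (E - m)⁻¹ 1) := by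
    have hne : ∀ x ∈ Icc (E - m)⁻¹ (1:ℝ), x ≠ 0 := fun x hx =>
      (lt_of_lt_of_le (inv_pos.2 hEm) hx.1).ne'
    apply ContinuousOn.mul
    · exact P.continuous.comp_continuousOn
        (continuousOn_const.sub (continuousOn_id.inv₀ hne))
    · exact continuousOn_id.rpow_const fun x hx => Or.inl (hne x hx)
  have h5 := K1_approx hg hu hval hF hR
  refine Eq.trans ?_ h5
  apply intervalIntegral.integral_congr
  intro t _
  have hp := hpos t
  have h6 : (E - w t) ^ γ * ((E - w t)⁻¹) ^ γ = 1 := by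
    rw [← Real.mul_rpow hp.le (inv_pos.2 hp).le, mul_inv_cancel₀ hp.ne', Real.one_rpow]
  have h7 : E - ((E - w t)⁻¹)⁻¹ = w t := by rw [inv_inv]; ring
  show b t * P.eval (w t) = b t * (E - w t) ^ γ * (P.eval (E - ((E - w t)⁻¹)⁻¹) * ((E - w t)⁻¹) ^ γ)
  rw [h7]
  calc b t * P.eval (w t) = b t * P.eval (w t) * ((E - w t) ^ γ * ((E - w t)⁻¹) ^ γ) := by
        rw [h6, mul_one]
    _ = b t * (E - w t) ^ γ * (P.eval (w t) * ((E - w t)⁻¹) ^ γ) := by ring

/-- Weierstrass: `exists_polynomial_near_of_continuousOn` on an interval containing the values of `w` on `[0,2π]`. -/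
theorem Ker.cont {w b : ℝ → ℝ} (hw : Continuous w) (hb : Continuous b) (h : Ker w b) {F : ℝ → ℝ} (hF : Continuous F) :
    ∫ t in (0:ℝ)..(2 * π), b t * F (w t) = 0 := by
  have hcpt := isCompact_Icc.image_of_continuousOn (hw.continuousOn (s := Icc (0:ℝ) (2 * π)))
  obtain ⟨m, hm⟩ := hcpt.bddBelow
  obtain ⟨M, hM⟩ := hcpt.bddAbove
  exact K1_approx (α := m) (β := M) hb hw (fun t ht => ⟨hm ⟨t, ht, rfl⟩, hM ⟨t, ht, rfl⟩⟩)
    hF.continuousOn h

end Pool.Agent.AbelLB
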