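import Pool.Agent.Lib.MP_bb703b_an.B.K1
import Pool.Agent.Lib.MP_bb703b_an.B.K0

set_option autoImplicit false

open Real Set MeasureTheory intervalIntegral Polynomial

/-! Row bb-K2. A function in the kernel vanishes at the critical points. -/

namespace Pool.Agent.AbelLB

private lemma K2_taylor {w w' w'' : ℝ → ℝ} (h1 : ∀ t, HasDerivAt w (w' t) t) (h2 : ∀ t, HasDerivAt w' (w'' t) t)
    (h3 : Continuous w'') {t₀ : ℝ} (ht : w' t₀ = 0) :
    ∃ C : ℝ, 1 ≤ C ∧ ∀ t ∈ Icc (t₀ - π) (t₀ + π), |w t - w t₀| ≤ C * (t - t₀) ^ 2 := by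
  obtain ⟨K, hK⟩ := (isCompact_Icc (a := t₀ - π) (b := t₀ + π)).exists_bound_of_continuousOn h3.continuousOn
  refine ⟨max K 1, le_max_right _ _, ?_⟩
  have hmem : t₀ ∈ Icc (t₀ - π) (t₀ + π) := ⟨by linarith [pi_pos], by linarith [pi_pos]⟩
  have hw' : ∀ t ∈ Icc (t₀ - π) (t₀ + π), |w' t| ≤ max K 1 * |t - t₀| := by
    intro t ht'
    have h4 := (convex_Icc (t₀ - π) (t₀ + π)).norm_image_sub_le_of_norm_hasDerivWithin_le (f := w') (f' := w'')
      (C := max K 1) (fun x _ => (h2 x).hasDerivWithinAt) (fun x hx => (hK x hx).trans (le_max_left _ _)) hmem ht'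
    rw [ht, sub_zero, Real.norm_eq_abs, Real.norm_eq_abs] at h4
    exact h4
  intro t ht'
  have hsub : uIcc t₀ t ⊆ Icc (t₀ - π) (t₀ + π) := Set.uIcc_subset_Icc hmem ht'
  have h4 := (convex_uIcc t₀ t).norm_image_sub_le_of_norm_hasDerivWithin_le (f := w) (f' := w')
    (C := max K 1 * |t - t₀|) (fun x _ => (h1 x).hasDerivWithinAt) (fun x hx => by
      rw [Real.norm_eq_abs]
      refine (hw' x (hsub hx)).trans ?_
      apply mul_le_mul_of_nonneg_left _ (le_trans zero_le_one (le_max_right _ _))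
      exact abs_sub_left_of_mem_uIcc hx) left_mem_uIcc right_mem_uIcc
  rw [Real.norm_eq_abs, Real.norm_eq_abs] at h4
  refine h4.trans (le_of_eq ?_)
  rw [mul_assoc, ← sq, sq_abs]

private lemma K2_dist {w w' w'' : ℝ → ℝ} (h1 : ∀ t, HasDerivAt w (w' t) t) (h2 : ∀ t, HasDerivAt w' (w'' t) t)
    {t₀ r α β : ℝ} (hr : 0 < r)
    (hu : ∀ t, w' t = 0 → w t = w t₀ → ∃ m : ℤ, t = t₀ + 2 * π * m)
    (hαβ : ∀ t ∈ Icc α β, r ≤ |t - t₀| ∧ |t - t₀| ≤ π) :
    ∃ d : ℝ, 0 < d ∧ ∀ t ∈ Icc α β, d ≤ w' t ^ 2 + (w t - w t₀) ^ 2 := by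
  have hcw : Continuous w := continuous_iff_continuousAt.2 fun t => (h1 t).continuousAt
  have hcw' : Continuous w' := continuous_iff_continuousAt.2 fun t => (h2 t).continuousAt
  have hc : Continuous (fun t => w' t ^ 2 + (w t - w t₀) ^ 2) := by fun_prop
  by_cases hne : (Icc α β).Nonempty
  · obtain ⟨x, hx, hmin⟩ := isCompact_Icc.exists_isMinOn hne hc.continuousOn
    refine ⟨w' x ^ 2 + (w x - w t₀) ^ 2, ?_, fun t ht => hmin ht⟩
    by_contra hcon
    have h4 : 0 ≤ w' x ^ 2 := sq_nonneg _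
    have h5 : 0 ≤ (w x - w t₀) ^ 2 := sq_nonneg _
    have h6 : w' x ^ 2 = 0 := by linarith
    have h7 : (w x - w t₀) ^ 2 = 0 := by linarith
    have h8 : w' x = 0 := by simpa using h6
    have h9 : w x = w t₀ := by
      have : w x - w t₀ = 0 := by simpa using h7
      linarith
    obtain ⟨m, hm⟩ := hu x h8 h9
    obtain ⟨h10, h11⟩ := hαβ x hx
    have h12 : x - t₀ = 2 * π * m := by linarith
    rw [h12] at h10 h11
    have hpi := pi_pos
    by_cases hm0 : m = 0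
    · rw [hm0] at h10
      simp only [Int.cast_zero, mul_zero, abs_zero] at h10
      linarith
    · have h13 : (1 : ℝ) ≤ |(m : ℝ)| := by
        have h14 : 1 ≤ |m| := Int.one_le_abs hm0
        have h15 : ((1 : ℤ) : ℝ) ≤ ((|m| : ℤ) : ℝ) := by exact_mod_cast h14
        simpa using h15
      rw [abs_mul, abs_of_pos (by linarith : (0 : ℝ) < 2 * π)] at h11
      nlinarith
  · refine ⟨1, one_pos, fun t ht => ?_⟩
    exact absurd ⟨t, ht⟩ hne

private lemma K2_aux {w w' w'' b : ℝ → ℝ} (h1 : ∀ t, HasDerivAt w (w' t) t) (h2 : ∀ t, HasDerivAt w' (w'' t) t)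
    (h3 : Continuous w'')
    (pw : ∀ t, w (t + 2 * π) = w t) (hb : Continuous b) (pb : ∀ t, b (t + 2 * π) = b t)
    (hK : ∀ F : ℝ → ℝ, Continuous F → ∫ t in (0:ℝ)..(2 * π), b t * F (w t) = 0) {t₀ : ℝ} (ht : w' t₀ = 0)
    (hu : ∀ t, w' t = 0 → w t = w t₀ → ∃ m : ℤ, t = t₀ + 2 * π * m) (hpos : 0 < b t₀) : False := by
  have hpi := pi_pos
  have hcw : Continuous w := continuous_iff_continuousAt.2 fun t => (h1 t).continuousAt
  -- the radius
  obtain ⟨r0, hr0, hr0b⟩ : ∃ r : ℝ, 0 < r ∧ ∀ t, |t - t₀| < r → b t₀ / 2 < b t := by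
    have h4 : ∀ᶠ t in nhds t₀, b t₀ / 2 < b t :=
      hb.continuousAt.eventually (lt_mem_nhds (by linarith))
    obtain ⟨r, hr, h5⟩ := Metric.eventually_nhds_iff.1 h4
    exact ⟨r, hr, fun t ht' => h5 (by rw [Real.dist_eq]; exact ht')⟩
  obtain ⟨r, hr, hrpi, hrb⟩ : ∃ r : ℝ, 0 < r ∧ r < π ∧ ∀ t, |t - t₀| ≤ r → b t₀ / 2 ≤ b t := by
    refine ⟨min (r0 / 2) (π / 2), by positivity, ?_, fun t ht' => ?_⟩
    · exact lt_of_le_of_lt (min_le_right _ _) (by linarith)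
    · exact (hr0b t (lt_of_le_of_lt (ht'.trans (min_le_left _ _)) (by linarith))).le
  obtain ⟨C₁, hC₁, htay⟩ := K2_taylor h1 h2 h3 ht
  obtain ⟨B0, hB0⟩ := (isCompact_Icc (a := t₀ - π) (b := t₀ + π)).exists_bound_of_continuousOn hb.continuousOn
  obtain ⟨B, hB, hBb⟩ : ∃ B : ℝ, 0 ≤ B ∧ ∀ t ∈ Icc (t₀ - π) (t₀ + π), -B ≤ b t := by
    refine ⟨max B0 0, le_max_right _ _, fun t ht' => ?_⟩
    have h4 := hB0 t ht'
    rw [Real.norm_eq_abs] at h4
    have h5 := (abs_le.1 h4).1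
    have h6 : B0 ≤ max B0 0 := le_max_left _ _
    linarith
  -- outer intervals
  have hL : ∀ t ∈ Icc (t₀ - π) (t₀ - r), r ≤ |t - t₀| ∧ |t - t₀| ≤ π := by
    intro t ht'
    rw [abs_of_nonpos (by linarith [ht'.2])]
    constructor <;> linarith [ht'.1, ht'.2]
  have hR : ∀ t ∈ Icc (t₀ + r) (t₀ + π), r ≤ |t - t₀| ∧ |t - t₀| ≤ π := by
    intro t ht'
    rw [abs_of_nonneg (by linarith [ht'.1])]
    constructor <;> linarith [ht'.1, ht'.2]
  obtain ⟨d1, hd1, hd1'⟩ := K2_dist h1 h2 hr hu hL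
  obtain ⟨d2, hd2, hd2'⟩ := K2_dist h1 h2 hr hu hR
  obtain ⟨Ca, hCa, hCa'⟩ := outer h1 h2 h3 (by linarith : t₀ - π ≤ t₀ - r) hd1 hd1'
  obtain ⟨Cb, hCb, hCb'⟩ := outer h1 h2 h3 (by linarith : t₀ + r ≤ t₀ + π) hd2 hd2'
  -- the choice of ρ
  obtain ⟨D, hD⟩ : ∃ D : ℝ, D = 2 * B * C₁ * (Ca + Cb) + 1 := ⟨_, rfl⟩
  have hD0 : 1 ≤ D := by
    rw [hD]
    have : 0 ≤ 2 * B * C₁ * (Ca + Cb) := by positivity
    linarith
  obtain ⟨ρ, hρ0, hρr, hρC, hρD⟩ : ∃ ρ : ℝ, 0 < ρ ∧ ρ ≤ r ∧ 2 * C₁ * ρ ≤ 1 ∧ D * ρ < b t₀ / 2 := by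
    refine ⟨min r (min (1 / (2 * C₁)) (b t₀ / (4 * D))), by positivity, min_le_left _ _, ?_, ?_⟩
    · have h4 : min r (min (1 / (2 * C₁)) (b t₀ / (4 * D))) ≤ 1 / (2 * C₁) :=
        (min_le_right _ _).trans (min_le_left _ _)
      calc 2 * C₁ * min r (min (1 / (2 * C₁)) (b t₀ / (4 * D))) ≤ 2 * C₁ * (1 / (2 * C₁)) :=
            mul_le_mul_of_nonneg_left h4 (by positivity)
        _ = 1 := by field_simp
    · have h4 : min r (min (1 / (2 * C₁)) (b t₀ / (4 * D))) ≤ b t₀ / (4 * D) :=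
        (min_le_right _ _).trans (min_le_right _ _)
      calc D * min r (min (1 / (2 * C₁)) (b t₀ / (4 * D))) ≤ D * (b t₀ / (4 * D)) :=
            mul_le_mul_of_nonneg_left h4 (by positivity)
        _ = b t₀ / 4 := by field_simp
        _ < b t₀ / 2 := by linarith
  obtain ⟨η, hη⟩ : ∃ η : ℝ, η = 2 * C₁ * ρ ^ 2 := ⟨_, rfl⟩
  have hη0 : 0 < η := by rw [hη]; positivity
  have hρ1 : ρ ≤ 1 := by nlinarith
  have hη1 : η ≤ 1 := by
    rw [hη]
    nlinarith
  obtain ⟨F, Φ, hFc, hΦ, hF0, hF1, hFz, hFh, hΦb⟩ := tent (a₀ := w t₀) hη0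
  have hcF : Continuous fun t => F (w t) := hFc.comp hcw
  have hcbF : Continuous fun t => b t * F (w t) := hb.mul hcF
  have hIa := hCa' η F Φ hη0 hη1 hFc hΦ hF0 hF1 hFz hΦb
  have hIb := hCb' η F Φ hη0 hη1 hFc hΦ hF0 hF1 hFz hΦb
  -- the integral over a period
  have hper : ∫ t in (t₀ - π)..(t₀ + π), b t * F (w t) = 0 := by
    have hp : Function.Periodic (fun t => b t * F (w t)) (2 * π) := by
      intro t
      simp only
      rw [pb, pw]
    have h4 := hp.intervalIntegral_add_eq (t₀ - π) 0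
    rw [zero_add, hK F hFc] at h4
    rw [show t₀ - π + 2 * π = t₀ + π by ring] at h4
    exact h4
  have hint : ∀ x y : ℝ, IntervalIntegrable (fun t => b t * F (w t)) volume x y := fun x y =>
    hcbF.intervalIntegrable x y
  have hsplit : (∫ t in (t₀ - π)..(t₀ - r), b t * F (w t)) + (∫ t in (t₀ - r)..(t₀ + r), b t * F (w t)) +
      (∫ t in (t₀ + r)..(t₀ + π), b t * F (w t)) = 0 := by
    rw [integral_add_adjacent_intervals (hint _ _) (hint _ _),
      integral_add_adjacent_intervals (hint _ _) (hint _ _), hper]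
  have hout : ∀ x y C : ℝ, x ≤ y → Icc x y ⊆ Icc (t₀ - π) (t₀ + π) → ∫ t in x..y, F (w t) ≤ C * η →
      -(B * (C * η)) ≤ ∫ t in x..y, b t * F (w t) := by
    intro x y C hxy hsub hC
    have h4 : ∫ t in x..y, (-B) * F (w t) ≤ ∫ t in x..y, b t * F (w t) := by
      apply integral_mono_on hxy ((continuous_const.mul hcF).intervalIntegrable x y) (hint x y)
      intro t ht'
      exact mul_le_mul_of_nonneg_right (hBb t (hsub ht')) (hF0 _)
    rw [intervalIntegral.integral_const_mul] at h4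
    have h5 : B * ∫ t in x..y, F (w t) ≤ B * (C * η) := mul_le_mul_of_nonneg_left hC hB
    linarith
  have h5 := hout (t₀ - π) (t₀ - r) Ca (by linarith) (Icc_subset_Icc le_rfl (by linarith)) hIa
  have h6 := hout (t₀ + r) (t₀ + π) Cb (by linarith) (Icc_subset_Icc (by linarith) le_rfl) hIb
  have hmid : b t₀ / 2 * ρ ≤ ∫ t in (t₀ - r)..(t₀ + r), b t * F (w t) := by
    have h7 : ∫ t in (t₀ - ρ)..(t₀ + ρ), b t * F (w t) ≤ ∫ t in (t₀ - r)..(t₀ + r), b t * F (w t) := by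
      apply integral_mono_interval (by linarith) (by linarith) (by linarith) _ (hint _ _)
      refine (ae_restrict_mem measurableSet_Ioc).mono fun t ht' => ?_
      have h8 : |t - t₀| ≤ r := by
        rw [abs_le]
        constructor <;> linarith [ht'.1, ht'.2]
      have h9 := hrb t h8
      exact mul_nonneg (by linarith) (hF0 _)
    have h8 : ∫ t in (t₀ - ρ)..(t₀ + ρ), b t₀ / 4 ≤ ∫ t in (t₀ - ρ)..(t₀ + ρ), b t * F (w t) := by
      apply integral_mono_on (by linarith) (continuous_const.intervalIntegrable _ _) (hint _ _)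
      intro t ht'
      have h9 : |t - t₀| ≤ ρ := by
        rw [abs_le]
        constructor <;> linarith [ht'.1, ht'.2]
      have h10 := hrb t (h9.trans hρr)
      have h11 : |w t - w t₀| ≤ η / 2 := by
        refine (htay t ⟨by linarith [ht'.1], by linarith [ht'.2]⟩).trans ?_
        have h12 : (t - t₀) ^ 2 ≤ ρ ^ 2 := by
          rw [← sq_abs (t - t₀)]
          exact pow_le_pow_left₀ (abs_nonneg _) h9 2
        have h13 : C₁ * (t - t₀) ^ 2 ≤ C₁ * ρ ^ 2 := mul_le_mul_of_nonneg_left h12 (by linarith)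
        rw [hη]
        linarith
      have h12 := hFh _ h11
      calc b t₀ / 4 = b t₀ / 2 * (1 / 2) := by ring
        _ ≤ b t * F (w t) := mul_le_mul h10 h12 (by norm_num) (by linarith)
    rw [intervalIntegral.integral_const, smul_eq_mul] at h8
    have e1 : (t₀ + ρ - (t₀ - ρ)) * (b t₀ / 4) = b t₀ / 2 * ρ := by ring
    rw [e1] at h8
    exact h8.trans h7
  have hfin : b t₀ / 2 * ρ ≤ B * (Ca * η) + B * (Cb * η) := by linarith
  have e2 : B * (Ca * η) + B * (Cb * η) = (D - 1) * ρ * ρ := by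
    rw [hη, hD]
    ring
  rw [e2] at hfin
  have h7 : (D - 1) * ρ < b t₀ / 2 := by nlinarith
  have h8 := mul_lt_mul_of_pos_right h7 hρ0
  linarith

/-- Row K2, main. Let `t₀` be a critical point of `w`, and the only one with this critical value (mod `2π`). If `b` is in the kernel then `b t₀ = 0`.
Proof. By periodicity `∫_{t₀-π}^{t₀+π} b F(w) = 0` for `F` continuous (`Ker.cont`, `Function.Periodic.intervalIntegral_add_eq`). Suppose `b t₀ > 0` (else `-b`), and `b ≥ β = b t₀/2` on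
`[t₀-r, t₀+r]`, `0 < r < π`; `|b| ≤ B`. With `a₀ = w t₀`: `|w t - a₀| ≤ C₁ (t - t₀)²` for `|t - t₀| ≤ π` (Taylor, `w' t₀ = 0`). On `[t₀-π, t₀-r]` and `[t₀+r, t₀+π]` the continuous function
`w'² + (w-a₀)²` is positive, so `≥ d > 0`: `outer`. With the tent functions, `η → 0`: `0 = ∫ b F(w) ≥ β ∫_{|t-t₀| ≤ r} F(w) - 2 B C η`, and `F(w t) ≥ 1/2` if `C₁ (t-t₀)² ≤ η/2`, so the
first integral is at least `min r √(η/(2C₁))`; so `β √(η/(2 C₁)) ≤ 2 B C η` for all small `η`, a contradiction. -/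
theorem crit_zero {w w' w'' b : ℝ → ℝ} (h1 : ∀ t, HasDerivAt w (w' t) t) (h2 : ∀ t, HasDerivAt w' (w'' t) t) (h3 : Continuous w'')
    (pw : ∀ t, w (t + 2 * π) = w t) (hb : Continuous b) (pb : ∀ t, b (t + 2 * π) = b t) (hK : Ker w b) {t₀ : ℝ} (ht : w' t₀ = 0)
    (hu : ∀ t, w' t = 0 → w t = w t₀ → ∃ m : ℤ, t = t₀ + 2 * π * m) : b t₀ = 0 := by
  have hcw : Continuous w := continuous_iff_continuousAt.2 fun t => (h1 t).continuousAt
  rcases lt_trichotomy (b t₀) 0 with h | h | h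
  · exfalso
    refine K2_aux (b := fun t => -b t) h1 h2 h3 pw hb.neg (fun t => by rw [pb]) ?_ ht hu
      (neg_pos.2 h)
    intro F hF
    have h4 := hK.cont hcw hb hF
    have h5 : ∀ t : ℝ, -b t * F (w t) = -(b t * F (w t)) := fun t => by ring
    simp only [h5]
    rw [intervalIntegral.integral_neg, h4, neg_zero]
  · exact h
  · exact (K2_aux h1 h2 h3 pw hb pb (fun F hF => hK.cont hcw hb hF) ht hu h).elim

end Pool.Agent.AbelLB
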