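import Pool.Agent.Lib.MP_bb703b_an.B.T2

set_option autoImplicit false

open Real Set MeasureTheory intervalIntegral Polynomial

/-! Row bb-T3. Division of trigonometric polynomials. -/

namespace Pool.Agent.AbelLB

private lemma T3_exp_eq (s t : ℝ) (h : Complex.exp (s * Complex.I) = Complex.exp (t * Complex.I)) :
    ∃ m : ℤ, s = t + 2 * π * m := by
  obtain ⟨n, hn⟩ := Complex.exp_eq_exp_iff_exists_int.1 h
  refine ⟨n, ?_⟩
  have h1 : (s : ℂ) * Complex.I = ((t + 2 * π * n : ℝ) : ℂ) * Complex.I := by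
    rw [hn]
    push_cast
    ring
  have h2 := mul_right_cancel₀ Complex.I_ne_zero h1
  exact_mod_cast h2

private lemma T3_inf (Q : ℂ[X]) (a b : ℝ) (hab : a < b)
    (h : ∀ t ∈ Ioo a b, Q.eval (Complex.exp (t * Complex.I)) = 0) : Q = 0 := by
  have hab' : a < min b (a + 1) := lt_min hab (by linarith)
  have hinj : InjOn (fun t : ℝ => Complex.exp (t * Complex.I)) (Ioo a (min b (a + 1))) := by
    intro s hs t ht hst
    obtain ⟨m, hm⟩ := T3_exp_eq s t hst
    have s1 : s < a + 1 := lt_of_lt_of_le hs.2 (min_le_right _ _)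
    have t1 : t < a + 1 := lt_of_lt_of_le ht.2 (min_le_right _ _)
    have h1 : |2 * π * (m : ℝ)| < 1 := by
      rw [abs_lt]
      constructor <;> linarith [hs.1, ht.1]
    have h2 : m = 0 := by
      by_contra h0
      have h3 : (1 : ℝ) ≤ |(m : ℝ)| := by exact_mod_cast Int.one_le_abs h0
      rw [abs_mul, abs_of_pos (by positivity : (0 : ℝ) < 2 * π)] at h1
      have h4 : 2 * π * 1 ≤ 2 * π * |(m : ℝ)| := mul_le_mul_of_nonneg_left h3 (by positivity)
      linarith [Real.pi_gt_three]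
    rw [h2] at hm
    simpa using hm
  apply Polynomial.eq_zero_of_infinite_isRoot
  refine ((Set.Ioo_infinite hab').image hinj).mono ?_
  rintro _ ⟨t, ht, rfl⟩
  exact h t ⟨ht.1, lt_of_lt_of_le ht.2 (min_le_left _ _)⟩

private lemma T3_factor {k : ℕ} {v : ℝ → ℝ} (hv : TP k v) (hv0 : ∃ t, v t ≠ 0) {z : Fin (2 * k) → ℝ}
    (hz : ∀ i, v (z i) = 0) (hdist : ∀ i j, i ≠ j → ∀ m : ℤ, z i ≠ z j + 2 * π * m) :
    ∃ (Q : ℂ[X]) (c : ℂ), c ≠ 0 ∧ Q = (∏ i, (X - C (Complex.exp (z i * Complex.I)))) * C c ∧ Q.natDegree = 2 * k ∧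
      ∀ t : ℝ, (v t : ℂ) * Complex.exp (k * t * Complex.I) = Q.eval (Complex.exp (t * Complex.I)) := by
  obtain ⟨Q, hQ, hQe⟩ := TP_iff.1 hv
  obtain ⟨t0, ht0⟩ := hv0
  have hQ0 : Q ≠ 0 := by
    intro h
    have h1 := hQe t0
    rw [h, eval_zero] at h1
    rcases mul_eq_zero.1 h1 with h2 | h2
    · exact ht0 (by exact_mod_cast h2)
    · exact Complex.exp_ne_zero _ h2
  have hinj : Function.Injective (fun i => Complex.exp (z i * Complex.I)) := by
    intro i j hij
    by_contra hne
    obtain ⟨m, hm⟩ := T3_exp_eq (z i) (z j) hij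
    exact hdist i j hne m hm
  have hdvd : (∏ i, (X - C (Complex.exp (z i * Complex.I)))) ∣ Q := by
    apply Finset.prod_dvd_of_coprime
    · intro i _ j _ hij
      exact Polynomial.pairwise_coprime_X_sub_C hinj hij
    · intro i _
      rw [Polynomial.dvd_iff_isRoot, Polynomial.IsRoot, ← hQe (z i), hz i]
      simp
  obtain ⟨E, hE⟩ := hdvd
  have hmon : (∏ i : Fin (2 * k), (X - C (Complex.exp (z i * Complex.I)))).Monic :=
    Polynomial.monic_prod_of_monic _ _ (fun i _ => Polynomial.monic_X_sub_C _)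
  have hdeg : (∏ i : Fin (2 * k), (X - C (Complex.exp (z i * Complex.I)))).natDegree = 2 * k := by
    rw [Polynomial.natDegree_prod_of_monic _ _ (fun i _ => Polynomial.monic_X_sub_C _)]
    simp
  have hE0 : E ≠ 0 := by
    intro h
    rw [h, mul_zero] at hE
    exact hQ0 hE
  have hdQ : Q.natDegree = 2 * k + E.natDegree := by
    rw [hE, Polynomial.natDegree_mul hmon.ne_zero hE0, hdeg]
  have hEd : E.natDegree = 0 := by omega
  have hEc : E = C (E.coeff 0) := Polynomial.eq_C_of_natDegree_eq_zero hEd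
  refine ⟨Q, E.coeff 0, ?_, ?_, by omega, hQe⟩
  · intro h
    rw [h, C_0] at hEc
    exact hE0 hEc
  · rw [← hEc]
    exact hE

/-- A trigonometric polynomial `v ≠ 0` of degree `≤ k` with `2k` distinct zeros `z i` (mod `2π`) divides every trigonometric polynomial `b` of degree `≤ N` which
vanishes at the `z i`.
Proof. `TP_iff` for `v`: a polynomial `Q` of degree `≤ 2k`, `Q ≠ 0`, which vanishes at the `2k` distinct points `ζ_i = e^{i z_i}` (distinct by `hdist`:
`Complex.exp_eq_exp_iff_exists_int`), so `Q = c ∏ (X - ζ_i)`, `c ≠ 0` (`Q.roots` / `Polynomial.eq_prod_...` or: `∏ (X - ζ_i) ∣ Q` by `Finset.prod_dvd_of_coprime` /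
`Multiset.prod_X_sub_C_dvd_iff_le_roots`, compare degrees). The polynomial `R` of `b` vanishes at the `ζ_i`, so `∏ (X - ζ_i) ∣ R`, hence `R = Q S`. If `R = 0` then `b = 0`.
Otherwise `deg S = deg R - 2k ≤ 2N - 2k`, so `k ≤ N`; the function `φ(t) = e^{-i(N-k)t} S(e^{it})` is continuous and `b t = v t * φ t` (complex numbers), so `φ t` is real
where `v t ≠ 0` (all `t` but isolated points, or: `v` has only finitely many zeros in a period since `Q ≠ 0`), so everywhere by continuity. So `TP_iff` for `Re φ` with `S`. -/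
theorem TP_div {k N : ℕ} {v b : ℝ → ℝ} (hv : TP k v) (hb : TP N b) (hv0 : ∃ t, v t ≠ 0) {z : Fin (2 * k) → ℝ}
    (hz : ∀ i, v (z i) = 0) (hdist : ∀ i j, i ≠ j → ∀ m : ℤ, z i ≠ z j + 2 * π * m) (hbz : ∀ i, b (z i) = 0) :
    (∀ t, b t = 0) ∨ (k ≤ N ∧ ∃ φ : ℝ → ℝ, TP (N - k) φ ∧ ∀ t, b t = v t * φ t) := by
  obtain ⟨Q, c, hc, hQ, hQd, hQe⟩ := T3_factor hv hv0 hz hdist
  obtain ⟨R, hR, hRe⟩ := TP_iff.1 hb
  have hinj : Function.Injective (fun i => Complex.exp (z i * Complex.I)) := by
    intro i j hij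
    by_contra hne
    obtain ⟨m, hm⟩ := T3_exp_eq (z i) (z j) hij
    exact hdist i j hne m hm
  have hdvd : (∏ i, (X - C (Complex.exp (z i * Complex.I)))) ∣ R := by
    apply Finset.prod_dvd_of_coprime
    · intro i _ j _ hij
      exact Polynomial.pairwise_coprime_X_sub_C hinj hij
    · intro i _
      rw [Polynomial.dvd_iff_isRoot, Polynomial.IsRoot, ← hRe (z i), hbz i]
      simp
  obtain ⟨S0, hS0⟩ := hdvd
  obtain ⟨S, hS⟩ : ∃ S : ℂ[X], S = C c⁻¹ * S0 := ⟨_, rfl⟩
  have hRQS : R = Q * S := by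
    rw [hQ, hS, hS0]
    have h1 : (C c : ℂ[X]) * C c⁻¹ = 1 := by rw [← C_mul, mul_inv_cancel₀ hc, C_1]
    calc (∏ i, (X - C (Complex.exp (z i * Complex.I)))) * S0
        = (∏ i, (X - C (Complex.exp (z i * Complex.I)))) * (C c * C c⁻¹) * S0 := by rw [h1, mul_one]
      _ = _ := by ring
  by_cases hR0 : R = 0
  · left
    intro t
    have h1 := hRe t
    rw [hR0, eval_zero] at h1
    rcases mul_eq_zero.1 h1 with h2 | h2
    · exact_mod_cast h2
    · exact absurd h2 (Complex.exp_ne_zero _)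
  · right
    have hQ0 : Q ≠ 0 := by
      intro h
      rw [h, zero_mul] at hRQS
      exact hR0 hRQS
    have hS0' : S ≠ 0 := by
      intro h
      rw [h, mul_zero] at hRQS
      exact hR0 hRQS
    have hdR : R.natDegree = 2 * k + S.natDegree := by
      rw [hRQS, Polynomial.natDegree_mul hQ0 hS0', hQd]
    have hkN : k ≤ N := by omega
    refine ⟨hkN, ?_⟩
    obtain ⟨ψ, hψ⟩ : ∃ ψ : ℝ → ℂ, ψ = fun t : ℝ => S.eval (Complex.exp ((t : ℂ) * Complex.I)) * Complex.exp (-(((N - k : ℕ) : ℂ) * (t : ℂ) * Complex.I)) :=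
      ⟨_, rfl⟩
    have hψS : ∀ t : ℝ, ψ t * Complex.exp (((N - k : ℕ) : ℂ) * t * Complex.I) = S.eval (Complex.exp (t * Complex.I)) := by
      intro t
      rw [hψ]
      simp only
      rw [mul_assoc, ← Complex.exp_add, neg_add_cancel, Complex.exp_zero, mul_one]
    have hbv : ∀ t : ℝ, (b t : ℂ) = v t * ψ t := by
      intro t
      have h1 := hRe t
      rw [hRQS, eval_mul, ← hQe t, ← hψS t] at h1
      have h2 : Complex.exp ((N : ℂ) * t * Complex.I) = Complex.exp (k * t * Complex.I) *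
          Complex.exp (((N - k : ℕ) : ℂ) * t * Complex.I) := by
        rw [← Complex.exp_add]
        congr 1
        rw [Nat.cast_sub hkN]
        ring
      rw [h2] at h1
      have h3 : Complex.exp (k * t * Complex.I) * Complex.exp (((N - k : ℕ) : ℂ) * t * Complex.I) ≠ 0 :=
        mul_ne_zero (Complex.exp_ne_zero _) (Complex.exp_ne_zero _)
      apply mul_right_cancel₀ h3
      rw [h1]
      ring
    have hcont : Continuous ψ := by
      rw [hψ]
      have h1 : Continuous (fun t : ℝ => Complex.exp (t * Complex.I)) := by fun_prop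
      have h2 : Continuous (fun t : ℝ => S.eval (Complex.exp (t * Complex.I))) := S.continuous.comp h1
      have h3 : Continuous (fun t : ℝ => Complex.exp (-(((N - k : ℕ) : ℂ) * t * Complex.I))) := by fun_prop
      exact h2.mul h3
    have him : ∀ t, (ψ t).im = 0 := by
      intro t0
      by_contra hne
      have hopen : IsOpen {t : ℝ | (ψ t).im ≠ 0} := by
        have h1 : Continuous (fun t => (ψ t).im) := Complex.continuous_im.comp hcont
        exact isOpen_ne_fun h1 continuous_const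
      obtain ⟨r, hr, hball⟩ := Metric.isOpen_iff.1 hopen t0 hne
      have hv00 : ∀ t ∈ Ioo (t0 - r) (t0 + r), Q.eval (Complex.exp (t * Complex.I)) = 0 := by
        intro t ht
        have h1 : (ψ t).im ≠ 0 := by
          apply hball
          rw [Metric.mem_ball, Real.dist_eq, abs_lt]
          constructor <;> linarith [ht.1, ht.2]
        have h2 := congrArg Complex.im (hbv t)
        have h3 : v t * (ψ t).im = 0 := by
          have h4 : ((v t : ℂ) * ψ t).im = v t * (ψ t).im := by simp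
          rw [← h4, ← h2]
          simp
        have h5 : v t = 0 := (mul_eq_zero.1 h3).resolve_right h1
        rw [← hQe t, h5]
        simp
      exact hQ0 (T3_inf Q _ _ (by linarith) hv00)
    refine ⟨fun t => (ψ t).re, ?_, ?_⟩
    · refine TP_iff.2 ⟨S, by omega, ?_⟩
      intro t
      have h1 : (((ψ t).re : ℝ) : ℂ) = ψ t := by
        apply Complex.ext
        · simp
        · simp [him t]
      rw [h1]
      exact hψS t
    · intro t
      have h2 := congrArg Complex.re (hbv t)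
      simpa using h2

/-- A nonzero trigonometric polynomial of degree `≤ k` with `2k` distinct zeros `z i` (mod `2π`) has no other zeros. (The polynomial `Q` of `TP_iff` has degree `≤ 2k` and the
roots `e^{i z_i}`, `Polynomial.card_roots'`; a further zero `t` gives a further root.) -/
theorem TP_zeros {k : ℕ} {v : ℝ → ℝ} (hv : TP k v) (hv0 : ∃ t, v t ≠ 0) {z : Fin (2 * k) → ℝ}
    (hz : ∀ i, v (z i) = 0) (hdist : ∀ i j, i ≠ j → ∀ m : ℤ, z i ≠ z j + 2 * π * m) {t : ℝ} (ht : v t = 0) :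
    ∃ i, ∃ m : ℤ, t = z i + 2 * π * m := by
  obtain ⟨Q, c, hc, hQ, hQd, hQe⟩ := T3_factor hv hv0 hz hdist
  have h1 := hQe t
  rw [ht, hQ, eval_mul, eval_prod, eval_C] at h1
  have h2 : ∏ i, (X - C (Complex.exp (z i * Complex.I))).eval (Complex.exp (t * Complex.I)) = 0 := by
    rcases mul_eq_zero.1 (h1.symm.trans (by simp)) with h | h
    · exact h
    · exact absurd h hc
  obtain ⟨i, _, hi⟩ := Finset.prod_eq_zero_iff.1 h2
  rw [eval_sub, eval_X, eval_C, sub_eq_zero] at hi
  obtain ⟨m, hm⟩ := T3_exp_eq t (z i) hi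
  exact ⟨i, m, hm⟩

end Pool.Agent.AbelLB
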