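import Pool.Agent.Lib.MP_bb703b_an.B.K2
import Pool.Agent.Lib.MP_bb703b_an.B.T3

set_option autoImplicit false

open Real Set MeasureTheory intervalIntegral Polynomial

/-! Row bb-K3. The kernel. -/

namespace Pool.Agent.AbelLB

/-- If `w' φ` is in the kernel then so is `φ'`: `∫ φ' P(w) = -∫ φ P'(w) w' = 0` (integration by parts, periodicity). -/
theorem Ker.step {w w' φ φ' : ℝ → ℝ} (h1 : ∀ t, HasDerivAt w (w' t) t) (hw' : Continuous w') (h2 : ∀ t, HasDerivAt φ (φ' t) t) (hφ' : Continuous φ')
    (pw : ∀ t, w (t + 2 * π) = w t) (pφ : ∀ t, φ (t + 2 * π) = φ t) (hK : Ker w (fun t => w' t * φ t)) : Ker w φ' := by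
  intro P
  have hwc : Continuous w := continuous_iff_continuousAt.2 fun t => (h1 t).continuousAt
  have hpd : ∀ t, HasDerivAt (fun s => P.eval (w s)) ((Polynomial.derivative P).eval (w t) * w' t) t := by
    intro t
    exact (Polynomial.hasDerivAt P (w t)).comp t (h1 t)
  have hc1 : Continuous (fun t => (Polynomial.derivative P).eval (w t) * w' t) :=
    ((Polynomial.derivative P).continuous.comp hwc).mul hw'
  have hibp := intervalIntegral.integral_mul_deriv_eq_deriv_mul (a := (0:ℝ)) (b := 2 * π)
    (u := fun s => P.eval (w s)) (v := φ) (u' := fun t => (Polynomial.derivative P).eval (w t) * w' t) (v' := φ')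
    (fun t _ => hpd t) (fun t _ => h2 t) (hc1.intervalIntegrable _ _) (hφ'.intervalIntegrable _ _)
  have e1 : w (2 * π) = w 0 := by
    have := pw 0
    rwa [zero_add] at this
  have e2 : φ (2 * π) = φ 0 := by
    have := pφ 0
    rwa [zero_add] at this
  have e3 : ∫ t in (0:ℝ)..(2 * π), (Polynomial.derivative P).eval (w t) * w' t * φ t = 0 := by
    refine Eq.trans ?_ (hK (Polynomial.derivative P))
    apply intervalIntegral.integral_congr
    intro t _
    show (Polynomial.derivative P).eval (w t) * w' t * φ t = w' t * φ t * (Polynomial.derivative P).eval (w t)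
    ring
  rw [e3] at hibp
  simp only [e1, e2] at hibp
  have e4 : ∫ t in (0:ℝ)..(2 * π), φ' t * P.eval (w t) = ∫ t in (0:ℝ)..(2 * π), P.eval (w t) * φ' t := by
    apply intervalIntegral.integral_congr
    intro t _
    show φ' t * P.eval (w t) = P.eval (w t) * φ' t
    ring
  rw [e4, hibp]
  ring

/-- An antiderivative of a real polynomial. -/
private theorem K3_anti (g : ℝ[X]) : ∃ G : ℝ[X], Polynomial.derivative G = g ∧ G.natDegree ≤ g.natDegree + 1 := by
  refine ⟨∑ i ∈ Finset.range (g.natDegree + 1), Polynomial.C (g.coeff i / ((i : ℝ) + 1)) * Polynomial.X ^ (i + 1), ?_, ?_⟩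
  · rw [Polynomial.derivative_sum]
    conv_rhs => rw [g.as_sum_range_C_mul_X_pow]
    apply Finset.sum_congr rfl
    intro i _
    have hi : ((i : ℝ) + 1) ≠ 0 := by positivity
    rw [Polynomial.derivative_C_mul_X_pow, Nat.add_sub_cancel]
    push_cast
    rw [div_mul_cancel₀ _ hi]
  · apply Polynomial.natDegree_sum_le_of_forall_le
    intro i hi
    refine (Polynomial.natDegree_C_mul_X_pow_le _ _).trans ?_
    have := Finset.mem_range.1 hi
    omega

/-- The kernel consists of the functions `g(w) w'`. Strong induction on `N`: `b` vanishes at the `z i` (`crit_zero`, `Good`), so by `TP_div` (`v = deriv w`) `b = 0` (take `g = 0`) or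
`b = w' φ`, `deg φ ≤ N - k`; `φ' = deriv φ` is in the kernel (`Ker.step`), so `φ' = g₁(w) w'` with `g₁ = 0` or `k (deg g₁ + 1) ≤ N - k`; so `φ = G₁(w) + c` with `G₁' = g₁`
(`g = G₁ + c`, `natDegree g ≤ natDegree g₁ + 1`, or `g` constant and `k (0 + 1) ≤ N`). -/
theorem ker_form {k : ℕ} (hk : 1 ≤ k) {w : ℝ → ℝ} (hw : TP k w) (hw0 : ∃ t, deriv w t ≠ 0) {z : Fin (2 * k) → ℝ} (hz : Good k w z) (N : ℕ)
    {b : ℝ → ℝ} (hb : TP N b) (hK : Ker w b) :
    ∃ g : ℝ[X], (g = 0 ∨ k * (g.natDegree + 1) ≤ N) ∧ ∀ t, b t = g.eval (w t) * deriv w t := by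
  induction N using Nat.strong_induction_on generalizing b with
  | _ N ih =>
    have hbz : ∀ i, b (z i) = 0 := by
      intro i
      refine crit_zero (w := w) (w' := deriv w) (w'' := deriv (deriv w)) (b := b) hw.hd hw.deriv'.hd
        hw.deriv'.deriv'.cont hw.per hb.cont hb.per hK (hz.zero i) ?_
      intro t ht hwt
      obtain ⟨j, m, hm⟩ := hz.all t ht
      have hji : j = i := by
        by_contra hne
        apply hz.val j i hne
        rw [← hwt, hm]
        have hp : Function.Periodic w (2 * π) := hw.per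
        have := hp.int_mul m (z j)
        rw [← this]
        congr 1
        ring
      rw [hji] at hm
      exact ⟨m, hm⟩
    rcases TP_div hw.deriv' hb hw0 hz.zero hz.dist hbz with h0 | ⟨hkN, φ, hφ, hbφ⟩
    · refine ⟨0, Or.inl rfl, ?_⟩
      intro t
      rw [h0 t, Polynomial.eval_zero, zero_mul]
    · have hKφ : Ker w (deriv φ) := by
        have hK' : Ker w (fun t => deriv w t * φ t) := by
          have : b = fun t => deriv w t * φ t := funext hbφ
          rwa [this] at hK
        exact Ker.step hw.hd hw.deriv'.cont hφ.hd hφ.deriv'.cont hw.per hφ.per hK'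
      obtain ⟨g₁, hg₁, hφg⟩ := ih (N - k) (by omega) hφ.deriv' hKφ
      obtain ⟨G, hG, hGd⟩ := K3_anti g₁
      have hder : ∀ t, HasDerivAt (fun s => φ s - G.eval (w s)) 0 t := by
        intro t
        have a1 := hφ.hd t
        have a2 : HasDerivAt (fun s => G.eval (w s)) ((Polynomial.derivative G).eval (w t) * deriv w t) t :=
          (Polynomial.hasDerivAt G (w t)).comp t (hw.hd t)
        have a3 := a1.sub a2
        rw [hG, hφg t, sub_self] at a3
        exact a3
      have hconst : ∀ t, φ t - G.eval (w t) = φ 0 - G.eval (w 0) := by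
        intro t
        exact is_const_of_deriv_eq_zero (f := fun s => φ s - G.eval (w s))
          (fun s => (hder s).differentiableAt) (fun s => (hder s).deriv) t 0
      by_cases hz1 : g₁ = 0
      · -- the antiderivative is constant along w
        have hGz : G.natDegree = 0 := Polynomial.derivative_eq_zero.1 (by rw [hG, hz1])
        refine ⟨G + Polynomial.C (φ 0 - G.eval (w 0)), Or.inr ?_, ?_⟩
        · rw [Polynomial.natDegree_add_C, hGz]
          omega
        · intro t
          rw [Polynomial.eval_add, Polynomial.eval_C, ← hconst t, hbφ t]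
          ring
      · have hdeg := hg₁.resolve_left hz1
        refine ⟨G + Polynomial.C (φ 0 - G.eval (w 0)), Or.inr ?_, ?_⟩
        · rw [Polynomial.natDegree_add_C]
          calc k * (G.natDegree + 1) ≤ k * (g₁.natDegree + 1 + 1) := Nat.mul_le_mul_left _ (by omega)
            _ = k * (g₁.natDegree + 1) + k := by ring
            _ ≤ (N - k) + k := Nat.add_le_add_right hdeg _
            _ = N := Nat.sub_add_cancel hkN
        · intro t
          rw [Polynomial.eval_add, Polynomial.eval_C, ← hconst t, hbφ t]
          ring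

end Pool.Agent.AbelLB
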