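import Pool.Agent.Lib.MP_bb703b_an.B.Jd

set_option autoImplicit false

open Real Set MeasureTheory intervalIntegral Polynomial

/-! Row bb-M0. Local linearization. -/

namespace Pool.Agent.AbelLB

/-- Uniform estimates on energies near `E`. `c = f`-bound, powers of `y = E' - 𝔸 t`, `|E' - E| ≤ 2 r`, are bounded, and `s ↦ s^γ - κ(t) s`, `κ(t) = γ (E - 𝔸 t)^(γ-1)`, has small derivative:
for every `η > 0` there is `r > 0` with `|(a - 𝔸 t)^γ - (b - 𝔸 t)^γ - κ(t) (a - b)| ≤ η |a - b|` for all `t ∈ [0,2π]` and all `a, b` with `|a - E| ≤ 2r`, `|b - E| ≤ 2r`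
(mean value inequality; `s ↦ s^(γ-1)` is uniformly continuous on a compact interval of `(0,∞)`; `gap`). -/
theorem local_lin {γ : ℝ} {𝔸 : ℝ → ℝ} (hA : Continuous 𝔸) {E : ℝ} (hE : ∀ t, 𝔸 t < E) {η : ℝ} (hη : 0 < η) :
    ∃ r > 0, (∀ t ∈ Icc 0 (2 * π), 𝔸 t < E - 2 * r) ∧ ∀ t ∈ Icc 0 (2 * π), ∀ a b : ℝ, |a - E| ≤ 2 * r → |b - E| ≤ 2 * r →
      |(a - 𝔸 t) ^ γ - (b - 𝔸 t) ^ γ - γ * (E - 𝔸 t) ^ (γ - 1) * (a - b)| ≤ η * |a - b| := by
  obtain ⟨g, hg, hgap⟩ := gap hA hE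
  obtain ⟨B, hB⟩ := (isCompact_Icc (a := (0:ℝ)) (b := 2 * π)).bddBelow_image hA.continuousOn
  have hBt : ∀ t ∈ Icc (0:ℝ) (2 * π), B ≤ 𝔸 t := fun t ht => hB (Set.mem_image_of_mem _ ht)
  have hcont : ContinuousOn (fun s : ℝ => s ^ (γ - 1)) (Icc (g / 2) (E - B + g / 2)) := by
    intro s hs
    have hs0 : s ≠ 0 := by
      have := hs.1
      intro h
      rw [h] at this
      linarith
    exact (Real.continuousAt_rpow_const s (γ - 1) (Or.inl hs0)).continuousWithinAt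
  have huc := (isCompact_Icc (a := g / 2) (b := E - B + g / 2)).uniformContinuousOn_of_continuous hcont
  rw [Metric.uniformContinuousOn_iff] at huc
  obtain ⟨δ, hδ, hu⟩ := huc (η / (|γ| + 1)) (by positivity)
  have hr0 : 0 < min (g / 8) (δ / 4) := lt_min (by linarith) (by linarith)
  have hr1 : min (g / 8) (δ / 4) ≤ g / 8 := min_le_left _ _
  have hr2 : min (g / 8) (δ / 4) ≤ δ / 4 := min_le_right _ _
  generalize min (g / 8) (δ / 4) = r at hr0 hr1 hr2
  refine ⟨r, hr0, fun t ht => ?_, fun t ht a b ha hb => ?_⟩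
  · have := hgap t ht
    linarith
  · have h1 := hgap t ht
    have h2 := hBt t ht
    rw [abs_le] at ha hb
    have key := Convex.norm_image_sub_le_of_norm_hasDerivWithin_le
      (f := fun s : ℝ => s ^ γ - γ * (E - 𝔸 t) ^ (γ - 1) * s)
      (f' := fun s : ℝ => γ * s ^ (γ - 1) - γ * (E - 𝔸 t) ^ (γ - 1))
      (C := η) (s := Icc (E - 𝔸 t - 2 * r) (E - 𝔸 t + 2 * r)) (x := b - 𝔸 t) (y := a - 𝔸 t)
      (fun s hs => by
        have hs0 : s ≠ 0 := by
          have := hs.1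
          intro h
          rw [h] at this
          linarith
        have hd := Real.hasDerivAt_rpow_const (x := s) (p := γ) (Or.inl hs0)
        have hd2 := hd.sub ((hasDerivAt_id s).const_mul (γ * (E - 𝔸 t) ^ (γ - 1)))
        simp only [mul_one] at hd2
        exact hd2.hasDerivWithinAt)
      (fun s hs => by
        have hs1 := hs.1
        have hs2 := hs.2
        have hd := hu s ⟨by linarith, by linarith⟩ (E - 𝔸 t) ⟨by linarith, by linarith⟩ (by
          rw [Real.dist_eq, abs_lt]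
          constructor <;> linarith)
        rw [Real.dist_eq] at hd
        rw [Real.norm_eq_abs, ← mul_sub, abs_mul]
        have hγ : 0 < |γ| + 1 := by positivity
        calc |γ| * |s ^ (γ - 1) - (E - 𝔸 t) ^ (γ - 1)|
            ≤ (|γ| + 1) * (η / (|γ| + 1)) := by
              apply mul_le_mul (by linarith) hd.le (abs_nonneg _) hγ.le
          _ = η := by field_simp)
      (convex_Icc _ _) ⟨by linarith [hb.1], by linarith [hb.2]⟩ ⟨by linarith [ha.1], by linarith [ha.2]⟩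
    rw [Real.norm_eq_abs, Real.norm_eq_abs] at key
    have e1 : (a - 𝔸 t) ^ γ - (b - 𝔸 t) ^ γ - γ * (E - 𝔸 t) ^ (γ - 1) * (a - b)
        = ((a - 𝔸 t) ^ γ - γ * (E - 𝔸 t) ^ (γ - 1) * (a - 𝔸 t)) - ((b - 𝔸 t) ^ γ - γ * (E - 𝔸 t) ^ (γ - 1) * (b - 𝔸 t)) := by ring
    have e2 : a - b = (a - 𝔸 t) - (b - 𝔸 t) := by ring
    rw [e1]
    rw [e2]
    exact key

end Pool.Agent.AbelLB
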