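import Pool.Agent.Lib.MP_bb703b_an.B.Jd
import Pool.Agent.Lib.MP_bb703b_an.Exist2
import Pool.Agent.Lib.MP_bb703b_an.Ex2

set_option autoImplicit false

open Real Set MeasureTheory intervalIntegral Polynomial Pool.Agent.AbelLT

/-! Row bb-M1. Sub- and supersolutions near the orbits. Copy the proofs in Pool/Agent/Lib/MP_bb703b_an/Ex2.lean (and ExZ.lean, `z_to_x`, which does not need `q < p` or `2 ≤ q`): there
`𝔸 = -cos`, `Z t = (p-1)(C + cos t)`, here `Z t = (P-1)(E - 𝔸 t)`, `G t = f t * Z t ^ γ`, `M = ∫ G = (P-1)^γ J`. -/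

namespace Pool.Agent.AbelLB

private theorem M1_uc (r : ℝ) {m0 M0 : ℝ} (hm0 : 0 < m0) {e : ℝ} (he : 0 < e) :
    ∃ d > 0, ∀ x ∈ Icc m0 M0, ∀ y ∈ Icc m0 M0, |x - y| < d → |x ^ r - y ^ r| < e := by
  have h1 : ContinuousOn (fun x : ℝ => x ^ r) (Icc m0 M0) := by
    intro x hx
    have hx0 : x ≠ 0 := (lt_of_lt_of_le hm0 hx.1).ne'
    exact (continuousAt_rpow_const x r (Or.inl hx0)).continuousWithinAt
  have h2 := isCompact_Icc.uniformContinuousOn_of_continuous h1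
  obtain ⟨d, hd, h3⟩ := Metric.uniformContinuousOn_iff.1 h2 e he
  refine ⟨d, hd, fun x hx y hy hxy => ?_⟩
  have h4 := h3 x hx y hy (by rw [Real.dist_eq]; exact hxy)
  rwa [Real.dist_eq] at h4

private theorem M1_z_to_x {P Q : ℕ} (hP : 2 ≤ P) {z : ℝ → ℝ} {z' t : ℝ} (hz : 0 < z t)
    (hd : HasDerivAt z z' t) :
    HasDerivAt (fun s => z s ^ (-(1 / ((P : ℝ) - 1))))
      (-(1 / ((P : ℝ) - 1)) * (z t ^ (-(1 / ((P : ℝ) - 1)))) ^ P * z') t ∧
    (z t ^ (-(1 / ((P : ℝ) - 1)))) ^ P * z t ^ (((P : ℝ) - Q) / ((P : ℝ) - 1)) =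
      (z t ^ (-(1 / ((P : ℝ) - 1)))) ^ Q := by
  have hp1 : (0 : ℝ) < (P : ℝ) - 1 := by
    have : (2 : ℝ) ≤ P := by exact_mod_cast hP
    linarith
  have hpow : ∀ n : ℕ, (z t ^ (-(1 / ((P : ℝ) - 1)))) ^ n = z t ^ (-(1 / ((P : ℝ) - 1)) * n) := by
    intro n
    rw [Real.rpow_mul hz.le, Real.rpow_natCast]
  constructor
  · have h1 := hd.rpow_const (p := -(1 / ((P : ℝ) - 1))) (Or.inl hz.ne')
    refine h1.congr_deriv ?_
    rw [hpow P]
    have e : -(1 / ((P : ℝ) - 1)) * P = -(1 / ((P : ℝ) - 1)) - 1 := by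
      field_simp
      ring
    rw [e]
    ring
  · rw [hpow P, hpow Q, ← Real.rpow_add hz]
    congr 1
    field_simp
    ring

private theorem M1_core {P Q : ℕ} (hP : 2 ≤ P) {𝔸 F f : ℝ → ℝ} (D : Dat 𝔸 F f) {E : ℝ} (hE : ∀ t, 𝔸 t < E)
    (hM0 : J (ga P Q) 𝔸 f E ≠ 0) {δ : ℝ} (hδ : 0 < δ) :
    ∃ ε₀ > 0, ∀ ε : ℝ, 0 < ε → ε < ε₀ → ∃ α : ℝ → ℝ,
      (∃ w' : ℝ → ℝ, ∀ t ∈ Icc 0 (2 * π), HasDerivAt α (w' t) t ∧
        0 < J (ga P Q) 𝔸 f E * (F t * α t ^ P + (ε * f t) * α t ^ Q - w' t)) ∧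
      0 < J (ga P Q) 𝔸 f E * (α (2 * π) - α 0) ∧
      ∀ t ∈ Icc 0 (2 * π), 0 < α t ∧ |α t - ob P 𝔸 E t| < δ := by
  have hπ : (0 : ℝ) < π := Real.pi_pos
  have hp1 : (0 : ℝ) < (P : ℝ) - 1 := by
    have : (2 : ℝ) ≤ (P : ℝ) := by exact_mod_cast hP
    linarith
  set g : ℝ := ((P : ℝ) - Q) / ((P : ℝ) - 1) with hg
  have hga : ga P Q = g := rfl
  rw [hga] at hM0 ⊢
  set r : ℝ := -(1 / ((P : ℝ) - 1)) with hr
  set Z : ℝ → ℝ := fun t => ((P : ℝ) - 1) * (E - 𝔸 t) with hZ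
  have hZc : Continuous Z := continuous_const.mul (continuous_const.sub D.hA)
  have hZpos : ∀ t, 0 < Z t := fun t => mul_pos hp1 (by linarith [hE t])
  obtain ⟨gp, hgp, hgap⟩ := gap D.hA hE
  obtain ⟨M1, hM1⟩ := (isCompact_Icc (a := (0 : ℝ)) (b := 2 * π)).exists_bound_of_continuousOn
    hZc.continuousOn
  set m0 : ℝ := ((P : ℝ) - 1) * gp with hm0
  have hm0pos : 0 < m0 := mul_pos hp1 hgp
  have hZ1 : ∀ t ∈ Icc 0 (2 * π), m0 ≤ Z t := fun t ht =>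
    mul_le_mul_of_nonneg_left (by linarith [hgap t ht]) hp1.le
  have hZ2 : ∀ t ∈ Icc 0 (2 * π), Z t ≤ M1 := fun t ht =>
    (le_abs_self _).trans (hM1 t ht)
  set G : ℝ → ℝ := fun t => f t * Z t ^ g with hG
  have hGc : Continuous G := D.hf.mul (hZc.rpow_const fun t => Or.inl (hZpos t).ne')
  set M : ℝ := ∫ t in (0 : ℝ)..(2 * π), G t with hMdef
  have hMJ : M = ((P : ℝ) - 1) ^ g * J g 𝔸 f E := by
    rw [hMdef, J, ← intervalIntegral.integral_const_mul]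
    congr 1
    funext t
    simp only [hG, hZ]
    rw [Real.mul_rpow hp1.le (by linarith [hE t])]
    ring
  have hcpos : 0 < ((P : ℝ) - 1) ^ g := Real.rpow_pos_of_pos hp1 g
  have hM : M ≠ 0 := by
    rw [hMJ]; exact mul_ne_zero hcpos.ne' hM0
  have hJM : ∀ x : ℝ, 0 < M * x → 0 < J g 𝔸 f E * x := by
    intro x hx
    rw [hMJ, mul_assoc] at hx
    exact (mul_pos_iff_of_pos_left hcpos).1 hx
  set d : ℝ := M / (4 * π) with hd
  set R : ℝ → ℝ := fun t => (∫ s in (0 : ℝ)..t, G s) - d * t with hR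
  have hRd : ∀ t, HasDerivAt R (G t - d) t := by
    intro t
    have h1 := (hGc.integral_hasStrictDerivAt 0 t).hasDerivAt
    have h2 : HasDerivAt (fun s : ℝ => d * s) (d * 1) t := (hasDerivAt_id t).const_mul d
    have h3 := h1.sub h2
    rw [mul_one] at h3
    exact h3
  have hRc : Continuous R := continuous_iff_continuousAt.2 fun t => (hRd t).continuousAt
  obtain ⟨B0, hB0⟩ := (isCompact_Icc (a := (0 : ℝ)) (b := 2 * π)).exists_bound_of_continuousOn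
    hRc.continuousOn
  obtain ⟨Bf, hBf⟩ := (isCompact_Icc (a := (0 : ℝ)) (b := 2 * π)).exists_bound_of_continuousOn
    D.hf.continuousOn
  have h02 : (0:ℝ) ∈ Icc 0 (2 * π) := ⟨le_refl _, by positivity⟩
  have hB00 : 0 ≤ B0 := (norm_nonneg _).trans (hB0 0 h02)
  have hBf0 : 0 ≤ Bf := (norm_nonneg _).trans (hBf 0 h02)
  have hdne : d ≠ 0 := div_ne_zero hM (by positivity)
  have hdpos : 0 < |d| := abs_pos.2 hdne
  set e1 : ℝ := |d| / (Bf + 1) with he1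
  have he1pos : 0 < e1 := by positivity
  obtain ⟨d1, hd1, hu1⟩ := M1_uc g (m0 := m0 / 2) (M0 := M1 + m0) (by positivity) he1pos
  obtain ⟨d2, hd2, hu2⟩ := M1_uc r (m0 := m0 / 2) (M0 := M1 + m0) (by positivity) hδ
  set μ : ℝ := min (m0 / 2) (min d1 d2) with hμ
  have hμpos : 0 < μ := lt_min (by positivity) (lt_min hd1 hd2)
  refine ⟨μ / (((P : ℝ) - 1) * (B0 + 1)), by positivity, fun ε hε hε2 => ?_⟩
  have hεb : ε * (((P : ℝ) - 1) * (B0 + 1)) < μ := (lt_div_iff₀ (by positivity)).1 hε2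
  set z : ℝ → ℝ := fun t => Z t - ε * ((P : ℝ) - 1) * R t with hz
  have hdiff : ∀ t ∈ Icc 0 (2 * π), |z t - Z t| < μ := by
    intro t ht
    have h1 : z t - Z t = -(ε * ((P : ℝ) - 1) * R t) := by
      rw [hz]
      ring
    have h2 := hB0 t ht
    rw [Real.norm_eq_abs] at h2
    rw [h1, abs_neg, abs_mul, abs_of_pos (by positivity : 0 < ε * ((P : ℝ) - 1))]
    have h3 : ε * ((P : ℝ) - 1) * |R t| ≤ ε * ((P : ℝ) - 1) * (B0 + 1) :=
      mul_le_mul_of_nonneg_left (by linarith) (by positivity)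
    calc ε * ((P : ℝ) - 1) * |R t| ≤ ε * ((P : ℝ) - 1) * (B0 + 1) := h3
      _ = ε * (((P : ℝ) - 1) * (B0 + 1)) := by ring
      _ < μ := hεb
  have hzmem : ∀ t ∈ Icc 0 (2 * π), z t ∈ Icc (m0 / 2) (M1 + m0) := by
    intro t ht
    have h1 := abs_lt.1 ((hdiff t ht).trans_le (min_le_left _ _))
    exact ⟨by linarith [h1.1, hZ1 t ht], by linarith [h1.2, hZ2 t ht]⟩
  have hZmem : ∀ t ∈ Icc 0 (2 * π), Z t ∈ Icc (m0 / 2) (M1 + m0) := fun t ht =>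
    ⟨by linarith [hZ1 t ht], by linarith [hZ2 t ht]⟩
  have hzpos : ∀ t ∈ Icc 0 (2 * π), 0 < z t := fun t ht => by linarith [(hzmem t ht).1]
  have hzd : ∀ t, HasDerivAt z (((P : ℝ) - 1) * (-F t) - ε * ((P : ℝ) - 1) * (G t - d)) t := by
    intro t
    have h1 : HasDerivAt Z (((P : ℝ) - 1) * (-F t)) t :=
      ((D.hd t).const_sub E).const_mul _
    exact h1.sub ((hRd t).const_mul _)
  refine ⟨fun t => z t ^ r, ⟨fun t => r * (z t ^ r) ^ P *
    (((P : ℝ) - 1) * (-F t) - ε * ((P : ℝ) - 1) * (G t - d)), fun t ht => ?_⟩, ?_, fun t ht => ?_⟩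
  · obtain ⟨h1, h2⟩ := M1_z_to_x (Q := Q) hP (hzpos t ht) (hzd t)
    refine ⟨h1, hJM _ ?_⟩
    change 0 < M * (F t * (z t ^ r) ^ P + (ε * f t) * (z t ^ r) ^ Q -
      r * (z t ^ r) ^ P * (((P : ℝ) - 1) * (-F t) - ε * ((P : ℝ) - 1) * (G t - d)))
    have h2' : (z t ^ r) ^ P * z t ^ g = (z t ^ r) ^ Q := h2
    rw [← h2']
    have h3 : |z t ^ g - Z t ^ g| < e1 := hu1 _ (hzmem t ht) _ (hZmem t ht)
      ((hdiff t ht).trans_le ((min_le_right _ _).trans (min_le_left _ _)))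
    have h4 : 0 < (z t ^ r) ^ P := pow_pos (rpow_pos_of_pos (hzpos t ht) _) _
    have h5 : M * (F t * (z t ^ r) ^ P + (ε * f t) * ((z t ^ r) ^ P * z t ^ g) -
        r * (z t ^ r) ^ P * (((P : ℝ) - 1) * (-F t) - ε * ((P : ℝ) - 1) * (G t - d))) =
        (z t ^ r) ^ P * ε * (M * d + M * (f t * (z t ^ g - Z t ^ g))) := by
      have h6 : r * ((P : ℝ) - 1) = -1 := by
        rw [hr]
        field_simp
      have h7 : r * (z t ^ r) ^ P * (((P : ℝ) - 1) * (-F t) - ε * ((P : ℝ) - 1) * (G t - d)) =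
          (r * ((P : ℝ) - 1)) * ((z t ^ r) ^ P * (-F t - ε * (G t - d))) := by ring
      rw [h7, h6]
      simp only [hG]
      ring
    rw [h5]
    have h8 : |f t| ≤ Bf := hBf t ht
    have h9 : |M * (f t * (z t ^ g - Z t ^ g))| < M * d := by
      have h10 : M * d = |M| * |d| := by
        rw [hd, abs_div, abs_of_pos (by positivity : 0 < 4 * π), ← mul_div_assoc, ← mul_div_assoc,
          abs_mul_abs_self]
      rw [h10, abs_mul, abs_mul]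
      refine mul_lt_mul_of_pos_left ?_ (abs_pos.2 hM)
      calc |f t| * |z t ^ g - Z t ^ g| ≤ Bf * e1 :=
            mul_le_mul h8 h3.le (abs_nonneg _) (by positivity)
        _ < (Bf + 1) * e1 := mul_lt_mul_of_pos_right (by linarith) he1pos
        _ = |d| := by
            rw [he1]
            field_simp
    have h11 := (abs_lt.1 h9).1
    have h12 : 0 < M * d + M * (f t * (z t ^ g - Z t ^ g)) := by linarith
    positivity
  · -- the ends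
    apply hJM
    have hz0 : z 0 = Z 0 := by
      simp [hz, hR]
    have hZ20 : Z (2 * π) = Z 0 := by
      have h1 : 𝔸 (2 * π) = 𝔸 0 := by
        have := D.pA 0
        rwa [zero_add] at this
      simp only [hZ]
      rw [h1]
    have hz2 : z (2 * π) = Z 0 - ε * ((P : ℝ) - 1) * (M / 2) := by
      have h1 : R (2 * π) = M / 2 := by
        change (∫ s in (0 : ℝ)..(2 * π), G s) - d * (2 * π) = M / 2
        rw [← hMdef, hd]
        field_simp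
        ring
      change Z (2 * π) - ε * ((P : ℝ) - 1) * R (2 * π) = _
      rw [h1, hZ20]
    have hr0 : r < 0 := by
      rw [hr]
      exact neg_neg_of_pos (by positivity)
    have hp0 : 0 < z 0 := hzpos 0 h02
    have hp2 : 0 < z (2 * π) := hzpos (2 * π) ⟨by positivity, le_refl _⟩
    change 0 < M * (z (2 * π) ^ r - z 0 ^ r)
    rcases lt_or_gt_of_ne hM with h | h
    · have h1 : z 0 < z (2 * π) := by
        rw [hz0, hz2]
        have : 0 < ε * ((P : ℝ) - 1) * (-M) := by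
          have : 0 < -M := by linarith
          positivity
        linarith
      have h2 := rpow_lt_rpow_of_neg hp0 h1 hr0
      exact mul_pos_of_neg_of_neg h (by linarith)
    · have h1 : z (2 * π) < z 0 := by
        rw [hz0, hz2]
        have : 0 < ε * ((P : ℝ) - 1) * M := by positivity
        linarith
      have h2 := rpow_lt_rpow_of_neg hp2 h1 hr0
      exact mul_pos h (by linarith)
  · refine ⟨rpow_pos_of_pos (hzpos t ht) _, ?_⟩
    exact hu2 _ (hzmem t ht) _ (hZmem t ht)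
      ((hdiff t ht).trans_le ((min_le_right _ _).trans (min_le_right _ _)))

theorem sub_of_pos {P Q : ℕ} (hP : 2 ≤ P) {𝔸 F f : ℝ → ℝ} (D : Dat 𝔸 F f) {E : ℝ} (hE : ∀ t, 𝔸 t < E)
    (hM : 0 < J (ga P Q) 𝔸 f E) {δ : ℝ} (hδ : 0 < δ) :
    ∃ ε₀ > 0, ∀ ε : ℝ, 0 < ε → ε < ε₀ → ∃ α : ℝ → ℝ, StrictSub P Q F (fun t => ε * f t) α ∧
      ∀ t ∈ Icc 0 (2 * π), 0 < α t ∧ |α t - ob P 𝔸 E t| < δ := by
  obtain ⟨ε₀, hε₀, h⟩ := M1_core hP D hE hM.ne' hδ
  refine ⟨ε₀, hε₀, fun ε h1 h2 => ?_⟩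
  obtain ⟨α, ⟨w', hw'⟩, h3, h4⟩ := h ε h1 h2
  refine ⟨α, ⟨⟨w', fun t ht => ⟨(hw' t ht).1, ?_⟩⟩, ?_⟩, h4⟩
  · have := (mul_pos_iff_of_pos_left hM).1 (hw' t ht).2
    linarith
  · have := (mul_pos_iff_of_pos_left hM).1 h3
    linarith

theorem super_of_neg {P Q : ℕ} (hP : 2 ≤ P) {𝔸 F f : ℝ → ℝ} (D : Dat 𝔸 F f) {E : ℝ} (hE : ∀ t, 𝔸 t < E)
    (hM : J (ga P Q) 𝔸 f E < 0) {δ : ℝ} (hδ : 0 < δ) :
    ∃ ε₀ > 0, ∀ ε : ℝ, 0 < ε → ε < ε₀ → ∃ β : ℝ → ℝ, StrictSuper P Q F (fun t => ε * f t) β ∧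
      ∀ t ∈ Icc 0 (2 * π), 0 < β t ∧ |β t - ob P 𝔸 E t| < δ := by
  obtain ⟨ε₀, hε₀, h⟩ := M1_core hP D hE hM.ne hδ
  refine ⟨ε₀, hε₀, fun ε h1 h2 => ?_⟩
  obtain ⟨α, ⟨w', hw'⟩, h3, h4⟩ := h ε h1 h2
  have hM' : 0 < -J (ga P Q) 𝔸 f E := by linarith
  refine ⟨α, ⟨⟨w', fun t ht => ⟨(hw' t ht).1, ?_⟩⟩, ?_⟩, h4⟩
  · by_contra hneg
    push Not at hneg
    have := (hw' t ht).2
    nlinarith
  · by_contra hneg
    push Not at hneg
    nlinarith

end Pool.Agent.AbelLB
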