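import Pool.Agent.Lib.MP_bb703b_an.B.M1

set_option autoImplicit false

open Real Set MeasureTheory intervalIntegral Polynomial Pool.Agent.AbelLT

/-! Row bb-M2. Existence between two energies. -/

namespace Pool.Agent.AbelLB

/-- the orbits are ordered. -/
theorem ob_anti {P : ℕ} (hP : 2 ≤ P) {𝔸 : ℝ → ℝ} {E₁ E₂ t : ℝ} (h1 : 𝔸 t < E₁) (h12 : E₁ < E₂) : ob P 𝔸 E₂ t < ob P 𝔸 E₁ t := by
  have hP' : (2:ℝ) ≤ P := by exact_mod_cast hP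
  have h0 : (0:ℝ) < (P:ℝ) - 1 := by linarith
  have h2 : 0 < ((P:ℝ) - 1) * (E₁ - 𝔸 t) := mul_pos h0 (by linarith)
  have h3 : ((P:ℝ) - 1) * (E₁ - 𝔸 t) < ((P:ℝ) - 1) * (E₂ - 𝔸 t) := mul_lt_mul_of_pos_left (by linarith) h0
  have h4 : -(1 / ((P:ℝ) - 1)) < 0 := neg_lt_zero.mpr (by positivity)
  exact Real.rpow_lt_rpow_of_neg h2 h3 h4

theorem ob_pos {P : ℕ} (hP : 2 ≤ P) {𝔸 : ℝ → ℝ} {E t : ℝ} (h : 𝔸 t < E) : 0 < ob P 𝔸 E t := by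
  have hP' : (2:ℝ) ≤ P := by exact_mod_cast hP
  have h0 : (0:ℝ) < (P:ℝ) - 1 := by linarith
  exact Real.rpow_pos_of_pos (mul_pos h0 (by linarith)) _

private theorem M2_cont {P : ℕ} (hP : 2 ≤ P) {𝔸 : ℝ → ℝ} (hA : Continuous 𝔸) {E : ℝ} (h : ∀ t, 𝔸 t < E) :
    Continuous (ob P 𝔸 E) := by
  have hP' : (2:ℝ) ≤ P := by exact_mod_cast hP
  have h0 : (0:ℝ) < (P:ℝ) - 1 := by linarith
  have e : ob P 𝔸 E = fun t => (((P : ℝ) - 1) * (E - 𝔸 t)) ^ (-(1 / ((P : ℝ) - 1))) := rfl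
  rw [e]
  refine Continuous.rpow_const (by fun_prop) (fun t => Or.inl ?_)
  have := h t
  exact (mul_pos h0 (by linarith)).ne'

private theorem M2_gap {P : ℕ} (hP : 2 ≤ P) {𝔸 : ℝ → ℝ} (hA : Continuous 𝔸) {E₁ E₂ : ℝ} (h1 : ∀ t, 𝔸 t < E₁) (h12 : E₁ < E₂) :
    ∃ g > 0, ∀ t ∈ Icc 0 (2 * π), ob P 𝔸 E₂ t + g ≤ ob P 𝔸 E₁ t := by
  have c1 := M2_cont hP hA h1
  have c2 := M2_cont hP hA (fun t => (h1 t).trans h12)
  have hne : (Icc (0:ℝ) (2 * π)).Nonempty := ⟨0, ⟨le_rfl, by positivity⟩⟩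
  obtain ⟨s, _, hs2⟩ := isCompact_Icc.exists_isMinOn hne (c1.sub c2).continuousOn
  refine ⟨ob P 𝔸 E₁ s - ob P 𝔸 E₂ s, sub_pos.mpr (ob_anti hP (h1 s) h12), fun t ht => ?_⟩
  have h3 : ob P 𝔸 E₁ s - ob P 𝔸 E₂ s ≤ ob P 𝔸 E₁ t - ob P 𝔸 E₂ t := hs2 ht
  linarith

/-- Let `J` have opposite signs at `E₁ < E₂`. `ob E₂ < ob E₁` with a gap on `[0,2π]` (`exists_gap` of Count.lean or compactness). If `J(E₂) > 0 > J(E₁)`: a strict subsolution near `ob E₂` and a strict supersolution near `ob E₁`: `exist_sub_super` (Exist.lean). If `J(E₂) < 0 < J(E₁)`: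
`exist_super_sub` (Exist2.lean). `ob` is `2π`-periodic in `t`, so the values at `2π` and `0` agree. -/
theorem exist_near {P Q : ℕ} (hP : 2 ≤ P) {𝔸 F f : ℝ → ℝ} (D : Dat 𝔸 F f) {E₁ E₂ : ℝ} (h1 : ∀ t, 𝔸 t < E₁) (h12 : E₁ < E₂)
    (hJ : J (ga P Q) 𝔸 f E₁ * J (ga P Q) 𝔸 f E₂ < 0) {δ : ℝ} (hδ : 0 < δ) :
    ∃ ε₀ > 0, ∀ ε : ℝ, 0 < ε → ε < ε₀ → ∃ x : ℝ → ℝ, PosPer P Q F (fun t => ε * f t) x ∧
      ob P 𝔸 E₂ 0 - δ < x 0 ∧ x 0 < ob P 𝔸 E₁ 0 + δ := by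
  have h2 : ∀ t, 𝔸 t < E₂ := fun t => (h1 t).trans h12
  obtain ⟨g, hg, hgap⟩ := M2_gap hP D.hA h1 h12
  have hδ' : 0 < min (g / 2) δ := lt_min (by positivity) hδ
  have hg' : min (g / 2) δ ≤ g / 2 := min_le_left _ _
  have hd' : min (g / 2) δ ≤ δ := min_le_right _ _
  have pi0 : (0:ℝ) ≤ 2 * π := by positivity
  have m0 : (0:ℝ) ∈ Icc (0:ℝ) (2 * π) := ⟨le_rfl, pi0⟩
  have m1 : 2 * π ∈ Icc (0:ℝ) (2 * π) := ⟨pi0, le_rfl⟩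
  have per : ∀ E, ob P 𝔸 E (2 * π) = ob P 𝔸 E 0 := by
    intro E
    have := D.pA 0
    rw [zero_add] at this
    simp only [ob, this]
  rcases mul_neg_iff.mp hJ with ⟨hp, hn⟩ | ⟨hn, hp⟩
  · obtain ⟨ε₁, hε₁, H1⟩ := sub_of_pos hP D h1 hp hδ'
    obtain ⟨ε₂, hε₂, H2⟩ := super_of_neg hP D h2 hn hδ'
    refine ⟨min ε₁ ε₂, lt_min hε₁ hε₂, fun ε he he' => ?_⟩
    obtain ⟨α, hα, hα'⟩ := H1 ε he (lt_of_lt_of_le he' (min_le_left _ _))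
    obtain ⟨β, hβ, hβ'⟩ := H2 ε he (lt_of_lt_of_le he' (min_le_right _ _))
    obtain ⟨v, hv, hv1, hv2⟩ := exist_super_sub (p := P) (q := Q) D.hF (continuous_const.mul D.hf) D.pF
      (fun t => congrArg (fun x => ε * x) (D.pf t)) hα hβ (fun t ht => (hβ' t ht).1) (fun t ht => by
        have a1 := abs_lt.mp (hα' t ht).2
        have a2 := abs_lt.mp (hβ' t ht).2
        have a3 := hgap t ht
        linarith [a1.1, a2.2])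
    refine ⟨v, hv, ?_, ?_⟩
    · have a2 := abs_lt.mp (hβ' 0 m0).2
      linarith [a2.1]
    · have a1 := abs_lt.mp (hα' 0 m0).2
      linarith [a1.2]
  · obtain ⟨ε₁, hε₁, H1⟩ := super_of_neg hP D h1 hn hδ'
    obtain ⟨ε₂, hε₂, H2⟩ := sub_of_pos hP D h2 hp hδ'
    refine ⟨min ε₁ ε₂, lt_min hε₁ hε₂, fun ε he he' => ?_⟩
    obtain ⟨β, hβ, hβ'⟩ := H1 ε he (lt_of_lt_of_le he' (min_le_left _ _))
    obtain ⟨α, hα, hα'⟩ := H2 ε he (lt_of_lt_of_le he' (min_le_right _ _))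
    obtain ⟨v, hv, hv1, hv2⟩ := exist_sub_super (p := P) (q := Q) D.hF (continuous_const.mul D.hf) D.pF
      (fun t => congrArg (fun x => ε * x) (D.pf t)) hα hβ (fun t ht => (hα' t ht).1) (fun t ht => by
        have a1 := abs_lt.mp (hα' t ht).2
        have a2 := abs_lt.mp (hβ' t ht).2
        have a3 := hgap t ht
        linarith [a1.2, a2.1])
    refine ⟨v, hv, ?_, ?_⟩
    · have a1 := abs_lt.mp (hα' (2 * π) m1).2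
      rw [per] at a1
      linarith [a1.1]
    · have a2 := abs_lt.mp (hβ' (2 * π) m1).2
      rw [per] at a2
      linarith [a2.2]

end Pool.Agent.AbelLB
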