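import Pool.Agent.Lib.MP_bb703b_an.B.Df

set_option autoImplicit false

open Real Set MeasureTheory intervalIntegral Polynomial

/-! Row bb-St. A priori bound. -/

namespace Pool.Agent.AbelLB

/-- mean value inequality with the bound known on `[0, s]`. -/
private theorem St_mvt {y y' : ℝ → ℝ} {r K T s : ℝ} (hs0 : 0 ≤ s) (hsT : s ≤ T)
    (hy : ∀ t ∈ Icc 0 T, HasDerivAt y (y' t) t)
    (hb : ∀ t ∈ Icc 0 T, |y t - y 0| ≤ r → |y' t| ≤ K) (hin : ∀ t ∈ Icc 0 s, |y t - y 0| ≤ r) :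
    |y s - y 0| ≤ K * s := by
  have h := Convex.norm_image_sub_le_of_norm_hasDerivWithin_le (f := y) (f' := y') (C := K)
    (s := Icc 0 s) (x := 0) (y := s)
    (fun x hx => (hy x ⟨hx.1, hx.2.trans hsT⟩).hasDerivWithinAt)
    (fun x hx => by
      rw [Real.norm_eq_abs]
      exact hb x ⟨hx.1, hx.2.trans hsT⟩ (hin x hx))
    (convex_Icc 0 s) ⟨le_refl 0, hs0⟩ ⟨hs0, le_refl s⟩
  rw [Real.norm_eq_abs, Real.norm_eq_abs, sub_zero, abs_of_nonneg hs0] at h
  exact h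

/-- If `|y'| ≤ K` while `|y - y 0| ≤ r` and `K T < r` then `|y t - y 0| ≤ K t` on `[0,T]`. First exit time: the closed set of `t` in `[0,T]` with `|y t - y 0| ≥ r` is empty, otherwise at its
least element `t₁ > 0` one has `|y t₁ - y 0| ≤ K t₁ < r` (mean value inequality on `[0,t₁]`, where `|y - y 0| ≤ r`). -/
theorem stay {y y' : ℝ → ℝ} {r K T : ℝ} (hr : 0 < r) (hK : 0 ≤ K) (hy : ∀ t ∈ Icc 0 T, HasDerivAt y (y' t) t)
    (hb : ∀ t ∈ Icc 0 T, |y t - y 0| ≤ r → |y' t| ≤ K) (hKT : K * T < r) : ∀ t ∈ Icc 0 T, |y t - y 0| ≤ K * t := by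
  have hcont : ContinuousOn (fun t => |y t - y 0|) (Icc 0 T) := fun t ht =>
    (((hy t ht).continuousAt.sub continuousAt_const).abs).continuousWithinAt
  have hlt : ∀ t ∈ Icc 0 T, |y t - y 0| < r := by
    by_contra hcon
    push Not at hcon
    obtain ⟨t₀, ht₀, hrt₀⟩ := hcon
    have hcl : IsClosed (Icc 0 T ∩ (fun t => |y t - y 0|) ⁻¹' (Ici r)) :=
      hcont.preimage_isClosed_of_isClosed isClosed_Icc isClosed_Ici
    have hne : (Icc 0 T ∩ (fun t => |y t - y 0|) ⁻¹' (Ici r)).Nonempty := ⟨t₀, ht₀, hrt₀⟩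
    have hbd : BddBelow (Icc 0 T ∩ (fun t => |y t - y 0|) ⁻¹' (Ici r)) := ⟨0, fun x hx => hx.1.1⟩
    have hmem := hcl.csInf_mem hne hbd
    have hmin : ∀ s ∈ Icc 0 T ∩ (fun t => |y t - y 0|) ⁻¹' (Ici r),
        sInf (Icc 0 T ∩ (fun t => |y t - y 0|) ⁻¹' (Ici r)) ≤ s := fun s hs => csInf_le hbd hs
    generalize sInf (Icc 0 T ∩ (fun t => |y t - y 0|) ⁻¹' (Ici r)) = t₁ at hmem hmin
    have ht1 : t₁ ∈ Icc 0 T := hmem.1
    have hr1 : r ≤ |y t₁ - y 0| := hmem.2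
    have hpos : 0 < t₁ := by
      rcases ht1.1.lt_or_eq with h | h
      · exact h
      · exfalso
        rw [← h, sub_self, abs_zero] at hr1
        linarith
    have hbefore : ∀ s ∈ Ico 0 t₁, |y s - y 0| ≤ r := by
      intro s hs
      by_contra hc
      push Not at hc
      have := hmin s ⟨⟨hs.1, hs.2.le.trans ht1.2⟩, hc.le⟩
      linarith [hs.2]
    have hstep : ∀ s ∈ Ico 0 t₁, |y s - y 0| ≤ K * T := by
      intro s hs
      have h1 := St_mvt (s := s) hs.1 (hs.2.le.trans ht1.2) hy hb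
        (fun t ht => hbefore t ⟨ht.1, lt_of_le_of_lt ht.2 hs.2⟩)
      exact h1.trans (mul_le_mul_of_nonneg_left (hs.2.le.trans ht1.2) hK)
    have hlim : Filter.Tendsto (fun t => |y t - y 0|) (nhdsWithin t₁ (Iio t₁)) (nhds |y t₁ - y 0|) :=
      (((hy t₁ ht1).continuousAt.sub continuousAt_const).abs).tendsto.mono_left nhdsWithin_le_nhds
    have hev : ∀ᶠ s in nhdsWithin t₁ (Iio t₁), |y s - y 0| ≤ K * T := by
      have h0 : Ico 0 t₁ ∈ nhdsWithin t₁ (Iio t₁) := Ico_mem_nhdsLT hpos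
      filter_upwards [h0] with s hs
      exact hstep s hs
    have := le_of_tendsto hlim hev
    linarith
  intro t ht
  exact St_mvt ht.1 ht.2 hy hb (fun s hs => (hlt s ⟨hs.1, hs.2.trans ht.2⟩).le)

end Pool.Agent.AbelLB
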