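import Pool.Agent.Lib.MP_bb703b_an.B.M0
import Pool.Agent.Lib.MP_bb703b_an.B.St

set_option autoImplicit false

open Real Set MeasureTheory intervalIntegral Polynomial

/-! Row bb-M3. Uniqueness in terms of the energy. -/

namespace Pool.Agent.AbelLB

/-- one solution stays near `E` -/
private theorem M3_near {γ : ℝ} {𝔸 f : ℝ → ℝ} {E r F0 M0 ε : ℝ} (hr : 0 < r)
    (hM0 : ∀ t ∈ Icc 0 (2 * π), ∀ a : ℝ, |a - E| ≤ 2 * r → |(a - 𝔸 t) ^ γ| ≤ M0)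
    (hF0 : ∀ t ∈ Icc 0 (2 * π), |f t| ≤ F0) (hF : 0 ≤ F0) (hM : 0 ≤ M0) (hε : 0 < ε)
    (hεr : ε * (F0 * M0) * (2 * π) < r) {h : ℝ → ℝ}
    (hd : ∀ t, HasDerivAt h (-(ε * (f t * (h t - 𝔸 t) ^ γ))) t) (h0 : |h 0 - E| ≤ r) :
    ∀ t ∈ Icc 0 (2 * π), |h t - E| ≤ 2 * r := by
  have hK : 0 ≤ ε * (F0 * M0) := by positivity
  have h1 := stay (y := h) (y' := fun t => -(ε * (f t * (h t - 𝔸 t) ^ γ))) (r := r)
    (K := ε * (F0 * M0)) (T := 2 * π) hr hK (fun t _ => hd t) (by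
      intro t ht hle
      have h2 : |h t - E| ≤ 2 * r := by
        calc |h t - E| = |(h t - h 0) + (h 0 - E)| := by ring_nf
          _ ≤ |h t - h 0| + |h 0 - E| := abs_add_le _ _
          _ ≤ 2 * r := by linarith
      have h3 := hM0 t ht (h t) h2
      have h4 := hF0 t ht
      show |-(ε * (f t * (h t - 𝔸 t) ^ γ))| ≤ ε * (F0 * M0)
      rw [abs_neg, abs_mul, abs_mul, abs_of_pos hε]
      exact mul_le_mul_of_nonneg_left (mul_le_mul h4 h3 (abs_nonneg _) hF) hε.le) hεr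
  intro t ht
  have h2 := h1 t ht
  have h3 : ε * (F0 * M0) * t ≤ ε * (F0 * M0) * (2 * π) := mul_le_mul_of_nonneg_left ht.2 hK
  calc |h t - E| = |(h t - h 0) + (h 0 - E)| := by ring_nf
    _ ≤ |h t - h 0| + |h 0 - E| := abs_add_le _ _
    _ ≤ 2 * r := by linarith

/-- Uniqueness in terms of the energies. Let `h₁`, `h₂` be two solutions of `h' = -ε' f (h-𝔸)^γ`, `2π`-periodic, `|h_i 0 - E| ≤ r`. With `r` from `local_lin` (`η` small) and `ε'` small: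
`|h_i t - E| ≤ 2r` on `[0,2π]` (`stay`: `|(h-𝔸)^γ|` is bounded for `|h-E| ≤ 2r`). Put `δ = h₁ - h₂`, `|δ'| ≤ ε' C |δ|` (`local_lin`), so `|δ t - δ 0| ≤ ω |δ 0|` with `ω → 0` as `ε' → 0`
(Gronwall, `norm_le_gronwallBound_of_norm_deriv_right_le`, or `stay`-like). Periodicity: `∫ f (h_i-𝔸)^γ = 0`, so
`0 = ∫ f ((h₁-𝔸)^γ - (h₂-𝔸)^γ) = δ 0 · γ J(γ-1)(E) + error`, `|error| ≤ |δ 0| (‖f κ‖ 2π ω + 2π η ‖f‖ (1 + ω))`; if `γ J(γ-1) ≠ 0` then `δ 0 = 0` for small `η`, `ω`. -/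
theorem unique_energy {γ : ℝ} (hγ : γ ≠ 0) {𝔸 f : ℝ → ℝ} (hA : Continuous 𝔸) (hf : Continuous f) {E : ℝ} (hE : ∀ t, 𝔸 t < E)
    (hJ : J (γ - 1) 𝔸 f E ≠ 0) :
    ∃ r > 0, ∃ ε₀ > 0, ∀ ε : ℝ, 0 < ε → ε < ε₀ → ∀ h₁ h₂ : ℝ → ℝ,
      (∀ t, HasDerivAt h₁ (-(ε * (f t * (h₁ t - 𝔸 t) ^ γ))) t) → (∀ t, HasDerivAt h₂ (-(ε * (f t * (h₂ t - 𝔸 t) ^ γ))) t) →
      h₁ (2 * π) = h₁ 0 → h₂ (2 * π) = h₂ 0 → |h₁ 0 - E| ≤ r → |h₂ 0 - E| ≤ r → h₁ 0 = h₂ 0 := by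
  have hT : 0 < 2 * π := by positivity
  set T : ℝ := 2 * π with hTdef
  set I : ℝ := γ * J (γ - 1) 𝔸 f E with hI
  have hI0 : 0 < |I| := abs_pos.2 (mul_ne_zero hγ hJ)
  have hpos : ∀ t, 0 < E - 𝔸 t := fun t => sub_pos.2 (hE t)
  have hcp : ∀ s : ℝ, Continuous fun t => (E - 𝔸 t) ^ s := fun s =>
    (continuous_const.sub hA).rpow_const fun t => Or.inl (hpos t).ne'
  obtain ⟨F1, hF1⟩ := isCompact_Icc.exists_bound_of_continuousOn (s := Icc (0:ℝ) T) hf.continuousOn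
  obtain ⟨K1, hK1⟩ := isCompact_Icc.exists_bound_of_continuousOn (s := Icc (0:ℝ) T)
    ((continuous_const.mul (hcp (γ - 1))).continuousOn (s := Icc (0:ℝ) T) :
      ContinuousOn (fun t => γ * (E - 𝔸 t) ^ (γ - 1)) _)
  obtain ⟨M1, hM1⟩ := isCompact_Icc.exists_bound_of_continuousOn (s := Icc (0:ℝ) T)
    (hcp γ).continuousOn
  have hF1' : 0 ≤ F1 := (norm_nonneg _).trans (hF1 0 ⟨le_rfl, hT.le⟩)
  have hK1' : 0 ≤ K1 := (norm_nonneg _).trans (hK1 0 ⟨le_rfl, hT.le⟩)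
  have hM1' : 0 ≤ M1 := (norm_nonneg _).trans (hM1 0 ⟨le_rfl, hT.le⟩)
  set F0 : ℝ := F1 + 1 with hF0def
  have hF0 : ∀ t ∈ Icc 0 T, |f t| ≤ F0 := fun t ht => by
    have := hF1 t ht
    rw [Real.norm_eq_abs] at this
    linarith
  have hF0p : 0 < F0 := by linarith
  set η : ℝ := |I| / (8 * T * F0) with hη
  have hη0 : 0 < η := by positivity
  obtain ⟨r, hr, hAr, hlin⟩ := local_lin (γ := γ) hA hE hη0
  -- the two Lipschitz bounds
  have hK0 : ∀ t ∈ Icc 0 T, |γ * (E - 𝔸 t) ^ (γ - 1)| ≤ K1 := fun t ht => hK1 t ht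
  have hLip : ∀ t ∈ Icc 0 T, ∀ a b : ℝ, |a - E| ≤ 2 * r → |b - E| ≤ 2 * r →
      |(a - 𝔸 t) ^ γ - (b - 𝔸 t) ^ γ| ≤ (K1 + η) * |a - b| := by
    intro t ht a b ha hb
    have h1 := hlin t ht a b ha hb
    have h2 : |γ * (E - 𝔸 t) ^ (γ - 1) * (a - b)| ≤ K1 * |a - b| := by
      rw [abs_mul]
      exact mul_le_mul_of_nonneg_right (hK0 t ht) (abs_nonneg _)
    calc |(a - 𝔸 t) ^ γ - (b - 𝔸 t) ^ γ|
        = |((a - 𝔸 t) ^ γ - (b - 𝔸 t) ^ γ - γ * (E - 𝔸 t) ^ (γ - 1) * (a - b)) +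
            γ * (E - 𝔸 t) ^ (γ - 1) * (a - b)| := by ring_nf
      _ ≤ _ := abs_add_le _ _
      _ ≤ η * |a - b| + K1 * |a - b| := add_le_add h1 h2
      _ = _ := by ring
  set M0 : ℝ := M1 + (K1 + η) * (2 * r) with hM0def
  have hM0p : 0 ≤ M0 := by positivity
  have hM0 : ∀ t ∈ Icc 0 T, ∀ a : ℝ, |a - E| ≤ 2 * r → |(a - 𝔸 t) ^ γ| ≤ M0 := by
    intro t ht a ha
    have h1 := hLip t ht a E ha (by rw [sub_self, abs_zero]; positivity)
    have h2 : |(E - 𝔸 t) ^ γ| ≤ M1 := hM1 t ht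
    have h3 : (K1 + η) * |a - E| ≤ (K1 + η) * (2 * r) :=
      mul_le_mul_of_nonneg_left ha (by positivity)
    calc |(a - 𝔸 t) ^ γ| = |((a - 𝔸 t) ^ γ - (E - 𝔸 t) ^ γ) + (E - 𝔸 t) ^ γ| := by ring_nf
      _ ≤ _ := abs_add_le _ _
      _ ≤ M0 := by linarith
  set C : ℝ := F0 * (K1 + η) with hC
  have hC0 : 0 < C := by positivity
  set ω₀ : ℝ := |I| / (4 * T * F0 * (K1 + 1)) with hω
  have hω0 : 0 < ω₀ := by positivity
  refine ⟨r, hr, min (r / (F0 * M0 * T + 1)) (min 1 ω₀ / (2 * C * T + 1)), lt_min (by positivity)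
    (by have := lt_min one_pos hω0; positivity), ?_⟩
  intro ε hε hεlt h₁ h₂ hd₁ hd₂ hp₁ hp₂ hi₁ hi₂
  by_contra hne
  have e1 : ε < r / (F0 * M0 * T + 1) := hεlt.trans_le (min_le_left _ _)
  have e2 : ε < min 1 ω₀ / (2 * C * T + 1) := hεlt.trans_le (min_le_right _ _)
  rw [lt_div_iff₀ (by positivity)] at e1 e2
  have hεr : ε * (F0 * M0) * T < r := by nlinarith
  have hn₁ := M3_near hr hM0 hF0 hF0p.le hM0p hε hεr hd₁ hi₁
  have hn₂ := M3_near hr hM0 hF0 hF0p.le hM0p hε hεr hd₂ hi₂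
  -- the difference
  set δ : ℝ → ℝ := fun t => h₁ t - h₂ t with hδ
  set g : ℝ → ℝ := fun t => f t * ((h₁ t - 𝔸 t) ^ γ - (h₂ t - 𝔸 t) ^ γ) with hg
  have hδ0 : 0 < |δ 0| := abs_pos.2 (sub_ne_zero.2 hne)
  have hdδ : ∀ t, HasDerivAt δ (-(ε * g t)) t := by
    intro t
    have h := (hd₁ t).sub (hd₂ t)
    exact h.congr_deriv (by simp only [hg]; ring)
  have hgb : ∀ t ∈ Icc 0 T, |g t| ≤ C * |δ t| := by
    intro t ht
    have h1 := hLip t ht (h₁ t) (h₂ t) (hn₁ t ht) (hn₂ t ht)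
    rw [hg, hC]
    show |f t * ((h₁ t - 𝔸 t) ^ γ - (h₂ t - 𝔸 t) ^ γ)| ≤ F0 * (K1 + η) * |h₁ t - h₂ t|
    rw [abs_mul, mul_assoc]
    exact mul_le_mul (hF0 t ht) h1 (abs_nonneg _) hF0p.le
  set ω : ℝ := 2 * ε * C * T with hωdef
  have hωnn : 0 ≤ ω := by positivity
  have hω1 : ω < 1 := by
    have h1 : ε * (2 * C * T + 1) < 1 := e2.trans_le (min_le_left _ _)
    rw [hωdef]
    nlinarith
  have hω2 : ω < ω₀ := by
    have h1 : ε * (2 * C * T + 1) < ω₀ := e2.trans_le (min_le_right _ _)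
    rw [hωdef]
    nlinarith
  have hstay : ∀ t ∈ Icc 0 T, |δ t - δ 0| ≤ ω * |δ 0| := by
    have hK : 0 ≤ 2 * ε * C * |δ 0| := by positivity
    have h1 := stay (y := δ) (y' := fun t => -(ε * g t)) (r := |δ 0|) (K := 2 * ε * C * |δ 0|)
      (T := T) hδ0 hK (fun t _ => hdδ t) (by
        intro t ht hle
        have h2 : |δ t| ≤ 2 * |δ 0| := by
          calc |δ t| = |(δ t - δ 0) + δ 0| := by ring_nf
            _ ≤ |δ t - δ 0| + |δ 0| := abs_add_le _ _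
            _ ≤ 2 * |δ 0| := by linarith
        show |-(ε * g t)| ≤ 2 * ε * C * |δ 0|
        rw [abs_neg, abs_mul, abs_of_pos hε]
        have h3 := hgb t ht
        have h4 : C * |δ t| ≤ C * (2 * |δ 0|) := mul_le_mul_of_nonneg_left h2 hC0.le
        calc ε * |g t| ≤ ε * (C * (2 * |δ 0|)) :=
              mul_le_mul_of_nonneg_left (h3.trans h4) hε.le
          _ = _ := by ring) (by
        have : 2 * ε * C * |δ 0| * T = ω * |δ 0| := by rw [hωdef]; ring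
        rw [this]
        nlinarith)
    intro t ht
    have h2 := h1 t ht
    have h3 : 2 * ε * C * |δ 0| * t ≤ 2 * ε * C * |δ 0| * T := mul_le_mul_of_nonneg_left ht.2 hK
    have h4 : 2 * ε * C * |δ 0| * T = ω * |δ 0| := by rw [hωdef]; ring
    linarith
  -- integrability
  have hc₁ : Continuous h₁ := continuous_iff_continuousAt.2 fun t => (hd₁ t).continuousAt
  have hc₂ : Continuous h₂ := continuous_iff_continuousAt.2 fun t => (hd₂ t).continuousAt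
  have hcg : ContinuousOn g (uIcc 0 T) := by
    rw [uIcc_of_le hT.le, hg]
    refine hf.continuousOn.mul (ContinuousOn.sub ?_ ?_)
    · refine ContinuousOn.rpow_const (hc₁.sub hA).continuousOn fun t ht => Or.inl ?_
      have h1 := abs_le.1 (hn₁ t ht)
      have h2 := hAr t ht
      have : 0 < h₁ t - 𝔸 t := by linarith [h1.1]
      exact this.ne'
    · refine ContinuousOn.rpow_const (hc₂.sub hA).continuousOn fun t ht => Or.inl ?_
      have h1 := abs_le.1 (hn₂ t ht)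
      have h2 := hAr t ht
      have : 0 < h₂ t - 𝔸 t := by linarith [h1.1]
      exact this.ne'
  have hint : IntervalIntegrable g volume 0 T := hcg.intervalIntegrable
  have hzero : ∫ t in (0:ℝ)..T, g t = 0 := by
    have h1 := intervalIntegral.integral_eq_sub_of_hasDerivAt (f := δ) (f' := fun t => -(ε * g t))
      (a := 0) (b := T) (fun t _ => hdδ t) ((hint.const_mul ε).neg)
    have h2 : δ T - δ 0 = 0 := by
      rw [hδ]
      show (h₁ T - h₂ T) - (h₁ 0 - h₂ 0) = 0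
      rw [hp₁, hp₂]
      ring
    rw [h2, intervalIntegral.integral_neg, intervalIntegral.integral_const_mul] at h1
    have h3 : ε * ∫ t in (0:ℝ)..T, g t = 0 := by linarith
    exact (mul_eq_zero.1 h3).resolve_left hε.ne'
  set m : ℝ → ℝ := fun t => δ 0 * γ * (f t * (E - 𝔸 t) ^ (γ - 1)) with hm
  have hcm : Continuous m := continuous_const.mul (hf.mul (hcp (γ - 1)))
  have hmI : ∫ t in (0:ℝ)..T, m t = δ 0 * I := by
    rw [hm, intervalIntegral.integral_const_mul, hI]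
    unfold J
    ring
  have hdiff : ∫ t in (0:ℝ)..T, (g t - m t) = - (δ 0 * I) := by
    rw [intervalIntegral.integral_sub hint (hcm.intervalIntegrable _ _), hzero, hmI]
    ring
  have hbd : ∀ t ∈ Set.uIoc 0 T, ‖g t - m t‖ ≤ (F0 * η * (1 + ω) + F0 * K1 * ω) * |δ 0| := by
    intro t ht
    rw [uIoc_of_le hT.le] at ht
    have ht' : t ∈ Icc 0 T := ⟨ht.1.le, ht.2⟩
    have h1 := hlin t ht' (h₁ t) (h₂ t) (hn₁ t ht') (hn₂ t ht')
    have h2 := hstay t ht'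
    have h3 := hK0 t ht'
    have h4 := hF0 t ht'
    have h5 : |δ t| ≤ (1 + ω) * |δ 0| := by
      calc |δ t| = |(δ t - δ 0) + δ 0| := by ring_nf
        _ ≤ |δ t - δ 0| + |δ 0| := abs_add_le _ _
        _ ≤ _ := by linarith
    have e3 : g t - m t = f t * ((h₁ t - 𝔸 t) ^ γ - (h₂ t - 𝔸 t) ^ γ -
        γ * (E - 𝔸 t) ^ (γ - 1) * (h₁ t - h₂ t)) +
        f t * (γ * (E - 𝔸 t) ^ (γ - 1)) * (δ t - δ 0) := by
      rw [hg, hm, hδ]
      ring
    rw [Real.norm_eq_abs, e3]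
    refine (abs_add_le _ _).trans ?_
    rw [abs_mul, abs_mul, abs_mul]
    have h6 : |f t| * |(h₁ t - 𝔸 t) ^ γ - (h₂ t - 𝔸 t) ^ γ -
        γ * (E - 𝔸 t) ^ (γ - 1) * (h₁ t - h₂ t)| ≤ F0 * (η * ((1 + ω) * |δ 0|)) :=
      mul_le_mul h4 (h1.trans (mul_le_mul_of_nonneg_left h5 hη0.le)) (abs_nonneg _) hF0p.le
    have h7 : |f t| * |γ * (E - 𝔸 t) ^ (γ - 1)| * |δ t - δ 0| ≤ F0 * K1 * (ω * |δ 0|) :=
      mul_le_mul (mul_le_mul h4 h3 (abs_nonneg _) hF0p.le) h2 (abs_nonneg _) (by positivity)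
    calc _ ≤ F0 * (η * ((1 + ω) * |δ 0|)) + F0 * K1 * (ω * |δ 0|) := add_le_add h6 h7
      _ = _ := by ring
  have hfin := intervalIntegral.norm_integral_le_of_norm_le_const hbd
  rw [hdiff, norm_neg, Real.norm_eq_abs, abs_mul, sub_zero, abs_of_pos hT] at hfin
  have h8 : |I| ≤ (F0 * η * (1 + ω) + F0 * K1 * ω) * T := by
    have : |δ 0| * |I| ≤ |δ 0| * ((F0 * η * (1 + ω) + F0 * K1 * ω) * T) := by
      calc |δ 0| * |I| ≤ _ := hfin
        _ = _ := by ring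
    exact le_of_mul_le_mul_left this hδ0
  have h9 : F0 * η * (1 + ω) * T ≤ |I| / 4 := by
    have e4 : F0 * η * T = |I| / 8 := by
      rw [hη]; field_simp
    have e5 : F0 * η * (1 + ω) * T = (F0 * η * T) * (1 + ω) := by ring
    rw [e5, e4]
    nlinarith
  have h10 : F0 * K1 * ω * T ≤ |I| / 4 := by
    have e4 : F0 * (K1 + 1) * ω₀ * T = |I| / 4 := by
      rw [hω]; field_simp
    rw [← e4]
    refine mul_le_mul_of_nonneg_right ?_ hT.le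
    exact mul_le_mul (mul_le_mul_of_nonneg_left (by linarith) hF0p.le) hω2.le hωnn (by positivity)
  have h11 : (F0 * η * (1 + ω) + F0 * K1 * ω) * T = F0 * η * (1 + ω) * T + F0 * K1 * ω * T := by
    ring
  rw [h11] at h8
  linarith

end Pool.Agent.AbelLB
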