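import Pool.Agent.Lib.MP_bb703b_an.B.M5

set_option autoImplicit false

open Real Set MeasureTheory intervalIntegral Polynomial Pool.Agent.AbelLT

/-! Row bb-M4. A simple zero gives a limit cycle. -/

namespace Pool.Agent.AbelLB

/-- continuity of the orbit in the energy -/
private theorem M4_ob_cont {P : ℕ} (hP : 2 ≤ P) {𝔸 : ℝ → ℝ} {E : ℝ} (hE : 𝔸 0 < E) :
    ContinuousAt (fun E' => ob P 𝔸 E' 0) E := by
  have h1 : (2:ℝ) ≤ P := by exact_mod_cast hP
  unfold ob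
  apply ContinuousAt.rpow_const
  · fun_prop
  · left
    have : 0 < ((P : ℝ) - 1) * (E - 𝔸 0) := mul_pos (by linarith) (by linarith)
    exact this.ne'

private theorem M4_gap {𝔸 F f : ℝ → ℝ} (D : Dat 𝔸 F f) {E : ℝ} (hE : ∀ t, 𝔸 t < E) :
    ∃ g > 0, ∀ t, 𝔸 t + g ≤ E := by
  obtain ⟨g, hg, h⟩ := gap D.hA hE
  refine ⟨g, hg, fun t => ?_⟩
  have hper : Function.Periodic 𝔸 (2 * π) := D.pA
  obtain ⟨y, hy, hyt⟩ := hper.exists_mem_Ico₀ (by positivity) t
  rw [hyt]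
  exact h y ⟨hy.1, hy.2.le⟩

private theorem M4_sign {G : ℝ → ℝ} {c E : ℝ} (hc : c ≠ 0) (h : HasDerivAt G c E) (h0 : G E = 0) :
    ∃ s₀ > 0, ∀ s, 0 < s → s < s₀ → G (E - s) * G (E + s) < 0 := by
  have h1 := hasDerivAt_iff_tendsto_slope.1 h
  have h2 : Filter.Tendsto (fun x => slope G E x * c) (nhdsWithin E {E}ᶜ) (nhds (c * c)) :=
    h1.mul_const c
  have h3 : ∀ᶠ x in nhdsWithin E {E}ᶜ, 0 < slope G E x * c :=
    h2.eventually (lt_mem_nhds (mul_self_pos.2 hc))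
  rw [eventually_nhdsWithin_iff, Metric.eventually_nhds_iff] at h3
  obtain ⟨s₀, hs₀, h4⟩ := h3
  refine ⟨s₀, hs₀, fun s hs hss => ?_⟩
  have a1 : 0 < slope G E (E - s) * c := by
    apply h4
    · rw [Real.dist_eq]
      have : E - s - E = -s := by ring
      rw [this, abs_neg, abs_of_pos hs]
      exact hss
    · simp [hs.ne']
  have a2 : 0 < slope G E (E + s) * c := by
    apply h4
    · rw [Real.dist_eq]
      have : E + s - E = s := by ring
      rw [this, abs_of_pos hs]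
      exact hss
    · simp [hs.ne']
  have b1 : slope G E (E - s) = -(G (E - s) / s) := by
    rw [slope_def_field, h0]
    have : E - s - E = -s := by ring
    rw [this, sub_zero, div_neg]
  have b2 : slope G E (E + s) = G (E + s) / s := by
    rw [slope_def_field, h0]
    have : E + s - E = s := by ring
    rw [this, sub_zero]
  rw [b1] at a1
  rw [b2] at a2
  have a3 : 0 < (-(G (E - s) / s) * c) * (G (E + s) / s * c) := mul_pos a1 a2
  have a4 : (-(G (E - s) / s) * c) * (G (E + s) / s * c) =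
      -(G (E - s) * G (E + s)) * (c / s) ^ 2 := by
    field_simp
  rw [a4] at a3
  have a5 : 0 < (c / s) ^ 2 := by positivity
  have a6 : 0 < -(G (E - s) * G (E + s)) := (pos_iff_pos_of_mul_pos a3).2 a5
  linarith

/-- By `hasDerivAt_J` the function `J` has a nonzero derivative at its zero `E`, so there are `E₁ < E < E₂`, arbitrarily close to `E`, with `J(E₁) J(E₂) < 0`; `ob P 𝔸 E_i 0` is close to `ob P 𝔸 E 0`
(continuity). `exist_near` gives a solution with `|x 0 - ob P 𝔸 E 0| < ρ'`, `ρ'` the minimum of `ρ`, half of the `ρ` of `unique_near`, and `ob P 𝔸 E 0`. A periodic solution with initial value close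
to `x 0 > 0` is positive (`pos_of_pos`, Lin.lean), and equal by `unique_near`: `limCyc`. -/
theorem lim_near {P Q : ℕ} (hP : 2 ≤ P) (hQ : 2 ≤ Q) (hPQ : P ≠ Q) {𝔸 F f : ℝ → ℝ} (D : Dat 𝔸 F f) {E : ℝ} (hE : ∀ t, 𝔸 t < E)
    (hJ0 : J (ga P Q) 𝔸 f E = 0) (hJ : J (ga P Q - 1) 𝔸 f E ≠ 0) {ρ : ℝ} (hρ : 0 < ρ) :
    ∃ ε₀ > 0, ∀ ε : ℝ, 0 < ε → ε < ε₀ → ∃ c ∈ limCyc P Q F (fun t => ε * f t), |c - ob P 𝔸 E 0| < ρ := by
  obtain ⟨ρ₁, hρ₁, ε₁, hε₁, huniq⟩ := unique_near hP hQ hPQ D hE hJ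
  obtain ⟨g, hg, hgap⟩ := M4_gap D hE
  have hga : ga P Q ≠ 0 := by
    have := ga_ne hP hQ hPQ 0
    simpa using this
  obtain ⟨s₀, hs₀, hsign⟩ := M4_sign (mul_ne_zero hga hJ) (hasDerivAt_J D.hA D.hf hE) hJ0
  have hob : 0 < ob P 𝔸 E 0 := ob_pos hP (hE 0)
  set ρ' : ℝ := min ρ (ρ₁ / 2) with hρ'
  have hρ'0 : 0 < ρ' := lt_min hρ (by linarith)
  have hcont := M4_ob_cont hP (hE 0)
  rw [Metric.continuousAt_iff] at hcont
  obtain ⟨s₁, hs₁, hob1⟩ := hcont (ρ' / 2) (by linarith)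
  obtain ⟨s, hs, hs'⟩ := exists_between (lt_min (lt_min hs₀ hs₁) hg)
  have hss0 : s < s₀ := lt_of_lt_of_le hs' ((min_le_left _ _).trans (min_le_left _ _))
  have hss1 : s < s₁ := lt_of_lt_of_le hs' ((min_le_left _ _).trans (min_le_right _ _))
  have hsg : s < g := lt_of_lt_of_le hs' (min_le_right _ _)
  have hE1 : ∀ t, 𝔸 t < E - s := fun t => by
    have := hgap t
    linarith
  obtain ⟨ε₂, hε₂, hex⟩ := exist_near (Q := Q) hP D hE1 (show E - s < E + s by linarith)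
    (hsign s hs hss0) (show 0 < ρ' / 2 by linarith)
  have o1 : |ob P 𝔸 (E - s) 0 - ob P 𝔸 E 0| < ρ' / 2 := by
    have := @hob1 (E - s) (by
      rw [Real.dist_eq]
      have : E - s - E = -s := by ring
      rw [this, abs_neg, abs_of_pos hs]
      exact hss1)
    rwa [Real.dist_eq] at this
  have o2 : |ob P 𝔸 (E + s) 0 - ob P 𝔸 E 0| < ρ' / 2 := by
    have := @hob1 (E + s) (by
      rw [Real.dist_eq]
      have : E + s - E = s := by ring
      rw [this, abs_of_pos hs]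
      exact hss1)
    rwa [Real.dist_eq] at this
  refine ⟨min ε₁ ε₂, lt_min hε₁ hε₂, fun ε hε hεε => ?_⟩
  obtain ⟨x, hx, hx1, hx2⟩ := hex ε hε (lt_of_lt_of_le hεε (min_le_right _ _))
  have hxn : |x 0 - ob P 𝔸 E 0| < ρ' := by
    rw [abs_lt] at o1 o2 ⊢
    constructor <;> linarith [o1.1, o1.2, o2.1, o2.2]
  have hx0 : 0 < x 0 := hx.2 0
  refine ⟨x 0, ⟨⟨x, hx.1, rfl⟩, min (ρ₁ / 2) (x 0), lt_min (by linarith) hx0, ?_⟩,
    lt_of_lt_of_le hxn (min_le_left _ _)⟩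
  rintro c' ⟨y, hy, rfl⟩ hyc
  have y1 : |y 0 - x 0| < ρ₁ / 2 := lt_of_lt_of_le hyc (min_le_left _ _)
  have y2 : |y 0 - x 0| < x 0 := lt_of_lt_of_le hyc (min_le_right _ _)
  have hy0 : 0 < y 0 := by
    rw [abs_lt] at y2
    linarith [y2.1]
  have hyP : PosPer P Q F (fun t => ε * f t) y :=
    pos_of_pos (by omega) (by omega) D.hF (continuous_const.mul D.hf) hy hy0
  have hxρ : |x 0 - ob P 𝔸 E 0| < ρ₁ / 2 := lt_of_lt_of_le hxn (min_le_right _ _)
  refine huniq ε hε (lt_of_lt_of_le hεε (min_le_left _ _)) y x hyP hx ?_ ?_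
  · rw [abs_lt] at y1 hxρ ⊢
    constructor <;> linarith [y1.1, y1.2, hxρ.1, hxρ.2]
  · linarith

end Pool.Agent.AbelLB
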