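import Pool.Agent.Lib.MP_bb703b_an.B.M3
import Pool.Agent.Lib.MP_bb703b_an.B.En
import Pool.Agent.Lib.MP_bb703b_an.B.M2

set_option autoImplicit false

open Real Set MeasureTheory intervalIntegral Polynomial Pool.Agent.AbelLT

/-! Row bb-M5. Uniqueness near a simple zero. -/

namespace Pool.Agent.AbelLB

private theorem M5_ob {P : ℕ} (hP : 2 ≤ P) {𝔸 : ℝ → ℝ} {E : ℝ} (hE : 𝔸 0 < E) :
    (ob P 𝔸 E 0 ^ (P - 1))⁻¹ / ((P:ℝ) - 1) + 𝔸 0 = E := by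
  have hP1 : (0:ℝ) < (P:ℝ) - 1 := by
    have : (2:ℝ) ≤ P := by exact_mod_cast hP
    linarith
  have hc : 0 < ((P:ℝ) - 1) * (E - 𝔸 0) := mul_pos hP1 (by linarith)
  have h1 : ob P 𝔸 E 0 ^ (P - 1) = (((P:ℝ) - 1) * (E - 𝔸 0))⁻¹ := by
    unfold ob
    rw [← rpow_natCast, ← rpow_mul hc.le, Nat.cast_sub (by omega), Nat.cast_one, neg_mul,
      one_div_mul_cancel hP1.ne', rpow_neg_one]
  rw [h1, inv_inv]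
  field_simp
  ring

private theorem M5_cont {P : ℕ} (hP : 2 ≤ P) {𝔸 : ℝ → ℝ} {E : ℝ} (hE : 𝔸 0 < E) :
    ContinuousAt (fun y : ℝ => (y ^ (P - 1))⁻¹ / ((P:ℝ) - 1) + 𝔸 0) (ob P 𝔸 E 0) := by
  have h0 : ob P 𝔸 E 0 ^ (P - 1) ≠ 0 := pow_ne_zero _ (ob_pos hP hE).ne'
  exact (((continuousAt_id.pow (P - 1)).inv₀ h0).div_const _).add continuousAt_const

/-- Row M3, main: `energy` (the constant `(P-1)^γ` goes into `ε`: `((P-1)(h-𝔸))^γ = (P-1)^γ (h-𝔸)^γ`, `Real.mul_rpow`), and the energy at `0` is a continuous function of `x 0 > 0`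
(`(P-1)(h 0 - 𝔸 0) = (x 0 ^ (P-1))⁻¹`), equal to `E` for `x 0 = ob P 𝔸 E 0`. -/
theorem unique_near {P Q : ℕ} (hP : 2 ≤ P) (hQ : 2 ≤ Q) (hPQ : P ≠ Q) {𝔸 F f : ℝ → ℝ} (D : Dat 𝔸 F f) {E : ℝ} (hE : ∀ t, 𝔸 t < E)
    (hJ : J (ga P Q - 1) 𝔸 f E ≠ 0) :
    ∃ ρ > 0, ∃ ε₀ > 0, ∀ ε : ℝ, 0 < ε → ε < ε₀ → ∀ x₁ x₂ : ℝ → ℝ, PosPer P Q F (fun t => ε * f t) x₁ → PosPer P Q F (fun t => ε * f t) x₂ →
      |x₁ 0 - ob P 𝔸 E 0| < ρ → |x₂ 0 - ob P 𝔸 E 0| < ρ → x₁ 0 = x₂ 0 := by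
  have hP1 : (0:ℝ) < (P:ℝ) - 1 := by
    have : (2:ℝ) ≤ P := by exact_mod_cast hP
    linarith
  have hγ : ga P Q ≠ 0 := by
    have := ga_ne hP hQ hPQ 0
    rwa [Nat.cast_zero] at this
  obtain ⟨r, hr, ε₁, hε₁, H⟩ := unique_energy hγ D.hA D.hf hE hJ
  have hφ := M5_cont hP (𝔸 := 𝔸) (hE 0)
  have hφE := M5_ob hP (𝔸 := 𝔸) (hE 0)
  rw [Metric.continuousAt_iff] at hφ
  obtain ⟨ρ, hρ, hρ'⟩ := hφ r hr
  have hpow : 0 < ((P:ℝ) - 1) ^ ga P Q := rpow_pos_of_pos hP1 _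
  refine ⟨ρ, hρ, ε₁ / ((P:ℝ) - 1) ^ ga P Q, div_pos hε₁ hpow, fun ε h0 h1 x₁ x₂ hx₁ hx₂ hd₁ hd₂ => ?_⟩
  obtain ⟨h₁, a1, b1, c1, d1, -, e1⟩ := energy hP D hx₁
  obtain ⟨h₂, a2, b2, c2, d2, -, e2⟩ := energy hP D hx₂
  have key : ∀ (x h : ℝ → ℝ), (∀ t, ((P : ℝ) - 1) * (h t - 𝔸 t) = (x t ^ (P - 1))⁻¹) →
      |x 0 - ob P 𝔸 E 0| < ρ → |h 0 - E| ≤ r := by
    intro x h hc hd
    have h3 := hρ' (x := x 0) (by rw [Real.dist_eq]; exact hd)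
    rw [Real.dist_eq, hφE] at h3
    have h4 : (x 0 ^ (P - 1))⁻¹ / ((P:ℝ) - 1) + 𝔸 0 = h 0 := by
      rw [← hc 0]
      field_simp
      ring
    rw [h4] at h3
    exact h3.le
  have der : ∀ (h : ℝ → ℝ), (∀ t, 𝔸 t < h t) →
      (∀ t, HasDerivAt h (-(ε * (f t * (((P : ℝ) - 1) * (h t - 𝔸 t)) ^ ga P Q))) t) →
      ∀ t, HasDerivAt h (-(ε * ((P:ℝ) - 1) ^ ga P Q * (f t * (h t - 𝔸 t) ^ ga P Q))) t := by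
    intro h ha hd t
    have h3 := hd t
    rw [mul_rpow hP1.le (by linarith [ha t])] at h3
    convert h3 using 1
    ring
  have h5 := H (ε * ((P:ℝ) - 1) ^ ga P Q) (mul_pos h0 hpow) (by rwa [lt_div_iff₀ hpow] at h1) h₁ h₂
    (der h₁ a1 d1) (der h₂ a2 d2) (by have := e1 0; rwa [zero_add] at this)
    (by have := e2 0; rwa [zero_add] at this) (key x₁ h₁ c1 hd₁) (key x₂ h₂ c2 hd₂)
  rw [b1 0, b2 0, h5]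

end Pool.Agent.AbelLB
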