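import Pool.Agent.Lib.MP_bb703b_an.Refl

set_option autoImplicit false

open Real Set MeasureTheory intervalIntegral Polynomial Pool.Agent.AbelLT

/-! Row bb-N0. Reflection and exchange. -/

namespace Pool.Agent.AbelLB

private theorem N0_sign_sq (n : ℕ) (A : ℝ → ℝ) :
    (fun t => (-1 : ℝ) ^ n * ((-1) ^ n * A t)) = A := by
  funext t
  rw [← mul_assoc, ← mul_pow]
  simp

private theorem N0_perInit_neg {p q : ℕ} (hp : p ≠ 0) (hq : q ≠ 0) {A B : ℝ → ℝ} {c : ℝ}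
    (hc : c ∈ perInit p q A B) :
    -c ∈ perInit p q (fun t => (-1) ^ (p - 1) * A t) (fun t => (-1) ^ (q - 1) * B t) := by
  obtain ⟨x, hx, rfl⟩ := hc
  exact ⟨fun t => -x t, hx.negate hp hq, rfl⟩

private theorem N0_perInit_neg' {p q : ℕ} (hp : p ≠ 0) (hq : q ≠ 0) {A B : ℝ → ℝ} {c : ℝ}
    (hc : c ∈ perInit p q (fun t => (-1) ^ (p - 1) * A t) (fun t => (-1) ^ (q - 1) * B t)) :
    -c ∈ perInit p q A B := by
  have h := N0_perInit_neg hp hq hc
  rwa [N0_sign_sq, N0_sign_sq] at h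

/-- `PerSol.negate` (Refl.lean), twice. -/
theorem limCyc_neg {p q : ℕ} (hp : p ≠ 0) (hq : q ≠ 0) {A B : ℝ → ℝ} {c : ℝ}
    (hc : c ∈ limCyc p q (fun t => (-1) ^ (p - 1) * A t) (fun t => (-1) ^ (q - 1) * B t)) : -c ∈ limCyc p q A B := by
  obtain ⟨h1, ε, hε, h2⟩ := hc
  refine ⟨N0_perInit_neg' hp hq h1, ε, hε, fun c' hc' hlt => ?_⟩
  have h3 := h2 (-c') (N0_perInit_neg hp hq hc') (by
    rw [show -c' - c = -(c' - -c) by ring, abs_neg]
    exact hlt)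
  linarith

theorem limCyc_swap (p q : ℕ) (A B : ℝ → ℝ) : limCyc p q A B = limCyc q p B A := by
  have key : ∀ (p q : ℕ) (A B : ℝ → ℝ), perInit p q A B ⊆ perInit q p B A := by
    rintro p q A B c ⟨x, hx, rfl⟩
    exact ⟨x, ⟨fun t => (hx.hd t).congr_deriv (by ring), hx.per⟩, rfl⟩
  have h : perInit p q A B = perInit q p B A := Subset.antisymm (key _ _ _ _) (key _ _ _ _)
  unfold limCyc
  rw [h]

end Pool.Agent.AbelLB
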