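import Pool.Agent.Lib.MP_bb703b_an.B.Z0

set_option autoImplicit false

open Real Set MeasureTheory intervalIntegral Polynomial Pool.Agent.AbelLT

/-! Row bb-Z1. The zero solution is isolated. -/

namespace Pool.Agent.AbelLB

/-- Row Z, main. `perInit_eq` (Refl.lean): a nonzero initial value is that of a positive solution or minus that of a positive solution of the equation with `(-1)^(P-1) F` and
`(-1)^(Q-1) ε f`; for `P` odd the first is `F`; `no_small` for `f` and for `(-1)^(Q-1) f`. -/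
theorem zero_lim {P Q : ℕ} (hP : 2 ≤ P) (hQ : 2 ≤ Q) (hodd : Odd P) {𝔸 F f : ℝ → ℝ} (D : Dat 𝔸 F f) (hint : (∫ t in (0:ℝ)..(2 * π), f t) ≠ 0) {ε : ℝ} (hε : ε ≠ 0) :
    (0:ℝ) ∈ limCyc P Q F (fun t => ε * f t) := by
  have hP0 : P ≠ 0 := by omega
  have hQ0 : Q ≠ 0 := by omega
  have hε' : (-1 : ℝ) ^ (Q - 1) * ε ≠ 0 := mul_ne_zero (pow_ne_zero _ (by norm_num)) hε
  obtain ⟨η1, hη1, h1⟩ := no_small hP hQ D hint hε
  obtain ⟨η2, hη2, h2⟩ := no_small hP hQ D hint hε'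
  have hcB : Continuous (fun t => ε * f t) := continuous_const.mul D.hf
  have hev : (-1 : ℝ) ^ (P - 1) = 1 := by
    obtain ⟨m, hm⟩ := hodd
    have h3 : P - 1 = 2 * m := by omega
    rw [h3, pow_mul]
    norm_num
  refine ⟨⟨fun _ => 0, zero_sol hP0 hQ0 _ _, rfl⟩, min η1 η2, lt_min hη1 hη2, ?_⟩
  intro c hc hlt
  rw [sub_zero] at hlt
  have hlt1 : |c| < η1 := lt_of_lt_of_le hlt (min_le_left _ _)
  have hlt2 : |c| < η2 := lt_of_lt_of_le hlt (min_le_right _ _)
  rw [perInit_eq hP0 hQ0 D.hF hcB] at hc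
  rcases hc with (⟨x, hx, rfl⟩ | hc) | ⟨d, ⟨x, hx, rfl⟩, rfl⟩
  · have h3 := h1 x hx
    have h4 := le_abs_self (x 0)
    linarith
  · exact hc
  · exfalso
    have e1 : (fun t => (-1 : ℝ) ^ (P - 1) * F t) = F := by
      funext t
      rw [hev, one_mul]
    have e2 : (fun t => (-1 : ℝ) ^ (Q - 1) * (ε * f t)) = fun t => (-1 : ℝ) ^ (Q - 1) * ε * f t := by
      funext t
      ring
    rw [e1, e2] at hx
    have h3 := h2 x hx
    have h4 := neg_le_abs (-x 0)
    rw [neg_neg] at h4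
    linarith

end Pool.Agent.AbelLB
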