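import Pool.Agent.Lib.MP_bb703b_an.B.M4
import Pool.Agent.Lib.MP_bb703b_an.B.Z1
import Pool.Agent.Lib.MP_bb703b_an.B.N0

set_option autoImplicit false

open Real Set MeasureTheory intervalIntegral Polynomial Pool.Agent.AbelLT

/-! Row bb-N. The count. -/

namespace Pool.Agent.AbelLB

private theorem Ng_ob_pos {P : ℕ} (hP : 2 ≤ P) {𝔸 : ℝ → ℝ} {E : ℝ} (hE : 𝔸 0 < E) :
    0 < ob P 𝔸 E 0 := by
  have h2 : (2:ℝ) ≤ P := by exact_mod_cast hP
  exact Real.rpow_pos_of_pos (mul_pos (by linarith) (by linarith)) _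

private theorem Ng_ob_anti {P : ℕ} (hP : 2 ≤ P) {𝔸 : ℝ → ℝ} {E E' : ℝ} (hE : 𝔸 0 < E)
    (hEE : E < E') : ob P 𝔸 E' 0 < ob P 𝔸 E 0 := by
  have h2 : (2:ℝ) ≤ P := by exact_mod_cast hP
  unfold ob
  refine Real.rpow_lt_rpow_of_neg (mul_pos (by linarith) (by linarith)) ?_ ?_
  · exact mul_lt_mul_of_pos_left (by linarith) (by linarith)
  · rw [neg_lt_zero]
    exact div_pos one_pos (by linarith)

private theorem Ng_J_smul (γ s : ℝ) (𝔸 f : ℝ → ℝ) (E : ℝ) :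
    J γ 𝔸 (fun t => s * f t) E = s * J γ 𝔸 f E := by
  unfold J
  rw [← intervalIntegral.integral_const_mul]
  congr 1
  funext t
  ring

/-- Row N, main. For each `i` the limit cycles near `ob P 𝔸 (e i) 0` (`lim_near` for `f`) and near `-ob P 𝔸 (e i) 0` (`lim_near` for `(-1)^(Q-1) f`, `limCyc_neg`, `P` odd), and `0`
(`zero_lim`); `ρ` smaller than all `ob P 𝔸 (e i) 0` and than half of the distances of these distinct numbers (`ob_anti`, `ob_pos`); `ε` the minimum of finitely many bounds. `2Z + 1` distinct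
points (an injective map from `Fin Z ⊕ Fin Z ⊕ Unit`, or three disjoint sets). -/
theorem count {P Q : ℕ} (hP : 2 ≤ P) (hQ : 2 ≤ Q) (hPQ : P ≠ Q) (hodd : Odd P) {𝔸 F f : ℝ → ℝ} (D : Dat 𝔸 F f) (hint : (∫ t in (0:ℝ)..(2 * π), f t) ≠ 0)
    {Z : ℕ} {e : Fin Z → ℝ} (he : StrictMono e) (hE : ∀ i t, 𝔸 t < e i) (h0 : ∀ i, J (ga P Q) 𝔸 f (e i) = 0)
    (h1 : ∀ i, J (ga P Q - 1) 𝔸 f (e i) ≠ 0) :
    ∃ ε : ℝ, 0 < ε ∧ ((2 * Z + 1 : ℕ) : ℕ∞) ≤ (limCyc P Q F (fun t => ε * f t)).encard := by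
  have hpos : ∀ i, 0 < ob P 𝔸 (e i) 0 := fun i => Ng_ob_pos hP (hE i 0)
  have hne : ∀ i j, i ≠ j → 0 < |ob P 𝔸 (e i) 0 - ob P 𝔸 (e j) 0| := by
    intro i j hij
    rw [abs_pos, sub_ne_zero]
    rcases lt_or_gt_of_ne hij with h | h
    · exact (Ng_ob_anti hP (hE i 0) (he h)).ne'
    · exact (Ng_ob_anti hP (hE j 0) (he h)).ne
  -- the radius
  obtain ⟨ρ, hρ, hρ1, hρ2⟩ : ∃ ρ : ℝ, 0 < ρ ∧ (∀ i, ρ < ob P 𝔸 (e i) 0) ∧
      ∀ i j, i ≠ j → ρ < |ob P 𝔸 (e i) 0 - ob P 𝔸 (e j) 0| / 2 := by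
    have e1 : ∀ᶠ ρ : ℝ in nhdsWithin 0 (Ioi 0), 0 < ρ := self_mem_nhdsWithin
    have e2 : ∀ᶠ ρ : ℝ in nhdsWithin 0 (Ioi 0), ∀ i, ρ < ob P 𝔸 (e i) 0 :=
      Filter.eventually_all.2 fun i => mem_nhdsWithin_of_mem_nhds (Iio_mem_nhds (hpos i))
    have e3 : ∀ᶠ ρ : ℝ in nhdsWithin 0 (Ioi 0), ∀ i j, i ≠ j →
        ρ < |ob P 𝔸 (e i) 0 - ob P 𝔸 (e j) 0| / 2 := by
      refine Filter.eventually_all.2 fun i => Filter.eventually_all.2 fun j => ?_
      by_cases hij : i = j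
      · exact Filter.Eventually.of_forall fun ρ h => absurd hij h
      · have h2 : 0 < |ob P 𝔸 (e i) 0 - ob P 𝔸 (e j) 0| / 2 := half_pos (hne i j hij)
        filter_upwards [mem_nhdsWithin_of_mem_nhds (Iio_mem_nhds h2)] with ρ h _
        exact h
    obtain ⟨ρ, ⟨hρ, h2⟩, h3⟩ := ((e1.and e2).and e3).exists
    exact ⟨ρ, hρ, h2, h3⟩
  -- the reflected data
  have hs : ((-1 : ℝ) ^ (Q - 1)) ≠ 0 := pow_ne_zero _ (by norm_num)
  have D' : Dat 𝔸 F (fun t => (-1 : ℝ) ^ (Q - 1) * f t) :=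
    ⟨D.hd, D.hF, continuous_const.mul D.hf, D.pA, D.pF, fun t => by rw [D.pf]⟩
  have h0' : ∀ i, J (ga P Q) 𝔸 (fun t => (-1 : ℝ) ^ (Q - 1) * f t) (e i) = 0 := fun i => by
    rw [Ng_J_smul, h0 i, mul_zero]
  have h1' : ∀ i, J (ga P Q - 1) 𝔸 (fun t => (-1 : ℝ) ^ (Q - 1) * f t) (e i) ≠ 0 := fun i => by
    rw [Ng_J_smul]
    exact mul_ne_zero hs (h1 i)
  -- the parameter
  obtain ⟨ε, hε, hp, hn⟩ : ∃ ε : ℝ, 0 < ε ∧
      (∀ i, ∃ c ∈ limCyc P Q F (fun t => ε * f t), |c - ob P 𝔸 (e i) 0| < ρ) ∧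
      ∀ i, ∃ c ∈ limCyc P Q F (fun t => ε * ((-1 : ℝ) ^ (Q - 1) * f t)),
        |c - ob P 𝔸 (e i) 0| < ρ := by
    have e1 : ∀ᶠ ε : ℝ in nhdsWithin 0 (Ioi 0), 0 < ε := self_mem_nhdsWithin
    have e2 : ∀ᶠ ε : ℝ in nhdsWithin 0 (Ioi 0), ∀ i,
        ∃ c ∈ limCyc P Q F (fun t => ε * f t), |c - ob P 𝔸 (e i) 0| < ρ := by
      refine Filter.eventually_all.2 fun i => ?_
      obtain ⟨ε₀, hε₀, h⟩ := lim_near hP hQ hPQ D (hE i) (h0 i) (h1 i) hρ
      filter_upwards [e1, mem_nhdsWithin_of_mem_nhds (Iio_mem_nhds hε₀)] with ε h2 h3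
      exact h ε h2 h3
    have e3 : ∀ᶠ ε : ℝ in nhdsWithin 0 (Ioi 0), ∀ i,
        ∃ c ∈ limCyc P Q F (fun t => ε * ((-1 : ℝ) ^ (Q - 1) * f t)),
          |c - ob P 𝔸 (e i) 0| < ρ := by
      refine Filter.eventually_all.2 fun i => ?_
      obtain ⟨ε₀, hε₀, h⟩ := lim_near hP hQ hPQ D' (hE i) (h0' i) (h1' i) hρ
      filter_upwards [e1, mem_nhdsWithin_of_mem_nhds (Iio_mem_nhds hε₀)] with ε h2 h3
      exact h ε h2 h3
    obtain ⟨ε, ⟨hε, h2⟩, h3⟩ := ((e1.and e2).and e3).exists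
    exact ⟨ε, hε, h2, h3⟩
  refine ⟨ε, hε, ?_⟩
  choose c hc hcd using hp
  choose c' hc' hcd' using hn
  have hcpos : ∀ i, 0 < c i := fun i => by
    have h2 := (abs_lt.1 (hcd i)).1
    linarith [hρ1 i]
  have hcpos' : ∀ i, 0 < c' i := fun i => by
    have h2 := (abs_lt.1 (hcd' i)).1
    linarith [hρ1 i]
  have hinj : ∀ b : Fin Z → ℝ, (∀ i, |b i - ob P 𝔸 (e i) 0| < ρ) → ∀ i j, b i = b j → i = j := by
    intro b hb i j hij
    by_contra hcon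
    have h2 := hρ2 i j hcon
    have h3 : |ob P 𝔸 (e i) 0 - ob P 𝔸 (e j) 0| ≤
        |b i - ob P 𝔸 (e i) 0| + |b j - ob P 𝔸 (e j) 0| := by
      have h4 : ob P 𝔸 (e i) 0 - ob P 𝔸 (e j) 0 =
          -(b i - ob P 𝔸 (e i) 0) + (b j - ob P 𝔸 (e j) 0) := by
        rw [hij]
        ring
      rw [h4]
      calc _ ≤ _ := abs_add_le _ _
        _ = _ := by rw [abs_neg]
    linarith [hb i, hb j]
  have hneg : ∀ i, -c' i ∈ limCyc P Q F (fun t => ε * f t) := by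
    intro i
    refine limCyc_neg (by omega) (by omega) ?_
    have h2 : (-1 : ℝ) ^ (P - 1) = 1 := by
      obtain ⟨k, hk⟩ := hodd
      have : P - 1 = 2 * k := by omega
      rw [this, pow_mul]
      norm_num
    have h3 : (fun t => (-1 : ℝ) ^ (P - 1) * F t) = F := by
      funext t
      rw [h2, one_mul]
    have h4 : (fun t => (-1 : ℝ) ^ (Q - 1) * (ε * f t)) =
        fun t => ε * ((-1 : ℝ) ^ (Q - 1) * f t) := by
      funext t
      ring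
    rw [h3, h4]
    exact hc' i
  have hz : (0 : ℝ) ∈ limCyc P Q F (fun t => ε * f t) := zero_lim hP hQ hodd D hint hε.ne'
  -- the injective map
  let g : Fin Z ⊕ Fin Z ⊕ Unit → ℝ := Sum.elim c (Sum.elim (fun i => -c' i) fun _ => 0)
  have hg : Function.Injective g := by
    rintro (i | i | i) (j | j | j) hij
    · have h2 : c i = c j := hij
      rw [hinj c hcd i j h2]
    · have h2 : c i = -c' j := hij
      linarith [hcpos i, hcpos' j]
    · have h2 : c i = 0 := hij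
      linarith [hcpos i]
    · have h2 : -c' i = c j := hij
      linarith [hcpos j, hcpos' i]
    · have h2 : -c' i = -c' j := hij
      rw [hinj c' hcd' i j (neg_injective h2)]
    · have h2 : -c' i = 0 := hij
      linarith [hcpos' i]
    · have h2 : 0 = c j := hij
      linarith [hcpos j]
    · have h2 : 0 = -c' j := hij
      linarith [hcpos' j]
    · rfl
  have hsub : range g ⊆ limCyc P Q F (fun t => ε * f t) := by
    rintro _ ⟨i | i | i, rfl⟩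
    · exact hc i
    · exact hneg i
    · exact hz
  refine le_trans ?_ (encard_le_encard hsub)
  rw [← image_univ, hg.encard_image, encard_univ]
  simp only [ENat.card_eq_coe_fintype_card, Fintype.card_sum, Fintype.card_fin, Fintype.card_unit]
  refine le_of_eq ?_
  congr 1
  ring

end Pool.Agent.AbelLB
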