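import Pool.Agent.Lib.MP_bb703b_an.B.Df

set_option autoImplicit false

open Real Set MeasureTheory intervalIntegral Polynomial

/-! Row bb-T1. Trigonometric polynomials and complex polynomials. -/

namespace Pool.Agent.AbelLB

private theorem T1_Icc (m : ℕ) (h : ℕ → ℂ) : ∑ k ∈ Finset.Icc 1 m, h k = ∑ i ∈ Finset.range m, h (i + 1) := by
  induction m with
  | zero => simp
  | succ m ih => rw [Finset.sum_Icc_succ_top (by omega), ih, Finset.sum_range_succ]

private theorem T1_split (m : ℕ) (g : ℕ → ℂ) : ∑ j ∈ Finset.range (2 * m + 1), g j =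
    g m + ∑ k ∈ Finset.Icc 1 m, (g (m + k) + g (m - k)) := by
  have e : 2 * m + 1 = m + (m + 1) := by ring
  rw [e, Finset.sum_range_add, Finset.sum_range_succ', Finset.sum_add_distrib, T1_Icc, T1_Icc,
    ← Finset.sum_range_reflect]
  have h1 : ∑ j ∈ Finset.range m, g (m - 1 - j) = ∑ i ∈ Finset.range m, g (m - (i + 1)) := by
    refine Finset.sum_congr rfl fun j _ => ?_
    congr 1
    omega
  rw [h1, add_zero]
  ring

private theorem T1_pow (t : ℝ) (k : ℕ) :
    Complex.exp (t * Complex.I) ^ k = Complex.exp (((k * t : ℝ) : ℂ) * Complex.I) := by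
  rw [← Complex.exp_nat_mul]
  congr 1
  push_cast
  ring

private theorem T1_inv (t : ℝ) (k : ℕ) :
    (Complex.exp (t * Complex.I) ^ k)⁻¹ = Complex.exp (((-(k * t) : ℝ) : ℂ) * Complex.I) := by
  rw [T1_pow, ← Complex.exp_neg]
  congr 1
  push_cast
  ring

private theorem T1_re (c : ℂ) (x : ℝ) :
    (c * Complex.exp ((x : ℂ) * Complex.I)).re = c.re * cos x - c.im * sin x := by
  rw [Complex.mul_re, Complex.exp_ofReal_mul_I_re, Complex.exp_ofReal_mul_I_im]

private theorem T1_trig (a b x : ℝ) : ((a * cos x + b * sin x : ℝ) : ℂ) =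
    ((a : ℂ) - Complex.I * b) / 2 * Complex.exp ((x : ℂ) * Complex.I) +
      ((a : ℂ) + Complex.I * b) / 2 * Complex.exp (((-x : ℝ) : ℂ) * Complex.I) := by
  apply Complex.ext
  · rw [Complex.add_re, T1_re, T1_re, Complex.ofReal_re]
    simp
    ring
  · rw [Complex.add_im, Complex.mul_im, Complex.mul_im, Complex.exp_ofReal_mul_I_re,
      Complex.exp_ofReal_mul_I_im, Complex.exp_ofReal_mul_I_re, Complex.exp_ofReal_mul_I_im,
      Complex.ofReal_im]
    simp
    ring

/-- (→) `f t e^{imt} = P(e^{it})` with `P = ∑_{j ≤ 2m} c_j X^j`, `c_m = a_0`, `c_{m+k} = (a_k - i b_k)/2`, `c_{m-k} = (a_k + i b_k)/2`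
(or by induction on `m`: `f = f₁ + a cos(mt) + b sin(mt)`, `P = X P₁ + (a-ib)/2 X^{2m} + (a+ib)/2`).
(←) `f t = Re (∑_j c_j e^{i(j-m)t}) = ∑_j (Re c_j cos((j-m)t) - Im c_j sin((j-m)t))`; collect `j = m ± k`:
`a_0 = Re c_m`, `a_k = Re c_{m+k} + Re c_{m-k}`, `b_k = Im c_{m-k} - Im c_{m+k}`. -/
theorem TP_iff {m : ℕ} {f : ℝ → ℝ} : TP m f ↔ ∃ P : ℂ[X], P.natDegree ≤ 2 * m ∧
    ∀ t : ℝ, (f t : ℂ) * Complex.exp (m * t * Complex.I) = P.eval (Complex.exp (t * Complex.I)) := by
  have hexp : ∀ t : ℝ, Complex.exp (m * t * Complex.I) = Complex.exp (t * Complex.I) ^ m := by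
    intro t
    rw [← Complex.exp_nat_mul]
    congr 1
    ring
  constructor
  · rintro ⟨a, b, hf⟩
    refine ⟨C (a 0 : ℂ) * X ^ m + ∑ k ∈ Finset.Icc 1 m,
      (C (((a k : ℂ) - Complex.I * b k) / 2) * X ^ (m + k) +
        C (((a k : ℂ) + Complex.I * b k) / 2) * X ^ (m - k)), ?_, ?_⟩
    · refine natDegree_add_le_of_degree_le ((natDegree_C_mul_X_pow_le _ _).trans (by omega)) ?_
      refine natDegree_sum_le_of_forall_le _ _ fun k hk => ?_
      have h1 := Finset.mem_Icc.1 hk
      exact natDegree_add_le_of_degree_le ((natDegree_C_mul_X_pow_le _ _).trans (by omega))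
        ((natDegree_C_mul_X_pow_le _ _).trans (by omega))
    · intro t
      rw [hexp]
      set z := Complex.exp (t * Complex.I) with hz
      have hz0 : z ≠ 0 := Complex.exp_ne_zero _
      rw [eval_add, eval_finsetSum, hf t]
      simp only [eval_mul, eval_C, eval_pow, eval_X, eval_add]
      rw [Complex.ofReal_add, add_mul, Complex.ofReal_sum, Finset.sum_mul]
      congr 1
      refine Finset.sum_congr rfl fun k hk => ?_
      have h1 := Finset.mem_Icc.1 hk
      rw [T1_trig, ← T1_pow, ← T1_inv, ← hz]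
      have e1 : z ^ (m + k) = z ^ m * z ^ k := pow_add _ _ _
      have e2 : z ^ (m - k) = z ^ m * (z ^ k)⁻¹ := by
        rw [pow_sub₀ z hz0 h1.2]
      rw [e1, e2]
      ring
  · rintro ⟨P, hP, hf⟩
    refine ⟨fun k => if k = 0 then (P.coeff m).re else (P.coeff (m + k)).re + (P.coeff (m - k)).re,
      fun k => (P.coeff (m - k)).im - (P.coeff (m + k)).im, ?_⟩
    intro t
    have h1 := hf t
    rw [hexp, eval_eq_sum_range' (show P.natDegree < 2 * m + 1 by omega), T1_split] at h1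
    set z := Complex.exp (t * Complex.I) with hz
    have hz0 : z ≠ 0 := Complex.exp_ne_zero _
    have hzm : z ^ m ≠ 0 := pow_ne_zero _ hz0
    have h2 : (f t : ℂ) = P.coeff m + ∑ k ∈ Finset.Icc 1 m,
        (P.coeff (m + k) * z ^ k + P.coeff (m - k) * (z ^ k)⁻¹) := by
      have h3 : (f t : ℂ) = ((f t : ℂ) * z ^ m) * (z ^ m)⁻¹ := by
        rw [mul_assoc, mul_inv_cancel₀ hzm, mul_one]
      rw [h3, h1, add_mul, mul_assoc, mul_inv_cancel₀ hzm, mul_one, Finset.sum_mul]
      congr 1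
      refine Finset.sum_congr rfl fun k hk => ?_
      have h4 := Finset.mem_Icc.1 hk
      have e1 : z ^ (m + k) = z ^ m * z ^ k := pow_add _ _ _
      have e2 : z ^ (m - k) = z ^ m * (z ^ k)⁻¹ := by
        rw [pow_sub₀ z hz0 h4.2]
      rw [e1, e2]
      field_simp
    have h3 := congrArg Complex.re h2
    rw [Complex.ofReal_re, Complex.add_re, Complex.re_sum] at h3
    rw [h3]
    beta_reduce
    rw [if_pos rfl]
    congr 1
    refine Finset.sum_congr rfl fun k hk => ?_
    have h4 := Finset.mem_Icc.1 hk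
    rw [Complex.add_re, hz, T1_inv, T1_pow, T1_re, T1_re, if_neg (by omega), cos_neg, sin_neg]
    ring

end Pool.Agent.AbelLB
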