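import Pool.Agent.Lib.MP_bb703b_an.B.T2

set_option autoImplicit false

open Real Set MeasureTheory intervalIntegral Polynomial

/-! Row bb-T4. Elimination of the top frequency. -/

namespace Pool.Agent.AbelLB

private theorem T4_congr {m : ℕ} {f g : ℝ → ℝ} (hf : TP m f) (h : ∀ t, g t = f t) : TP m g := by
  have : g = f := funext h
  rw [this]; exact hf

private theorem T4_cos {m : ℕ} (j : ℕ) (hj : j ≤ m) (c : ℝ) : TP m (fun t => c * cos (j * t)) := by
  refine T4_congr (TP.cos_sin j hj c 0) ?_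
  intro t; simp

private theorem T4_w {k : ℕ} {w r : ℝ → ℝ} (hr : TP (k - 1) r) (hw : ∀ t, w t = cos (k * t) + r t) :
    TP k w := by
  have h1 : TP k (fun t => 1 * cos (k * t)) := T4_cos k le_rfl 1
  have h2 : TP k r := TP.mono (Nat.sub_le k 1) hr
  refine T4_congr (TP.add h1 h2) ?_
  intro t; simp [hw t]

/-- The leading part of a power: `w = cos (kt) + r`, `deg r < k`. Induction on `d`: `cos(kdt) cos(kt) = (cos(k(d+1)t) + cos(k(d-1)t))/2`. -/
theorem pow_top {k : ℕ} (hk : 1 ≤ k) {w r : ℝ → ℝ} (hr : TP (k - 1) r) (hw : ∀ t, w t = cos (k * t) + r t) (d : ℕ) (hd : 1 ≤ d) :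
    ∃ s : ℝ → ℝ, TP (k * d - 1) s ∧ ∀ t, w t ^ d = 2 * (1 / 2) ^ d * cos ((k * d : ℕ) * t) + s t := by
  induction d, hd using Nat.le_induction with
  | base =>
    refine ⟨r, by simpa using hr, ?_⟩
    intro t
    rw [hw t]
    simp
  | succ d hd ih =>
    obtain ⟨s, hs, hsw⟩ := ih
    have hkd : 1 ≤ k * d := Nat.one_le_iff_ne_zero.mpr (Nat.mul_ne_zero (by omega) (by omega))
    have hkd1 : k * (d - 1) = k * d - k := by
      rw [Nat.mul_sub, Nat.mul_one]
    have hkd2 : k * (d + 1) = k * d + k := by ring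
    have hkle : k ≤ k * d := Nat.le_mul_of_pos_right k (by omega)
    have hwk : TP k w := T4_w hr hw
    refine ⟨fun t => (1 / 2) ^ d * cos ((k * d - k : ℕ) * t) + ((2 * (1 / 2) ^ d * cos ((k * d : ℕ) * t)) * r t
      + s t * w t), ?_, ?_⟩
    · have h1 : TP (k * (d + 1) - 1) (fun t => (1 / 2 : ℝ) ^ d * cos ((k * d - k : ℕ) * t)) :=
        T4_cos (k * d - k) (by omega) _
      have h2 : TP (k * (d + 1) - 1) (fun t => (2 * (1 / 2 : ℝ) ^ d * cos ((k * d : ℕ) * t)) * r t) :=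
        TP.mono (by omega) (TP.mul (T4_cos (m := k * d) (k * d) le_rfl (2 * (1 / 2 : ℝ) ^ d)) hr)
      have h3 : TP (k * (d + 1) - 1) (fun t => s t * w t) :=
        TP.mono (by omega) (TP.mul hs hwk)
      exact TP.add h1 (TP.add h2 h3)
    · intro t
      have e1 : w t ^ (d + 1) = w t ^ d * w t := pow_succ _ _
      have e2 : w t ^ d * w t = (2 * (1 / 2) ^ d * cos ((k * d : ℕ) * t)) * w t + s t * w t := by
        rw [hsw t]; ring
      have e3 : (2 * (1 / 2) ^ d * cos ((k * d : ℕ) * t)) * w t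
          = (2 * (1 / 2) ^ d * cos ((k * d : ℕ) * t)) * cos (k * t)
            + (2 * (1 / 2) ^ d * cos ((k * d : ℕ) * t)) * r t := by
        rw [hw t]; ring
      have c1 : ((k * (d + 1) : ℕ) : ℝ) * t = (k * d : ℕ) * t + k * t := by
        push_cast; ring
      have c2 : ((k * d - k : ℕ) : ℝ) * t = (k * d : ℕ) * t - k * t := by
        rw [Nat.cast_sub hkle]; ring
      have e4 : cos ((k * (d + 1) : ℕ) * t) + cos ((k * d - k : ℕ) * t)
          = 2 * (cos ((k * d : ℕ) * t) * cos (k * t)) := by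
        rw [c1, c2, cos_add, cos_sub]; ring
      rw [e1, e2, e3, pow_succ]
      have e5 : cos ((k * (d + 1) : ℕ) * t)
          = 2 * (cos ((k * d : ℕ) * t) * cos (k * t)) - cos ((k * d - k : ℕ) * t) := by
        linarith
      rw [e5]; ring

private theorem T4_prod (n l : ℕ) (hn : 1 ≤ n) (hl : 1 ≤ l) (x y : ℝ) :
    ∃ s : ℝ → ℝ, TP (n + l - 1) s ∧ ∀ t, cos (n * t) * (x * cos (l * t) + y * sin (l * t))
      = (1 / 2) * (x * cos ((n + l : ℕ) * t) + y * sin ((n + l : ℕ) * t)) + s t := by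
  rcases le_total l n with h | h
  · refine ⟨fun t => (x / 2) * cos ((n - l : ℕ) * t) + (-y / 2) * sin ((n - l : ℕ) * t),
      TP.cos_sin (n - l) (by omega) _ _, ?_⟩
    intro t
    have c1 : ((n + l : ℕ) : ℝ) * t = n * t + l * t := by push_cast; ring
    have c2 : ((n - l : ℕ) : ℝ) * t = n * t - l * t := by rw [Nat.cast_sub h]; ring
    simp only [c1, c2, cos_add, cos_sub, sin_add, sin_sub]
    ring
  · refine ⟨fun t => (x / 2) * cos ((l - n : ℕ) * t) + (y / 2) * sin ((l - n : ℕ) * t),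
      TP.cos_sin (l - n) (by omega) _ _, ?_⟩
    intro t
    have c1 : ((n + l : ℕ) : ℝ) * t = n * t + l * t := by push_cast; ring
    have c2 : ((l - n : ℕ) : ℝ) * t = l * t - n * t := by rw [Nat.cast_sub h]; ring
    simp only [c1, c2, cos_add, cos_sub, sin_add, sin_sub]
    ring

private theorem T4_top {k : ℕ} (hk : 1 ≤ k) {w r : ℝ → ℝ} (hr : TP (k - 1) r) (hw : ∀ t, w t = cos (k * t) + r t)
    (d M : ℕ) (hM : k * d < M) (x y : ℝ) :
    ∃ s : ℝ → ℝ, TP (M - 1) s ∧ ∀ t, w t ^ d * (x * cos ((M - k * d : ℕ) * t) + y * sin ((M - k * d : ℕ) * t))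
      = (1 / 2) ^ d * (x * cos (M * t) + y * sin (M * t)) + s t := by
  rcases Nat.eq_zero_or_pos d with h0 | hd
  · subst h0
    refine ⟨fun _ => 0, TP.const _ _, ?_⟩
    intro t; simp
  · obtain ⟨s, hs, hsw⟩ := pow_top hk hr hw d hd
    have hkd : 1 ≤ k * d := Nat.one_le_iff_ne_zero.mpr (Nat.mul_ne_zero (by omega) (by omega))
    obtain ⟨q, hq, hqe⟩ := T4_prod (k * d) (M - k * d) hkd (by omega) x y
    have hsum : k * d + (M - k * d) = M := by omega
    rw [hsum] at hq hqe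
    have hu : TP (M - k * d) (fun t => x * cos ((M - k * d : ℕ) * t) + y * sin ((M - k * d : ℕ) * t)) :=
      TP.cos_sin (M - k * d) le_rfl x y
    refine ⟨fun t => (2 * (1 / 2) ^ d) * q t
      + s t * (x * cos ((M - k * d : ℕ) * t) + y * sin ((M - k * d : ℕ) * t)), ?_, ?_⟩
    · exact TP.add (TP.smul _ hq) (TP.mono (by omega) (TP.mul hs hu))
    · intro t
      have h1 := hqe t
      rw [hsw t]
      have h2 : (2 * (1 / 2) ^ d * cos ((k * d : ℕ) * t) + s t)
            * (x * cos ((M - k * d : ℕ) * t) + y * sin ((M - k * d : ℕ) * t))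
          = (2 * (1 / 2) ^ d) * (cos ((k * d : ℕ) * t)
            * (x * cos ((M - k * d : ℕ) * t) + y * sin ((M - k * d : ℕ) * t)))
            + s t * (x * cos ((M - k * d : ℕ) * t) + y * sin ((M - k * d : ℕ) * t)) := by ring
      rw [h2, h1]; ring

/-- Elimination step. `M > k d`. With `b t = α cos(Mt) + β sin(Mt) + (degree ≤ M-1)` take `u t = x cos((M-kd)t) + y sin((M-kd)t)`; the top part of `w^d u` is
`c (x cos(Mt) + y sin(Mt))`, `c = (1/2)^d ≠ 0` (also for `d = 0`: `c = 1`), its derivative has the top part `c M (-x sin(Mt) + y cos(Mt))`: take `y = -α/(cM)`, `x = β/(cM)`. -/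
theorem elim {k : ℕ} (hk : 1 ≤ k) {w r : ℝ → ℝ} (hr : TP (k - 1) r) (hw : ∀ t, w t = cos (k * t) + r t) (d M : ℕ)
    (hM : k * d < M) {b : ℝ → ℝ} (hb : TP M b) :
    ∃ u : ℝ → ℝ, TP (M - k * d) u ∧ TP (M - 1) (fun t => b t + deriv (fun t => w t ^ d * u t) t) := by
  obtain ⟨p, q, hpq⟩ := hb
  have hM1 : 1 ≤ M := by omega
  have hMR : (M : ℝ) ≠ 0 := by exact_mod_cast (by omega : M ≠ 0)
  have hc : ((1 / 2 : ℝ) ^ d) ≠ 0 := by positivity
  set c : ℝ := (1 / 2 : ℝ) ^ d with hcdef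
  set x : ℝ := q M / (c * M) with hx
  set y : ℝ := -p M / (c * M) with hy
  obtain ⟨s, hs, hsw⟩ := T4_top hk hr hw d M hM x y
  refine ⟨fun t => x * cos ((M - k * d : ℕ) * t) + y * sin ((M - k * d : ℕ) * t),
    TP.cos_sin (M - k * d) le_rfl x y, ?_⟩
  have hb0 : TP (M - 1) (fun t => p 0 + ∑ k ∈ Finset.Icc 1 (M - 1), (p k * cos (k * t) + q k * sin (k * t))) :=
    ⟨p, q, fun t => rfl⟩
  refine T4_congr (TP.add hb0 (TP.deriv' hs)) ?_
  intro t
  have hfun : (fun t => w t ^ d * (x * cos ((M - k * d : ℕ) * t) + y * sin ((M - k * d : ℕ) * t)))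
      = fun t => c * (x * cos (M * t) + y * sin (M * t)) + s t := by
    funext t; exact hsw t
  have hder : HasDerivAt (fun t => c * (x * cos (M * t) + y * sin (M * t)) + s t)
      (c * (x * (-sin (M * t) * (M * 1)) + y * (cos (M * t) * (M * 1))) + deriv s t) t := by
    have hlin : HasDerivAt (fun t : ℝ => (M : ℝ) * t) (M * 1) t := (hasDerivAt_id t).const_mul _
    exact (((hlin.cos.const_mul x).add (hlin.sin.const_mul y)).const_mul c).add (TP.hd hs t)
  have hIcc : Finset.Icc 1 M = insert M (Finset.Icc 1 (M - 1)) := by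
    ext j; simp only [Finset.mem_Icc, Finset.mem_insert]; omega
  have hnot : M ∉ Finset.Icc 1 (M - 1) := by simp only [Finset.mem_Icc]; omega
  show b t + deriv (fun t => w t ^ d * (x * cos ((M - k * d : ℕ) * t) + y * sin ((M - k * d : ℕ) * t))) t = _
  rw [hfun, hder.deriv, hpq t, hIcc, Finset.sum_insert hnot]
  have hx' : c * x * M = q M := by rw [hx]; field_simp
  have hy' : c * y * M = -p M := by rw [hy]; field_simp
  have e1 : c * (x * (-sin (M * t) * (M * 1)) + y * (cos (M * t) * (M * 1)))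
      = -(c * x * M) * sin (M * t) + (c * y * M) * cos (M * t) := by ring
  rw [e1, hx', hy']
  ring

end Pool.Agent.AbelLB
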