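import Pool.Agent.Lib.MP_bb703b_an.B.St
import Pool.Agent.Lib.MP_bb703b_an.B.En

set_option autoImplicit false

open Real Set MeasureTheory intervalIntegral Polynomial Pool.Agent.AbelLT

/-! Row bb-Z0. No small positive periodic solution. -/

namespace Pool.Agent.AbelLB

private theorem Z0_bound {g : ℝ → ℝ} (hg : Continuous g) :
    ∃ C ≥ 0, ∀ t ∈ Icc (0:ℝ) (2 * π), |g t| ≤ C := by
  obtain ⟨C, hC⟩ := (isCompact_Icc (a := (0:ℝ)) (b := 2 * π)).exists_bound_of_continuousOn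
    hg.continuousOn
  refine ⟨max C 0, le_max_right _ _, fun t ht => ?_⟩
  have h1 := hC t ht
  rw [Real.norm_eq_abs] at h1
  exact h1.trans (le_max_left _ _)

/-- `y = 1/x`, `y' = -(A x^(P-2) + B x^(Q-2))`, `|y'| ≤ K = sup |A| + sup |B|` as long as `x ≤ 1`, i.e. `y ≥ 1`; `stay` with `r = y 0 - 1`, for `y 0 > 2π K + 1`. -/
theorem small_stay {P Q : ℕ} (hP : 2 ≤ P) (hQ : 2 ≤ Q) {A B : ℝ → ℝ} (hA : Continuous A) (hB : Continuous B) :
    ∃ K ≥ 0, ∃ η > 0, ∀ x : ℝ → ℝ, PosPer P Q A B x → x 0 < η → ∀ t ∈ Icc 0 (2 * π), |(x t)⁻¹ - (x 0)⁻¹| ≤ K := by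
  obtain ⟨CA, hCA, hCA'⟩ := Z0_bound hA
  obtain ⟨CB, hCB, hCB'⟩ := Z0_bound hB
  have hpi := Real.pi_pos
  set K₀ := CA + CB with hK₀
  have hK₀0 : 0 ≤ K₀ := by positivity
  refine ⟨K₀ * (2 * π), by positivity, (K₀ * (2 * π) + 2)⁻¹, by positivity, fun x hx h0 => ?_⟩
  have hx0 := hx.pos 0
  have hy0 : K₀ * (2 * π) + 2 < (x 0)⁻¹ := by
    rwa [lt_inv_comm₀ (by positivity) hx0]
  have hder : ∀ t ∈ Icc 0 (2 * π), HasDerivAt (fun t => (x t)⁻¹)
      (-(A t * x t ^ P + B t * x t ^ Q) / x t ^ 2) t := fun t _ =>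
    (hx.sol.hd t).fun_inv (hx.pos t).ne'
  have hst := stay (y := fun t => (x t)⁻¹) (r := (x 0)⁻¹ - 1) (K := K₀) (T := 2 * π)
    (by nlinarith) hK₀0 hder (fun t ht hb => ?_) (by linarith)
  · intro t ht
    refine (hst t ht).trans ?_
    exact mul_le_mul_of_nonneg_left ht.2 hK₀0
  · have hxt := hx.pos t
    have h1 : 1 ≤ (x t)⁻¹ := by
      have := (abs_le.1 hb).1
      linarith
    have h2 : x t ≤ 1 := by
      rwa [one_le_inv₀ hxt] at h1
    have h3 : -(A t * x t ^ P + B t * x t ^ Q) / x t ^ 2 =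
        -(A t * x t ^ (P - 2) + B t * x t ^ (Q - 2)) := by
      obtain ⟨P', rfl⟩ := Nat.exists_eq_add_of_le hP
      obtain ⟨Q', rfl⟩ := Nat.exists_eq_add_of_le hQ
      rw [Nat.add_sub_cancel_left, Nat.add_sub_cancel_left, pow_add, pow_add]
      field_simp
    rw [h3, abs_neg]
    have h4 : |x t ^ (P - 2)| ≤ 1 := by
      rw [abs_of_pos (by positivity)]
      exact pow_le_one₀ hxt.le h2
    have h5 : |x t ^ (Q - 2)| ≤ 1 := by
      rw [abs_of_pos (by positivity)]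
      exact pow_le_one₀ hxt.le h2
    calc |A t * x t ^ (P - 2) + B t * x t ^ (Q - 2)|
        ≤ |A t * x t ^ (P - 2)| + |B t * x t ^ (Q - 2)| := abs_add_le _ _
      _ = |A t| * |x t ^ (P - 2)| + |B t| * |x t ^ (Q - 2)| := by rw [abs_mul, abs_mul]
      _ ≤ CA * 1 + CB * 1 := by
          refine add_le_add ?_ ?_
          · exact mul_le_mul (hCA' t ht) h4 (abs_nonneg _) hCA
          · exact mul_le_mul (hCB' t ht) h5 (abs_nonneg _) hCB
      _ = K₀ := by rw [hK₀]; ring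

private theorem Z0_near (P Q : ℕ) {δ : ℝ} (hδ : 0 < δ) :
    ∃ ρ > 0, ∀ u : ℝ, |u - 1| < ρ → |u ^ P / u ^ Q - 1| < δ := by
  have h1 : ContinuousAt (fun u : ℝ => u ^ P / u ^ Q) 1 :=
    ContinuousAt.div (by fun_prop) (by fun_prop) (by simp)
  obtain ⟨ρ, hρ, h2⟩ := Metric.continuousAt_iff.1 h1 δ hδ
  refine ⟨ρ, hρ, fun u hu => ?_⟩
  have h3 := h2 (x := u) (by rwa [Real.dist_eq])
  simpa [Real.dist_eq] using h3

/-- No small positive periodic solution: by `energy` (periodicity) `∫ f x^Q/x^P = 0` (`ε ≠ 0`); divide by `x 0 ^Q / x 0 ^P`: with `q t = x t / x 0`, `|1/q t - 1| ≤ K x 0` (`small_stay`),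
`∫ f q^Q/q^P = 0`, and `q^Q/q^P → 1` uniformly as `x 0 → 0`, so `∫ f = 0`, a contradiction for small `x 0`. -/
theorem no_small {P Q : ℕ} (hP : 2 ≤ P) (hQ : 2 ≤ Q) {𝔸 F f : ℝ → ℝ} (D : Dat 𝔸 F f) (hint : (∫ t in (0:ℝ)..(2 * π), f t) ≠ 0) {ε : ℝ} (hε : ε ≠ 0) :
    ∃ η > 0, ∀ x : ℝ → ℝ, PosPer P Q F (fun t => ε * f t) x → η ≤ x 0 := by
  have hpi := Real.pi_pos
  obtain ⟨K, hK, η₁, hη₁, hstay⟩ := small_stay hP hQ D.hF (D.hf.const_mul ε)
  obtain ⟨C, hC, hC'⟩ := Z0_bound D.hf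
  have hI : 0 < |∫ t in (0:ℝ)..(2 * π), f t| := abs_pos.2 hint
  set I := |∫ t in (0:ℝ)..(2 * π), f t| with hIdef
  set δ := I / (2 * (C * (2 * π) + 1)) with hδdef
  have hδ : 0 < δ := by positivity
  obtain ⟨ρ, hρ, hnear⟩ := Z0_near P Q hδ
  refine ⟨min η₁ (ρ / (K + 1)), lt_min hη₁ (by positivity), fun x hx => ?_⟩
  by_contra hcon
  push Not at hcon
  obtain ⟨hc1, hc2⟩ := lt_min_iff.1 hcon
  have hx0 := hx.pos 0
  have hxc : Continuous x := continuous_iff_continuousAt.2 fun t => (hx.sol.hd t).continuousAt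
  obtain ⟨h, -, -, -, -, hder, hper⟩ := energy hP D hx
  have hcont : Continuous (fun t => f t * (x t ^ Q / x t ^ P)) :=
    D.hf.mul ((hxc.pow Q).div (hxc.pow P) fun t => (pow_pos (hx.pos t) P).ne')
  have h1 : (∫ t in (0:ℝ)..(2 * π), -(ε * (f t * (x t ^ Q / x t ^ P)))) = h (2 * π) - h 0 :=
    integral_eq_sub_of_hasDerivAt (fun t _ => hder t)
      ((hcont.const_mul ε).neg.intervalIntegrable _ _)
  have h2 : h (2 * π) = h 0 := by
    have := hper 0
    rwa [zero_add] at this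
  rw [h2, sub_self, intervalIntegral.integral_neg, intervalIntegral.integral_const_mul,
    neg_eq_zero, mul_eq_zero] at h1
  have h3 : (∫ t in (0:ℝ)..(2 * π), f t * (x t ^ Q / x t ^ P)) = 0 := h1.resolve_left hε
  set c := x 0 with hc
  have h4 : ∀ t, f t * ((c / x t) ^ P / (c / x t) ^ Q) =
      (c ^ P / c ^ Q) * (f t * (x t ^ Q / x t ^ P)) := by
    intro t
    have hxt := (hx.pos t).ne'
    have hc0 := hx0.ne'
    rw [div_pow, div_pow]
    field_simp
  have h5 : (∫ t in (0:ℝ)..(2 * π), f t * ((c / x t) ^ P / (c / x t) ^ Q)) = 0 := by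
    simp only [h4]
    rw [intervalIntegral.integral_const_mul, h3, mul_zero]
  have hcont2 : Continuous (fun t => f t * ((c / x t) ^ P / (c / x t) ^ Q)) := by
    simp only [h4]
    exact hcont.const_mul _
  have h6 : (∫ t in (0:ℝ)..(2 * π), f t) =
      -∫ t in (0:ℝ)..(2 * π), (f t * ((c / x t) ^ P / (c / x t) ^ Q) - f t) := by
    rw [intervalIntegral.integral_sub (hcont2.intervalIntegrable _ _)
      (D.hf.intervalIntegrable _ _), h5]
    ring
  have h7 : |∫ t in (0:ℝ)..(2 * π), (f t * ((c / x t) ^ P / (c / x t) ^ Q) - f t)| ≤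
      C * δ * |2 * π - 0| := by
    rw [← Real.norm_eq_abs]
    refine intervalIntegral.norm_integral_le_of_norm_le_const fun t ht => ?_
    rw [uIoc_of_le (by positivity)] at ht
    have ht' : t ∈ Icc 0 (2 * π) := ⟨ht.1.le, ht.2⟩
    have hxt := hx.pos t
    have h8 : |c / x t - 1| < ρ := by
      have h9 := hstay x hx hc1 t ht'
      have h10 : c / x t - 1 = c * ((x t)⁻¹ - c⁻¹) := by
        have hc0 := hx0.ne'
        field_simp
      rw [h10, abs_mul, abs_of_pos hx0]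
      calc c * |(x t)⁻¹ - c⁻¹| ≤ c * K := mul_le_mul_of_nonneg_left h9 hx0.le
        _ ≤ c * (K + 1) := mul_le_mul_of_nonneg_left (by linarith) hx0.le
        _ < ρ := by rwa [lt_div_iff₀ (by positivity)] at hc2
    have h11 := hnear _ h8
    rw [show f t * ((c / x t) ^ P / (c / x t) ^ Q) - f t =
      f t * ((c / x t) ^ P / (c / x t) ^ Q - 1) by ring, Real.norm_eq_abs, abs_mul]
    exact mul_le_mul (hC' t ht') h11.le (abs_nonneg _) hC
  have h12 : I ≤ C * δ * (2 * π) := by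
    rw [hIdef, h6, abs_neg]
    refine h7.trans (le_of_eq ?_)
    rw [sub_zero, abs_of_pos (by positivity)]
  have h13 : C * δ * (2 * π) < I := by
    have h14 : δ * (2 * (C * (2 * π) + 1)) = I := by
      rw [hδdef]
      field_simp
    nlinarith [mul_nonneg hC hδ.le]
  linarith

end Pool.Agent.AbelLB
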